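import Mathlib
import Pool.Agent.H58B.Low

set_option autoImplicit false

/-!
# A determinant of powers

`core`: a height bound from a nonzero determinant of `p`-th powers of numbers which satisfy one
linear relation.
-/

namespace Pool.Agent.W5h73.SP

open NumberField Height Module
open Pool.Agent.Helper259.AbsHt
open Pool.Agent.H58P (Qb ht qb_isIntegral)

/-- the Frobenius congruence for a valuation -/
lemma val_sum_pow {R Γ : Type*} [CommRing R] [LinearOrderedCommGroupWithZero Γ]
    (v : Valuation R Γ) (hnat : ∀ n : ℕ, v (n : R) ≤ 1) {p : ℕ} (hp : p.Prime)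
    {ι : Type*} (s : Finset ι) (y : ι → R) (g : Γ) (hy : ∀ i ∈ s, v (y i) ≤ g) :
    v (∑ i ∈ s, y i ^ p - (∑ i ∈ s, y i) ^ p) ≤ v (p : R) * g ^ p := by
  classical
  induction s using Finset.induction with
  | empty => simp [hp.ne_zero]
  | insert a s ha ih =>
    have hys : ∀ i ∈ s, v (y i) ≤ g := fun i hi => hy i (Finset.mem_insert_of_mem hi)
    have hya : v (y a) ≤ g := hy a (Finset.mem_insert_self _ _)
    have hS : v (∑ i ∈ s, y i) ≤ g := v.map_sum_le hys
    rw [Finset.sum_insert ha, Finset.sum_insert ha, add_pow_prime_eq' hp]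
    have e : y a ^ p + ∑ i ∈ s, y i ^ p - (y a ^ p + (∑ i ∈ s, y i) ^ p +
        (p : R) * ∑ k ∈ Finset.Ioo 0 p, y a ^ k * (∑ i ∈ s, y i) ^ (p - k) *
          ((p.choose k / p : ℕ) : R)) =
        (∑ i ∈ s, y i ^ p - (∑ i ∈ s, y i) ^ p) +
        -((p : R) * ∑ k ∈ Finset.Ioo 0 p, y a ^ k * (∑ i ∈ s, y i) ^ (p - k) *
          ((p.choose k / p : ℕ) : R)) := by ring
    rw [e]
    refine (v.map_add _ _).trans (max_le (ih hys) ?_)
    rw [Valuation.map_neg, map_mul]
    apply mul_le_mul_right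
    apply v.map_sum_le
    intro k hk
    rw [map_mul, map_mul, map_pow, map_pow]
    have hk2 := Finset.mem_Ioo.mp hk
    calc v (y a) ^ k * v (∑ i ∈ s, y i) ^ (p - k) * v ((p.choose k / p : ℕ) : R)
        ≤ g ^ k * g ^ (p - k) * 1 := by
          apply mul_le_mul' (mul_le_mul' _ _) (hnat _)
          · exact pow_le_pow_left₀ zero_le hya k
          · exact pow_le_pow_left₀ zero_le hS (p - k)
      _ = g ^ p := by rw [mul_one, ← pow_add]; congr 1; omega

/-- the trivial bound for a determinant with respect to a valuation -/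
lemma val_det_triv {K Γ : Type*} [Field K] [LinearOrderedCommGroupWithZero Γ]
    (v : Valuation K Γ) {p : ℕ} {ι : Type*} [Fintype ι] [DecidableEq ι] (e : ι → ℕ) (D : ℕ)
    (he : ∀ i, e i ≤ D) (x : ι → K) :
    v (Matrix.of fun j i => x j ^ (p * e i)).det ≤ ∏ j, max 1 (v (x j)) ^ (p * D) := by
  classical
  rw [Matrix.det_apply']
  apply v.map_sum_le
  intro σ _
  have hsign : v ((Equiv.Perm.sign σ : ℤ) : K) = 1 := by
    rcases Int.units_eq_one_or (Equiv.Perm.sign σ) with h | h
    · rw [h]; simp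
    · rw [h]; simp [Valuation.map_neg]
  rw [map_mul, hsign, one_mul, map_prod, ← Equiv.prod_comp σ fun j => max 1 (v (x j)) ^ (p * D)]
  apply Finset.prod_le_prod (fun _ _ => zero_le)
  intro i _
  rw [Matrix.of_apply, map_pow]
  exact (pow_le_pow_left₀ zero_le (le_max_right _ _) _).trans
    (pow_le_pow_right₀ (le_max_left _ _) (Nat.mul_le_mul_left p (he i)))

/-- the bound for a determinant with respect to a valuation -/
lemma val_det_le {K Γ : Type*} [Field K] [LinearOrderedCommGroupWithZero Γ]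
    (v : Valuation K Γ) (hnat : ∀ n : ℕ, v (n : K) ≤ 1) {p : ℕ} (hp : p.Prime)
    {ι : Type*} [Fintype ι] [DecidableEq ι] (e : ι → ℕ) (D : ℕ) (he : ∀ i, e i ≤ D)
    (x a : ι → K) (i0 : ι) (ha0 : a i0 ≠ 0) (hi0 : ∀ i, v (a i) ≤ v (a i0))
    (hax : ∀ j, v (∑ i, a i * x j ^ e i) ≤ v (p : K) * v (a i0) * max 1 (v (x j)) ^ D) :
    v (Matrix.of fun j i => x j ^ (p * e i)).det ≤ v (p : K) * ∏ j, max 1 (v (x j)) ^ (p * D) := by
  classical
  have hva0 : v (a i0) ≠ 0 := (Valuation.ne_zero_iff v).mpr ha0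
  set b : ι → K := fun i => a i / a i0 with hb
  have hb0 : b i0 = 1 := div_self ha0
  have hvb : ∀ i, v (b i) ≤ 1 := by
    intro i
    rw [hb]
    show v (a i / a i0) ≤ 1
    rw [map_div₀]
    exact div_le_one_of_le₀ (hi0 i) zero_le
  have hbx : ∀ j, v (∑ i, b i * x j ^ e i) ≤ v (p : K) * max 1 (v (x j)) ^ D := by
    intro j
    have h1 : ∑ i, b i * x j ^ e i = (∑ i, a i * x j ^ e i) / a i0 := by
      rw [Finset.sum_div]
      refine Finset.sum_congr rfl fun i _ => ?_
      rw [hb]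
      ring
    rw [h1, map_div₀, div_le_iff₀ (zero_lt_iff.mpr hva0)]
    refine (hax j).trans (le_of_eq ?_)
    rw [mul_right_comm]
  set M : Matrix ι ι K := Matrix.of fun j i => x j ^ (p * e i) with hM
  have hcol := Matrix.det_updateCol_sum M i0 fun i => b i ^ p
  simp only [hb0, one_pow, one_smul] at hcol
  rw [← hcol]
  set m : ι → Γ := fun j => max 1 (v (x j)) with hm
  have hm1 : ∀ j, 1 ≤ m j := fun j => le_max_left _ _
  have hmx : ∀ j, v (x j) ≤ m j := fun j => le_max_right _ _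
  have hE : ∀ j, v (∑ i, b i ^ p * M j i) ≤ v (p : K) * m j ^ (p * D) := by
    intro j
    have h1 : ∑ i, b i ^ p * M j i =
        (∑ i, (b i * x j ^ e i) ^ p - (∑ i, b i * x j ^ e i) ^ p) +
          (∑ i, b i * x j ^ e i) ^ p := by
      rw [sub_add_cancel]
      refine Finset.sum_congr rfl fun i _ => ?_
      rw [hM, Matrix.of_apply, mul_pow, ← pow_mul, mul_comm p]
    rw [h1, mul_comm p D, pow_mul]
    refine (v.map_add _ _).trans (max_le ?_ ?_)
    · apply val_sum_pow v hnat hp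
      intro i _
      rw [map_mul, map_pow]
      calc v (b i) * v (x j) ^ e i ≤ 1 * m j ^ D := by
            apply mul_le_mul' (hvb i)
            exact (pow_le_pow_left₀ zero_le (hmx j) _).trans (pow_le_pow_right₀ (hm1 j) (he i))
        _ = _ := one_mul _
    · rw [map_pow]
      refine (pow_le_pow_left₀ zero_le (hbx j) p).trans ?_
      rw [mul_pow]
      apply mul_le_mul_left
      obtain ⟨q, rfl⟩ := Nat.exists_eq_succ_of_ne_zero hp.ne_zero
      rw [pow_succ]
      calc v ((q.succ : ℕ) : K) ^ q * v ((q.succ : ℕ) : K) ≤ 1 * v ((q.succ : ℕ) : K) := by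
            apply mul_le_mul_left
            exact pow_le_one₀ zero_le (hnat _)
        _ = _ := one_mul _
  rw [Matrix.det_apply']
  apply v.map_sum_le
  intro σ _
  have hsign : v ((Equiv.Perm.sign σ : ℤ) : K) = 1 := by
    rcases Int.units_eq_one_or (Equiv.Perm.sign σ) with h | h
    · rw [h]; simp
    · rw [h]; simp [Valuation.map_neg]
  rw [map_mul, hsign, one_mul, map_prod]
  have hsplit : ∀ i, v (M.updateCol i0 (fun k => ∑ i, b i ^ p • M k i) (σ i) i) ≤
      (if i = i0 then v (p : K) else 1) * m (σ i) ^ (p * D) := by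
    intro i
    by_cases h : i = i0
    · subst h
      rw [Matrix.updateCol_self, if_pos rfl]
      simpa [smul_eq_mul] using hE (σ i)
    · rw [Matrix.updateCol_ne h, if_neg h, one_mul, hM, Matrix.of_apply, map_pow]
      exact (pow_le_pow_left₀ zero_le (hmx _) _).trans
        (pow_le_pow_right₀ (hm1 _) (Nat.mul_le_mul_left p (he i)))
  calc ∏ i, v (M.updateCol i0 (fun k => ∑ i, b i ^ p • M k i) (σ i) i)
      ≤ ∏ i, ((if i = i0 then v (p : K) else 1) * m (σ i) ^ (p * D)) :=
        Finset.prod_le_prod (fun _ _ => zero_le) fun i _ => hsplit i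
    _ = v (p : K) * ∏ j, m j ^ (p * D) := by
        rw [Finset.prod_mul_distrib, Finset.prod_ite_eq' Finset.univ i0, if_pos (Finset.mem_univ _)]
        congr 1
        exact Equiv.prod_comp σ fun j => m j ^ (p * D)

/-- the archimedean bound for a determinant -/
lemma norm_det_le {ι : Type*} [Fintype ι] [DecidableEq ι] (x : ι → ℂ) (e : ι → ℕ) (p D : ℕ)
    (he : ∀ i, e i ≤ D) :
    ‖(Matrix.of fun j i => x j ^ (p * e i)).det‖ ≤
      ((Fintype.card ι).factorial : ℝ) * ∏ j, max 1 ‖x j‖ ^ (p * D) := by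
  classical
  rw [Matrix.det_apply']
  calc ‖∑ σ : Equiv.Perm ι, ((Equiv.Perm.sign σ : ℤ) : ℂ) *
        ∏ i, (Matrix.of fun j i => x j ^ (p * e i)) (σ i) i‖
      ≤ ∑ σ : Equiv.Perm ι, ‖((Equiv.Perm.sign σ : ℤ) : ℂ) *
        ∏ i, (Matrix.of fun j i => x j ^ (p * e i)) (σ i) i‖ := norm_sum_le _ _
    _ ≤ ∑ σ : Equiv.Perm ι, ∏ j, max 1 ‖x j‖ ^ (p * D) := by
        apply Finset.sum_le_sum
        intro σ _
        have hsign : ‖((Equiv.Perm.sign σ : ℤ) : ℂ)‖ = 1 := by
          rcases Int.units_eq_one_or (Equiv.Perm.sign σ) with h | h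
          · rw [h]; simp
          · rw [h]; simp
        rw [norm_mul, hsign, one_mul, norm_prod, ← Equiv.prod_comp σ fun j => max 1 ‖x j‖ ^ (p * D)]
        apply Finset.prod_le_prod (fun _ _ => norm_nonneg _)
        intro i _
        rw [Matrix.of_apply, norm_pow]
        exact (pow_le_pow_left₀ (norm_nonneg _) (le_max_right 1 _) _).trans
          (pow_le_pow_right₀ (le_max_left _ _) (Nat.mul_le_mul_left p (he i)))
    _ = _ := by
        rw [Finset.sum_const, Finset.card_univ, Fintype.card_perm, nsmul_eq_mul]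

/-- the height of a product vector with several factors -/
lemma absLogHeight_prod {ι : Type*} [Fintype ι] (y : ι → Qb) :
    absLogHeight (fun I : ι → Fin 2 => ∏ j, (![1, y j] : Fin 2 → Qb) (I j)) = ∑ j, ht (y j) := by
  obtain ⟨L, hL, hmem⟩ := exists_nf (Set.range y) (Set.finite_range y)
  obtain ⟨z, rfl⟩ := lift_vec L y fun i => hmem _ ⟨i, rfl⟩
  have e1 : ∀ j : ι, (![1, (z j : Qb)] : Fin 2 → Qb) =
      fun i => ((![1, z j] : Fin 2 → L) i : Qb) := by
    intro j
    funext i
    fin_cases i <;> simp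
  have e : (fun I : ι → Fin 2 => ∏ j, (![1, (z j : Qb)] : Fin 2 → Qb) (I j)) =
      fun I => (((fun I : ι → Fin 2 => ∏ j, (![1, z j] : Fin 2 → L) (I j)) I : L) : Qb) := by
    funext I
    push_cast
    refine Finset.prod_congr rfl fun j _ => ?_
    rw [e1]
  have hne : ∀ j : ι, (![1, z j] : Fin 2 → L) ≠ 0 := by
    intro j h
    have := congrFun h 0
    simp at this
  rw [e, val_eq, logHeight_fun_prod_eq (x := fun j => (![1, z j] : Fin 2 → L)) hne,
    Finset.sum_div]
  refine Finset.sum_congr rfl fun j _ => ?_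
  show _ = absLogHeight ![1, (z j : Qb)]
  rw [e1, val_eq]

/-- **the height bound from a nonzero determinant** -/
theorem core {p : ℕ} (hp : p.Prime) {ι : Type*} [Fintype ι] [DecidableEq ι]
    (hcard : 2 * (Fintype.card ι).factorial ≤ p) (e : ι → ℕ) (D : ℕ)
    (he : ∀ i, e i ≤ D) (x : ι → Qb)
    (hV : ∀ V : ValuationSubring Qb, V.valuation (p : Qb) < 1 → ∃ (a : ι → Qb) (i0 : ι),
      a i0 ≠ 0 ∧ (∀ i, V.valuation (a i) ≤ V.valuation (a i0)) ∧
      ∀ j, V.valuation (∑ i, a i * x j ^ e i) ≤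
        V.valuation (p : Qb) * V.valuation (a i0) * max 1 (V.valuation (x j)) ^ D)
    (hΔ : (Matrix.of fun j i => x j ^ (p * e i)).det ≠ 0) :
    Real.log 2 ≤ (p * D : ℝ) * ∑ j, ht (x j) := by
  set Δ : Qb := (Matrix.of fun j i => x j ^ (p * e i)).det with hΔdef
  have hp0 : (p : Qb) ≠ 0 := by exact_mod_cast hp.ne_zero
  set c : Qb := (p : Qb) / Δ with hc
  have hc0 : c ≠ 0 := div_ne_zero hp0 hΔ
  set w : (ι → Fin 2) → Qb := fun I => ∏ j, (![1, x j ^ (p * D)] : Fin 2 → Qb) (I j) with hw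
  have hsm : absLogHeight (c • w) = absLogHeight w := absLogHeight_smul w hc0
  have h1 : absLogHeight w = (p * D : ℝ) * ∑ j, ht (x j) := by
    rw [hw, absLogHeight_prod, Finset.mul_sum]
    refine Finset.sum_congr rfl fun j _ => ?_
    rw [Pool.Agent.H58B.ht_pow]
    push_cast
    ring
  rw [← h1, ← hsm]
  apply Pool.Agent.H58B.height_ge
  · intro V
    have hnat : ∀ n : ℕ, V.valuation (n : Qb) ≤ 1 := by
      intro n
      rw [ValuationSubring.valuation_le_one_iff]
      exact natCast_mem V n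
    have hb : V.valuation Δ ≤ V.valuation (p : Qb) *
        ∏ j, max 1 (V.valuation (x j)) ^ (p * D) := by
      rcases lt_or_eq_of_le (hnat p) with h | h
      · obtain ⟨a, i0, ha0, hi0, hax⟩ := hV V h
        exact val_det_le V.valuation hnat hp e D he x a i0 ha0 hi0 hax
      · rw [h, one_mul]
        exact val_det_triv V.valuation e D he x
    refine ⟨fun j => if 1 < V.valuation (x j) then 1 else 0, ?_⟩
    rw [Pi.smul_apply, smul_eq_mul, map_mul, hc, map_div₀, hw]
    have h2 : V.valuation (∏ j, (![1, x j ^ (p * D)] : Fin 2 → Qb)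
        (if 1 < V.valuation (x j) then 1 else 0)) =
        ∏ j, max 1 (V.valuation (x j)) ^ (p * D) := by
      rw [map_prod]
      refine Finset.prod_congr rfl fun j _ => ?_
      by_cases h : 1 < V.valuation (x j)
      · rw [if_pos h, max_eq_right h.le]
        simp
      · rw [if_neg h, max_eq_left (not_lt.mp h)]
        simp
    show 1 ≤ V.valuation (p : Qb) / V.valuation Δ * V.valuation (∏ j,
      (![1, x j ^ (p * D)] : Fin 2 → Qb) (if 1 < V.valuation (x j) then 1 else 0))
    rw [h2]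
    have hΔv : V.valuation Δ ≠ 0 := (Valuation.ne_zero_iff _).mpr hΔ
    rw [div_mul_eq_mul_div, one_le_div₀ (zero_lt_iff.mpr hΔv)]
    exact hb
  · intro φ
    have hb := norm_det_le (fun j => φ (x j)) e p D he
    have h3 : (Matrix.of fun j i => φ (x j) ^ (p * e i)).det = φ Δ := by
      rw [hΔdef, RingHom.map_det]
      congr 1
      ext j i
      simp
    rw [h3] at hb
    refine ⟨fun j => if 1 < ‖φ (x j)‖ then 1 else 0, ?_⟩
    rw [Pi.smul_apply, smul_eq_mul, map_mul, norm_mul, hc, map_div₀, norm_div, hw]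
    have h2 : ‖φ (∏ j, (![1, x j ^ (p * D)] : Fin 2 → Qb)
        (if 1 < ‖φ (x j)‖ then 1 else 0))‖ = ∏ j, max 1 ‖φ (x j)‖ ^ (p * D) := by
      rw [map_prod, norm_prod]
      refine Finset.prod_congr rfl fun j _ => ?_
      by_cases h : 1 < ‖φ (x j)‖
      · rw [if_pos h, max_eq_right h.le]
        simp
      · rw [if_neg h, max_eq_left (not_lt.mp h)]
        simp
    show 2 ≤ ‖φ (p : Qb)‖ / ‖φ Δ‖ * ‖φ (∏ j,
      (![1, x j ^ (p * D)] : Fin 2 → Qb) (if 1 < ‖φ (x j)‖ then 1 else 0))‖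
    rw [h2, map_natCast, Complex.norm_natCast]
    have hΔn : 0 < ‖φ Δ‖ := norm_pos_iff.mpr fun h => hΔ ((map_eq_zero φ).mp h)
    rw [div_mul_eq_mul_div, le_div_iff₀ hΔn]
    have hP : (0 : ℝ) ≤ ∏ j, max 1 ‖φ (x j)‖ ^ (p * D) := Finset.prod_nonneg fun j _ => by positivity
    have hcard' : (2 : ℝ) * ((Fintype.card ι).factorial : ℝ) ≤ p := by exact_mod_cast hcard
    nlinarith

end Pool.Agent.W5h73.SP
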