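import Mathlib
import Pool.Agent.H58B.Low

set_option autoImplicit false

/-!
# Hadamard's bound for a determinant and a general lower bound for heights
-/

namespace Pool.Agent.W5h73.SP

open NumberField Height Module
open scoped ComplexOrder
open Pool.Agent.Helper259.AbsHt
open Pool.Agent.H58P (Qb ht qb_isIntegral)

/-- the bound `k ^ (k / 2)` -/
noncomputable def had (k : ℕ) : ℝ := Real.sqrt ((k : ℝ) ^ k)

lemma had_nonneg (k : ℕ) : 0 ≤ had k := Real.sqrt_nonneg _

lemma had_pos (k : ℕ) : 0 < had k := by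
  apply Real.sqrt_pos.mpr
  rcases Nat.eq_zero_or_pos k with rfl | h
  · simp
  · have : (0 : ℝ) < k := by exact_mod_cast h
    positivity

lemma had_sq (k : ℕ) : had k ^ 2 = (k : ℝ) ^ k := Real.sq_sqrt (by positivity)

/-- Hadamard's inequality for matrices with entries in the unit disc -/
theorem hadamard {ι : Type*} [Fintype ι] [DecidableEq ι] (A : Matrix ι ι ℂ)
    (hA : ∀ i j, ‖A i j‖ ≤ 1) : ‖A.det‖ ≤ had (Fintype.card ι) := by
  rcases isEmpty_or_nonempty ι with he | hne
  · rw [Matrix.det_isEmpty, Fintype.card_eq_zero]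
    simp [had]
  set n := Fintype.card ι with hn
  have hn0 : 0 < n := Fintype.card_pos
  have hnR : (0 : ℝ) < n := by exact_mod_cast hn0
  have hps : (A * A.conjTranspose).PosSemidef := Matrix.posSemidef_self_mul_conjTranspose A
  set hH := hps.isHermitian with hHdef
  have hdet : (A * A.conjTranspose).det = ∏ i, (hH.eigenvalues i : ℂ) :=
    hH.det_eq_prod_eigenvalues
  have htr : (A * A.conjTranspose).trace = ∑ i, (hH.eigenvalues i : ℂ) :=
    hH.trace_eq_sum_eigenvalues
  have hdet2 : (A * A.conjTranspose).det = ((‖A.det‖ ^ 2 : ℝ) : ℂ) := by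
    rw [Matrix.det_mul, Matrix.det_conjTranspose]
    show A.det * (starRingEnd ℂ) A.det = _
    rw [Complex.mul_conj, Complex.normSq_eq_norm_sq]
  have htr2 : (A * A.conjTranspose).trace = ((∑ i, ∑ j, ‖A i j‖ ^ 2 : ℝ) : ℂ) := by
    rw [Matrix.trace]
    push_cast
    refine Finset.sum_congr rfl fun i _ => ?_
    rw [Matrix.diag_apply, Matrix.mul_apply]
    refine Finset.sum_congr rfl fun j _ => ?_
    rw [Matrix.conjTranspose_apply]
    show A i j * (starRingEnd ℂ) (A i j) = _
    rw [Complex.mul_conj, Complex.normSq_eq_norm_sq]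
    push_cast
    rfl
  have h1 : ‖A.det‖ ^ 2 = ∏ i, hH.eigenvalues i := by
    have := hdet2.symm.trans hdet
    exact_mod_cast this
  have h2 : ∑ i, hH.eigenvalues i ≤ (n : ℝ) * n := by
    have h3 : (∑ i, ∑ j, ‖A i j‖ ^ 2 : ℝ) = ∑ i, hH.eigenvalues i := by
      have := htr2.symm.trans htr
      exact_mod_cast this
    rw [← h3]
    calc (∑ i, ∑ j, ‖A i j‖ ^ 2 : ℝ) ≤ ∑ i : ι, ∑ j : ι, (1 : ℝ) := by
          apply Finset.sum_le_sum
          intro i _
          apply Finset.sum_le_sum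
          intro j _
          exact pow_le_one₀ (norm_nonneg _) (hA i j)
      _ = (n : ℝ) * n := by simp [hn]
  have hev : ∀ i, 0 ≤ hH.eigenvalues i := hps.eigenvalues_nonneg
  have h4 := Real.geom_mean_le_arith_mean_weighted Finset.univ (fun _ : ι => (1 / n : ℝ))
    (fun i => hH.eigenvalues i) (fun _ _ => by positivity) (by simp [hn]) (fun i _ => hev i)
  have h5 : ∑ i, (1 / n : ℝ) * hH.eigenvalues i ≤ n := by
    rw [← Finset.mul_sum]
    calc (1 / n : ℝ) * ∑ i, hH.eigenvalues i ≤ (1 / n : ℝ) * (n * n) :=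
          mul_le_mul_of_nonneg_left h2 (by positivity)
      _ = n := by field_simp
  have h6 : ‖A.det‖ ^ 2 ≤ (n : ℝ) ^ n := by
    rw [h1]
    have h7 : (∏ i, hH.eigenvalues i ^ (1 / n : ℝ)) ^ n = ∏ i, hH.eigenvalues i := by
      rw [← Finset.prod_pow]
      refine Finset.prod_congr rfl fun i _ => ?_
      rw [← Real.rpow_natCast, ← Real.rpow_mul (hev i), one_div, inv_mul_cancel₀ hnR.ne',
        Real.rpow_one]
    rw [← h7]
    apply pow_le_pow_left₀ _ (h4.trans h5)
    exact Finset.prod_nonneg fun i _ => Real.rpow_nonneg (hev i) _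
  rw [had]
  exact Real.le_sqrt_of_sq_le h6

/-- the archimedean bound for a determinant -/
lemma norm_det_le' {ι : Type*} [Fintype ι] [DecidableEq ι] (x : ι → ℂ) (e : ι → ℕ) (q D : ℕ)
    (he : ∀ i, e i ≤ D) :
    ‖(Matrix.of fun j i => x j ^ (q * e i)).det‖ ≤
      had (Fintype.card ι) * ∏ j, max 1 ‖x j‖ ^ (q * D) := by
  classical
  set m : ι → ℝ := fun j => max 1 ‖x j‖ ^ (q * D) with hm
  have hm0 : ∀ j, 0 < m j := fun j => by
    rw [hm]
    positivity
  have h1 : (Matrix.of fun j i => x j ^ (q * e i)) =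
      Matrix.of fun j i => (m j : ℂ) * (Matrix.of fun j i => x j ^ (q * e i) / (m j : ℂ)) j i := by
    ext j i
    have : (m j : ℂ) ≠ 0 := by exact_mod_cast (hm0 j).ne'
    simp only [Matrix.of_apply]
    field_simp
  rw [h1, Matrix.det_mul_column, norm_mul, norm_prod, mul_comm]
  apply mul_le_mul
  · apply hadamard
    intro j i
    rw [Matrix.of_apply, norm_div, norm_pow, Complex.norm_real, Real.norm_of_nonneg (hm0 j).le,
      div_le_one (hm0 j)]
    exact (pow_le_pow_left₀ (norm_nonneg _) (le_max_right 1 _) _).trans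
      (pow_le_pow_right₀ (le_max_left _ _) (Nat.mul_le_mul_left q (he i)))
  · apply le_of_eq
    refine Finset.prod_congr rfl fun j _ => ?_
    rw [Complex.norm_real, Real.norm_of_nonneg (hm0 j).le]
  · positivity
  · exact had_nonneg _

/-- a lower bound for the height of a vector from local conditions -/
theorem height_ge' {ι : Type*} [Finite ι] [Nonempty ι] (x : ι → Qb) (R : ℝ) (hR : 0 < R)
    (hV : ∀ V : ValuationSubring Qb, ∃ i, 1 ≤ V.valuation (x i))
    (hφ : ∀ φ : Qb →+* ℂ, ∃ i, R ≤ ‖φ (x i)‖) : Real.log R ≤ absLogHeight x := by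
  obtain ⟨L, hL, hmem⟩ := exists_nf (Set.range x) (Set.finite_range x)
  obtain ⟨y, rfl⟩ := lift_vec L x fun i => hmem _ ⟨i, rfl⟩
  rw [val_eq, le_div_iff₀ (finrank_pos' L), logHeight_eq_log_mulHeight]
  have hy : y ≠ 0 := by
    rintro rfl
    obtain ⟨V⟩ : Nonempty (ValuationSubring Qb) := inferInstance
    obtain ⟨i, hi⟩ := hV V
    simp at hi
  have hbdd : ∀ v : L → ℝ, BddAbove (Set.range fun i => v (y i)) := fun v =>
    (Set.finite_range _).bddAbove
  have h1 : R ^ finrank ℚ L ≤ ∏ v : InfinitePlace L, (⨆ i, v (y i)) ^ v.mult := by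
    rw [← InfinitePlace.sum_mult_eq (K := L), ← Finset.prod_pow_eq_pow_sum]
    apply Finset.prod_le_prod
    · intro v _
      positivity
    · intro v _
      apply pow_le_pow_left₀ hR.le
      -- extend the embedding
      let _ : Algebra L ℂ := v.embedding.toAlgebra
      have halg : Algebra.IsAlgebraic L Qb := ⟨fun z =>
        ((qb_isIntegral z).tower_top (A := L)).isAlgebraic⟩
      let ψ : Qb →ₐ[L] ℂ := IsAlgClosed.lift
      obtain ⟨i, hi⟩ := hφ (ψ : Qb →+* ℂ)
      have h2 : v (y i) = ‖(ψ : Qb →+* ℂ) (y i : Qb)‖ := by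
        have h3 : (ψ : Qb →+* ℂ) (y i : Qb) = v.embedding (y i) := ψ.commutes (y i)
        rw [h3, InfinitePlace.norm_embedding_eq]
      rw [← h2] at hi
      exact hi.trans (le_ciSup (hbdd v) i)
  have h2 : (1 : ℝ) ≤ ∏ᶠ v : FinitePlace L, ⨆ i, v (y i) := by
    apply one_le_finprod
    intro v
    obtain ⟨V, hVv⟩ := Pool.Agent.H58B.exists_valuationSubring L v
    obtain ⟨i, hi⟩ := hV V
    have h3 : 1 ≤ v (y i) := by
      by_contra hcon
      exact absurd (hVv (y i) (not_le.mp hcon)) (not_lt.mpr hi)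
    exact h3.trans (le_ciSup (hbdd v) i)
  rw [NumberField.mulHeight_eq hy, mul_comm (Real.log R), ← Real.log_pow]
  apply Real.log_le_log (by positivity)
  have h3 : (0 : ℝ) < R ^ finrank ℚ L := by positivity
  calc R ^ finrank ℚ L = R ^ finrank ℚ L * 1 := (mul_one _).symm
    _ ≤ _ := mul_le_mul h1 h2 zero_le_one (h3.le.trans h1)

end Pool.Agent.W5h73.SP
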