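import Mathlib
import Pool.Agent.W5h73.SP.Core
import Pool.Agent.W5h73.SP.Hada

set_option autoImplicit false

/-!
# A determinant of `q`-th powers modulo `N`
-/

namespace Pool.Agent.W5h73.SP

open NumberField Height Module
open Pool.Agent.Helper259.AbsHt
open Pool.Agent.H58P (Qb ht qb_isIntegral)

/-- the difference of `n`-th powers -/
lemma val_pow_sub_pow {R Γ : Type*} [CommRing R] [LinearOrderedCommGroupWithZero Γ]
    (v : Valuation R Γ) (n : ℕ) (A B : R) (g ρ : Γ) (hA : v A ≤ g) (hB : v B ≤ g)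
    (h : v (A - B) ≤ ρ * g) : v (A ^ n - B ^ n) ≤ ρ * g ^ n := by
  rcases Nat.eq_zero_or_pos n with rfl | hn
  · simp
  rw [← (Commute.all A B).mul_geom_sum₂, map_mul]
  obtain ⟨m, rfl⟩ := Nat.exists_eq_succ_of_ne_zero hn.ne'
  have h1 : v (∑ i ∈ Finset.range m.succ, A ^ i * B ^ (m.succ - 1 - i)) ≤ g ^ m := by
    apply v.map_sum_le
    intro i hi
    rw [Finset.mem_range] at hi
    rw [map_mul, map_pow, map_pow]
    calc v A ^ i * v B ^ (m.succ - 1 - i) ≤ g ^ i * g ^ (m.succ - 1 - i) :=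
          mul_le_mul' (pow_le_pow_left₀ zero_le hA _) (pow_le_pow_left₀ zero_le hB _)
      _ = g ^ m := by rw [← pow_add]; congr 1; omega
  calc v (A - B) * v (∑ i ∈ Finset.range m.succ, A ^ i * B ^ (m.succ - 1 - i))
      ≤ (ρ * g) * g ^ m := mul_le_mul' h h1
    _ = ρ * g ^ m.succ := by rw [mul_assoc, ← pow_succ']

/-- the iterated Frobenius congruence for a valuation -/
lemma val_sum_pow_q {R Γ : Type*} [CommRing R] [LinearOrderedCommGroupWithZero Γ]
    (v : Valuation R Γ) (hnat : ∀ n : ℕ, v (n : R) ≤ 1) {p : ℕ} (hp : p.Prime)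
    {ι : Type*} (s : Finset ι) (y : ι → R) (g : Γ) (hy : ∀ i ∈ s, v (y i) ≤ g) (t : ℕ) :
    v (∑ i ∈ s, y i ^ p ^ t - (∑ i ∈ s, y i) ^ p ^ t) ≤ v (p : R) * g ^ p ^ t := by
  induction t with
  | zero => simp
  | succ t ih =>
    have hyt : ∀ i ∈ s, v (y i ^ p ^ t) ≤ g ^ p ^ t := by
      intro i hi
      rw [map_pow]
      exact pow_le_pow_left₀ zero_le (hy i hi) _
    have h1 := val_sum_pow v hnat hp s (fun i => y i ^ p ^ t) (g ^ p ^ t) hyt
    have hA : v (∑ i ∈ s, y i ^ p ^ t) ≤ g ^ p ^ t := v.map_sum_le hyt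
    have hB : v ((∑ i ∈ s, y i) ^ p ^ t) ≤ g ^ p ^ t := by
      rw [map_pow]
      exact pow_le_pow_left₀ zero_le (v.map_sum_le hy) _
    have h2 := val_pow_sub_pow v p _ _ _ _ hA hB ih
    have e : ∑ i ∈ s, y i ^ p ^ (t + 1) - (∑ i ∈ s, y i) ^ p ^ (t + 1) =
        (∑ i ∈ s, (y i ^ p ^ t) ^ p - (∑ i ∈ s, y i ^ p ^ t) ^ p) +
        ((∑ i ∈ s, y i ^ p ^ t) ^ p - ((∑ i ∈ s, y i) ^ p ^ t) ^ p) := by
      have : ∀ z : R, z ^ p ^ (t + 1) = (z ^ p ^ t) ^ p := fun z => by rw [pow_succ, pow_mul]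
      simp only [this]
      ring
    have e2 : (g ^ p ^ t) ^ p = g ^ p ^ (t + 1) := by rw [pow_succ, pow_mul]
    rw [e2] at h1 h2
    rw [e]
    exact (v.map_add _ _).trans (max_le h1 h2)

/-- admissible exponents: `q = 1`, or `N` is a prime number and `q` is a power of `N` -/
def Adm (N q : ℕ) : Prop := q = 1 ∨ (N.Prime ∧ ∃ t : ℕ, q = N ^ t)

lemma Adm.pos {N q : ℕ} (h : Adm N q) : 0 < q := by
  rcases h with rfl | ⟨hp, t, rfl⟩
  · exact one_pos
  · exact pow_pos hp.pos t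

lemma val_sum_pow_adm {R Γ : Type*} [CommRing R] [LinearOrderedCommGroupWithZero Γ]
    (v : Valuation R Γ) (hnat : ∀ n : ℕ, v (n : R) ≤ 1) {N q : ℕ} (hq : Adm N q)
    {ι : Type*} (s : Finset ι) (y : ι → R) (g : Γ) (hy : ∀ i ∈ s, v (y i) ≤ g) :
    v (∑ i ∈ s, y i ^ q - (∑ i ∈ s, y i) ^ q) ≤ v (N : R) * g ^ q := by
  rcases hq with rfl | ⟨hp, t, rfl⟩
  · simp
  · exact val_sum_pow_q v hnat hp s y g hy t

/-- the bound for a determinant with respect to a valuation -/
lemma val_det_le_q {K Γ : Type*} [Field K] [LinearOrderedCommGroupWithZero Γ]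
    (v : Valuation K Γ) (hnat : ∀ n : ℕ, v (n : K) ≤ 1) {p q : ℕ} (hadm : Adm p q)
    {ι : Type*} [Fintype ι] [DecidableEq ι] (e : ι → ℕ) (D : ℕ) (he : ∀ i, e i ≤ D)
    (x a : ι → K) (i0 : ι) (ha0 : a i0 ≠ 0) (hi0 : ∀ i, v (a i) ≤ v (a i0))
    (hax : ∀ j, v (∑ i, a i * x j ^ e i) ^ q ≤
      v (p : K) * (v (a i0) * max 1 (v (x j)) ^ D) ^ q) :
    v (Matrix.of fun j i => x j ^ (q * e i)).det ≤
      v (p : K) * ∏ j, max 1 (v (x j)) ^ (q * D) := by
  classical
  have hva0 : v (a i0) ≠ 0 := (Valuation.ne_zero_iff v).mpr ha0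
  set b : ι → K := fun i => a i / a i0 with hb
  have hb0 : b i0 = 1 := div_self ha0
  have hvb : ∀ i, v (b i) ≤ 1 := by
    intro i
    rw [hb]
    show v (a i / a i0) ≤ 1
    rw [map_div₀]
    exact div_le_one_of_le₀ (hi0 i) zero_le
  have hbx : ∀ j, v (∑ i, b i * x j ^ e i) ^ q ≤ v (p : K) * (max 1 (v (x j)) ^ D) ^ q := by
    intro j
    have h1 : ∑ i, b i * x j ^ e i = (∑ i, a i * x j ^ e i) / a i0 := by
      rw [Finset.sum_div]
      refine Finset.sum_congr rfl fun i _ => ?_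
      rw [hb]
      ring
    rw [h1, map_div₀, div_pow, div_le_iff₀ (zero_lt_iff.mpr (pow_ne_zero _ hva0))]
    refine (hax j).trans (le_of_eq ?_)
    rw [mul_pow, mul_comm (v (a i0) ^ q), ← mul_assoc]
  set M : Matrix ι ι K := Matrix.of fun j i => x j ^ (q * e i) with hM
  have hcol := Matrix.det_updateCol_sum M i0 fun i => b i ^ q
  simp only [hb0, one_pow, one_smul] at hcol
  rw [← hcol]
  set m : ι → Γ := fun j => max 1 (v (x j)) with hm
  have hm1 : ∀ j, 1 ≤ m j := fun j => le_max_left _ _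
  have hmx : ∀ j, v (x j) ≤ m j := fun j => le_max_right _ _
  have hE : ∀ j, v (∑ i, b i ^ q * M j i) ≤ v (p : K) * m j ^ (q * D) := by
    intro j
    have h1 : ∑ i, b i ^ q * M j i =
        (∑ i, (b i * x j ^ e i) ^ q - (∑ i, b i * x j ^ e i) ^ q) +
          (∑ i, b i * x j ^ e i) ^ q := by
      rw [sub_add_cancel]
      refine Finset.sum_congr rfl fun i _ => ?_
      rw [hM, Matrix.of_apply, mul_pow, ← pow_mul, mul_comm q]
    rw [h1, mul_comm q D, pow_mul]
    refine (v.map_add _ _).trans (max_le ?_ ?_)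
    · apply val_sum_pow_adm v hnat hadm
      intro i _
      rw [map_mul, map_pow]
      calc v (b i) * v (x j) ^ e i ≤ 1 * m j ^ D := by
            apply mul_le_mul' (hvb i)
            exact (pow_le_pow_left₀ zero_le (hmx j) _).trans (pow_le_pow_right₀ (hm1 j) (he i))
        _ = _ := one_mul _
    · rw [map_pow]
      exact hbx j
  rw [Matrix.det_apply']
  apply v.map_sum_le
  intro σ _
  have hsign : v ((Equiv.Perm.sign σ : ℤ) : K) = 1 := by
    rcases Int.units_eq_one_or (Equiv.Perm.sign σ) with h | h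
    · rw [h]; simp
    · rw [h]; simp [Valuation.map_neg]
  rw [map_mul, hsign, one_mul, map_prod]
  have hsplit : ∀ i, v (M.updateCol i0 (fun k => ∑ i, b i ^ q • M k i) (σ i) i) ≤
      (if i = i0 then v (p : K) else 1) * m (σ i) ^ (q * D) := by
    intro i
    by_cases h : i = i0
    · subst h
      rw [Matrix.updateCol_self, if_pos rfl]
      simpa [smul_eq_mul] using hE (σ i)
    · rw [Matrix.updateCol_ne h, if_neg h, one_mul, hM, Matrix.of_apply, map_pow]
      exact (pow_le_pow_left₀ zero_le (hmx _) _).trans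
        (pow_le_pow_right₀ (hm1 _) (Nat.mul_le_mul_left q (he i)))
  calc ∏ i, v (M.updateCol i0 (fun k => ∑ i, b i ^ q • M k i) (σ i) i)
      ≤ ∏ i, ((if i = i0 then v (p : K) else 1) * m (σ i) ^ (q * D)) :=
        Finset.prod_le_prod (fun _ _ => zero_le) fun i _ => hsplit i
    _ = v (p : K) * ∏ j, m j ^ (q * D) := by
        rw [Finset.prod_mul_distrib, Finset.prod_ite_eq' Finset.univ i0, if_pos (Finset.mem_univ _)]
        congr 1
        exact Equiv.prod_comp σ fun j => m j ^ (q * D)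

/-- **the height bound from a nonzero determinant** -/
theorem core_q {p q : ℕ} (hadm : Adm p q) {ι : Type*} [Fintype ι] [DecidableEq ι]
    (R : ℝ) (hR : 0 < R) (hcard : R * had (Fintype.card ι) ≤ p) (e : ι → ℕ) (D : ℕ)
    (he : ∀ i, e i ≤ D) (x : ι → Qb)
    (hV : ∀ V : ValuationSubring Qb, V.valuation (p : Qb) < 1 → ∃ (a : ι → Qb) (i0 : ι),
      a i0 ≠ 0 ∧ (∀ i, V.valuation (a i) ≤ V.valuation (a i0)) ∧
      ∀ j, V.valuation (∑ i, a i * x j ^ e i) ^ q ≤
        V.valuation (p : Qb) * (V.valuation (a i0) * max 1 (V.valuation (x j)) ^ D) ^ q)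
    (hΔ : (Matrix.of fun j i => x j ^ (q * e i)).det ≠ 0) :
    Real.log R ≤ (q * D : ℝ) * ∑ j, ht (x j) := by
  set Δ : Qb := (Matrix.of fun j i => x j ^ (q * e i)).det with hΔdef
  have hppos : 0 < p := by
    have h1 : (0 : ℝ) < p := lt_of_lt_of_le (mul_pos hR (had_pos _)) hcard
    exact_mod_cast h1
  have hp0 : (p : Qb) ≠ 0 := by exact_mod_cast hppos.ne'
  set c : Qb := (p : Qb) / Δ with hc
  have hc0 : c ≠ 0 := div_ne_zero hp0 hΔ
  set w : (ι → Fin 2) → Qb := fun I => ∏ j, (![1, x j ^ (q * D)] : Fin 2 → Qb) (I j) with hw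
  have hsm : absLogHeight (c • w) = absLogHeight w := absLogHeight_smul w hc0
  have h1 : absLogHeight w = (q * D : ℝ) * ∑ j, ht (x j) := by
    rw [hw, absLogHeight_prod, Finset.mul_sum]
    refine Finset.sum_congr rfl fun j _ => ?_
    rw [Pool.Agent.H58B.ht_pow]
    push_cast
    ring
  rw [← h1, ← hsm]
  apply height_ge' _ R hR
  · intro V
    have hnat : ∀ n : ℕ, V.valuation (n : Qb) ≤ 1 := by
      intro n
      rw [ValuationSubring.valuation_le_one_iff]
      exact natCast_mem V n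
    have hb : V.valuation Δ ≤ V.valuation (p : Qb) *
        ∏ j, max 1 (V.valuation (x j)) ^ (q * D) := by
      rcases lt_or_eq_of_le (hnat p) with h | h
      · obtain ⟨a, i0, ha0, hi0, hax⟩ := hV V h
        exact val_det_le_q V.valuation hnat hadm e D he x a i0 ha0 hi0 hax
      · rw [h, one_mul]
        exact val_det_triv V.valuation e D he x
    refine ⟨fun j => if 1 < V.valuation (x j) then 1 else 0, ?_⟩
    rw [Pi.smul_apply, smul_eq_mul, map_mul, hc, map_div₀, hw]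
    have h2 : V.valuation (∏ j, (![1, x j ^ (q * D)] : Fin 2 → Qb)
        (if 1 < V.valuation (x j) then 1 else 0)) =
        ∏ j, max 1 (V.valuation (x j)) ^ (q * D) := by
      rw [map_prod]
      refine Finset.prod_congr rfl fun j _ => ?_
      by_cases h : 1 < V.valuation (x j)
      · rw [if_pos h, max_eq_right h.le]
        simp
      · rw [if_neg h, max_eq_left (not_lt.mp h)]
        simp
    show 1 ≤ V.valuation (p : Qb) / V.valuation Δ * V.valuation (∏ j,
      (![1, x j ^ (q * D)] : Fin 2 → Qb) (if 1 < V.valuation (x j) then 1 else 0))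
    rw [h2]
    have hΔv : V.valuation Δ ≠ 0 := (Valuation.ne_zero_iff _).mpr hΔ
    rw [div_mul_eq_mul_div, one_le_div₀ (zero_lt_iff.mpr hΔv)]
    exact hb
  · intro φ
    have hb := norm_det_le' (fun j => φ (x j)) e q D he
    have h3 : (Matrix.of fun j i => φ (x j) ^ (q * e i)).det = φ Δ := by
      rw [hΔdef, RingHom.map_det]
      congr 1
      ext j i
      simp
    rw [h3] at hb
    refine ⟨fun j => if 1 < ‖φ (x j)‖ then 1 else 0, ?_⟩
    rw [Pi.smul_apply, smul_eq_mul, map_mul, norm_mul, hc, map_div₀, norm_div, hw]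
    have h2 : ‖φ (∏ j, (![1, x j ^ (q * D)] : Fin 2 → Qb)
        (if 1 < ‖φ (x j)‖ then 1 else 0))‖ = ∏ j, max 1 ‖φ (x j)‖ ^ (q * D) := by
      rw [map_prod, norm_prod]
      refine Finset.prod_congr rfl fun j _ => ?_
      by_cases h : 1 < ‖φ (x j)‖
      · rw [if_pos h, max_eq_right h.le]
        simp
      · rw [if_neg h, max_eq_left (not_lt.mp h)]
        simp
    show R ≤ ‖φ (p : Qb)‖ / ‖φ Δ‖ * ‖φ (∏ j,
      (![1, x j ^ (q * D)] : Fin 2 → Qb) (if 1 < ‖φ (x j)‖ then 1 else 0))‖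
    rw [h2, map_natCast, Complex.norm_natCast]
    have hΔn : 0 < ‖φ Δ‖ := norm_pos_iff.mpr fun h => hΔ ((map_eq_zero φ).mp h)
    rw [div_mul_eq_mul_div, le_div_iff₀ hΔn]
    have hP : (0 : ℝ) ≤ ∏ j, max 1 ‖φ (x j)‖ ^ (q * D) := Finset.prod_nonneg fun j _ => by positivity
    calc R * ‖φ Δ‖ ≤ R * (had (Fintype.card ι) * ∏ j, max 1 ‖φ (x j)‖ ^ (q * D)) :=
          mul_le_mul_of_nonneg_left hb hR.le
      _ = (R * had (Fintype.card ι)) * ∏ j, max 1 ‖φ (x j)‖ ^ (q * D) := by ring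
      _ ≤ _ := mul_le_mul_of_nonneg_right hcard hP

end Pool.Agent.W5h73.SP
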