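import Mathlib

set_option autoImplicit false

/-!
# Columns of a matrix: a linear relation or a nonzero maximal minor
-/

namespace Pool.Agent.W5h73.SP

lemma rank_or {K κ ι : Type*} [Field K] [Fintype ι] [DecidableEq ι] (M : κ → ι → K) :
    (∃ b : ι → K, b ≠ 0 ∧ ∀ j, ∑ i, b i * M j i = 0) ∨
      ∃ x : ι → κ, (Matrix.of fun j i => M (x j) i).det ≠ 0 := by
  by_cases hspan : Submodule.span K (Set.range M) = ⊤
  · right
    obtain ⟨b, hbsub, hbspan, hblin⟩ := exists_linearIndependent K (Set.range M)
    have hb1 : Fintype.card ι = Nat.card b := by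
      let B : Module.Basis b K (ι → K) := Module.Basis.mk hblin (by
        rw [Subtype.range_coe, hbspan, hspan])
      have h1 := Module.finrank_eq_nat_card_basis B
      rw [Module.finrank_pi] at h1
      exact h1
    have hfin : Finite b := hblin.finite
    let _ : Fintype b := Fintype.ofFinite b
    have hb2 : Fintype.card ι = Fintype.card b := by rw [hb1, Nat.card_eq_fintype_card]
    let e : ι ≃ b := Fintype.equivOfCardEq hb2
    have hx : ∀ j : ι, ∃ k : κ, M k = (e j : ι → K) := fun j => hbsub (e j).2
    choose x hx using hx
    refine ⟨x, ?_⟩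
    have hli : LinearIndependent K (Matrix.of fun j i => M (x j) i).row := by
      have h2 : (Matrix.of fun j i => M (x j) i).row = (Subtype.val : b → (ι → K)) ∘ e := by
        funext j
        exact hx j
      rw [h2]
      exact hblin.comp e e.injective
    rw [Matrix.linearIndependent_rows_iff_isUnit, Matrix.isUnit_iff_isUnit_det] at hli
    exact hli.ne_zero
  · left
    obtain ⟨f, hf, hker⟩ := Submodule.exists_le_ker_of_lt_top _ (lt_top_iff_ne_top.mpr hspan)
    have hval : ∀ v : ι → K, f v = ∑ i, f (Pi.single i 1) * v i := by
      intro v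
      rw [LinearMap.pi_apply_eq_sum_univ f v]
      refine Finset.sum_congr rfl fun i _ => ?_
      rw [smul_eq_mul, mul_comm]
      congr 2
      funext j
      simp [Pi.single_apply, eq_comm]
    refine ⟨fun i => f (Pi.single i 1), ?_, fun j => ?_⟩
    · intro h
      apply hf
      ext v
      simp only [LinearMap.coe_comp, LinearMap.coe_single, Function.comp_apply, LinearMap.zero_apply]
      exact congrFun h v
    · rw [← hval]
      exact hker (Submodule.subset_span ⟨j, rfl⟩)

end Pool.Agent.W5h73.SP
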