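import Mathlib

set_option autoImplicit false

/-!
# Additive functions on sparse sets of exponents

If a finite set `S` of natural numbers contains `0`, has greatest common divisor `1` and a maximum
which is large compared with its size, then there is a function from `S` to `ℤ / p` which respects
all relations between sums of `p` elements of `S` and is not multiplication by a constant.
-/

namespace Pool.Agent.W5h73.SP

/-- `φ` respects the relations between sums of `p` elements of `S` -/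
def Additive (p : ℕ) (S : Finset ℕ) {A : Type*} [AddCommMonoid A] (φ : ℕ → A) : Prop :=
  φ 0 = 0 ∧ ∀ u w : Fin p → ℕ, (∀ i, u i ∈ S) → (∀ i, w i ∈ S) → ∑ i, u i = ∑ i, w i →
    ∑ i, φ (u i) = ∑ i, φ (w i)

/-- simultaneous approximation -/
lemma dirichlet (N : ℕ) (hN : 0 < N) (S : Finset ℕ) (D : ℕ) (hD0 : 0 < D) (h0 : 0 ∈ S) (hD : D ∈ S)
    (hbig : N ^ (S.card - 2) < D) :
    ∃ (φ : ℕ → ℤ) (q : ℕ), 0 < q ∧ q < D ∧ φ 0 = 0 ∧ φ D = q ∧
      ∀ s ∈ S, |(D : ℤ) * φ s - q * s| * N < D := by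
  classical
  set T : Finset ℕ := (S.erase 0).erase D with hT
  have hDe : D ∈ S.erase 0 := Finset.mem_erase.mpr ⟨hD0.ne', hD⟩
  have hTc : T.card = S.card - 2 := by
    rw [hT, Finset.card_erase_of_mem hDe, Finset.card_erase_of_mem h0]
    omega
  have hbox : ∀ r : ℕ, r < D → N * r / D < N := by
    intro r hr
    rw [Nat.div_lt_iff_lt_mul hD0]
    exact Nat.mul_lt_mul_of_pos_left hr hN
  set F : Fin (N ^ (S.card - 2) + 1) → (T → Fin N) := fun q s =>
    ⟨N * ((q * s) % D) / D, hbox _ (Nat.mod_lt _ hD0)⟩ with hF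
  have hcard : Fintype.card (T → Fin N) < Fintype.card (Fin (N ^ (S.card - 2) + 1)) := by
    rw [Fintype.card_fun, Fintype.card_fin, Fintype.card_fin, Fintype.card_coe, hTc]
    omega
  obtain ⟨q1, q2, hne, heq⟩ := Fintype.exists_ne_map_eq_of_card_lt F hcard
  wlog hlt : q1 < q2 generalizing q1 q2
  · exact this q2 q1 hne.symm heq.symm (lt_of_le_of_ne (not_lt.mp hlt) hne.symm)
  have hlt' : (q1 : ℕ) < q2 := hlt
  have hq2 : (q2 : ℕ) ≤ N ^ (S.card - 2) := Nat.lt_succ_iff.mp q2.2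
  refine ⟨fun s => ((q2 * s / D : ℕ) : ℤ) - ((q1 * s / D : ℕ) : ℤ), q2 - q1, by omega, by omega,
    by simp, ?_, ?_⟩
  · simp only [Nat.mul_div_cancel _ hD0]
    omega
  · intro s hs
    have e1 : D * ((q1 : ℕ) * s / D) + ((q1 : ℕ) * s) % D = q1 * s := Nat.div_add_mod _ _
    have e2 : D * ((q2 : ℕ) * s / D) + ((q2 : ℕ) * s) % D = q2 * s := Nat.div_add_mod _ _
    set r1 := ((q1 : ℕ) * s) % D with hr1
    set r2 := ((q2 : ℕ) * s) % D with hr2
    have hr1D : r1 < D := Nat.mod_lt _ hD0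
    have hr2D : r2 < D := Nat.mod_lt _ hD0
    have e3 : (D : ℤ) * (((q2 * s / D : ℕ) : ℤ) - ((q1 * s / D : ℕ) : ℤ)) - ((q2 - q1 : ℕ) : ℤ) * s
        = (r1 : ℤ) - r2 := by
      have e1' : (D : ℤ) * ((q1 : ℕ) * s / D : ℕ) + r1 = (q1 : ℕ) * s := by exact_mod_cast e1
      have e2' : (D : ℤ) * ((q2 : ℕ) * s / D : ℕ) + r2 = (q2 : ℕ) * s := by exact_mod_cast e2
      rw [Nat.cast_sub hlt'.le]
      linear_combination e2' - e1'
    show |(D : ℤ) * (((q2 * s / D : ℕ) : ℤ) - ((q1 * s / D : ℕ) : ℤ)) - ((q2 - q1 : ℕ) : ℤ) * s| * N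
      < D
    rw [e3]
    have hbx : N * r1 / D = N * r2 / D := by
      by_cases h : s = 0
      · rw [hr1, hr2, h]; simp
      by_cases h' : s = D
      · rw [hr1, hr2, h']; simp
      · have hsT : s ∈ T := Finset.mem_erase.mpr ⟨h', Finset.mem_erase.mpr ⟨h, hs⟩⟩
        have := congrFun heq ⟨s, hsT⟩
        exact congrArg Fin.val this
    set b := N * r1 / D with hb
    have b1 : D * b ≤ N * r1 := Nat.mul_div_le _ _
    have b2 : N * r1 < D * (b + 1) := Nat.lt_mul_div_succ _ hD0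
    have b3 : D * b ≤ N * r2 := by rw [hbx]; exact Nat.mul_div_le _ _
    have b4 : N * r2 < D * (b + 1) := by rw [hbx]; exact Nat.lt_mul_div_succ _ hD0
    have b1' : (D : ℤ) * b ≤ N * r1 := by exact_mod_cast b1
    have b2' : (N : ℤ) * r1 < D * (b + 1) := by exact_mod_cast b2
    have b3' : (D : ℤ) * b ≤ N * r2 := by exact_mod_cast b3
    have b4' : (N : ℤ) * r2 < D * (b + 1) := by exact_mod_cast b4
    have hNabs : |((r1 : ℤ) - r2)| * N = |((r1 : ℤ) - r2) * N| := by
      rw [abs_mul, abs_of_nonneg (by positivity : (0 : ℤ) ≤ N)]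
    rw [hNabs, abs_lt]
    constructor
    · nlinarith
    · nlinarith

/-- **an additive function which is not a multiplication** -/
theorem exists_additive {p : ℕ} (hp : p.Prime) (S : Finset ℕ) (D : ℕ) (hD0 : 0 < D) (h0 : 0 ∈ S)
    (hD : D ∈ S) (hgcd : ∀ n : ℕ, (∀ s ∈ S, n ∣ s) → n = 1)
    (hbig : (2 * p) ^ (S.card - 2) < D) :
    ∃ χ : ℕ → ZMod p, Additive p S χ ∧ ¬ ∃ t : ZMod p, ∀ s ∈ S, χ s = t * s := by
  have hp0 : 0 < p := hp.pos
  obtain ⟨φ, q, hq, hqD, hφ0, hφD, hφ⟩ := dirichlet (2 * p) (by omega) S D hD0 h0 hD hbig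
  have hadd : Additive p S φ := by
    refine ⟨hφ0, fun u w hu hw huw => ?_⟩
    have hb : ∀ u : Fin p → ℕ, (∀ i, u i ∈ S) →
        |(D : ℤ) * ∑ i, φ (u i) - q * (∑ i, u i : ℕ)| * (2 * p : ℕ) < p * D := by
      intro u hu
      have e1 : (D : ℤ) * ∑ i, φ (u i) - q * (∑ i, u i : ℕ) = ∑ i, (D * φ (u i) - q * u i) := by
        push_cast
        rw [Finset.sum_sub_distrib, Finset.mul_sum, Finset.mul_sum]
      rw [e1]
      calc |∑ i, ((D : ℤ) * φ (u i) - q * u i)| * (2 * p : ℕ)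
          ≤ (∑ i, |(D : ℤ) * φ (u i) - q * u i|) * (2 * p : ℕ) := by
            apply mul_le_mul_of_nonneg_right (Finset.abs_sum_le_sum_abs _ _) (by positivity)
        _ = ∑ i, |(D : ℤ) * φ (u i) - q * u i| * (2 * p : ℕ) := Finset.sum_mul _ _ _
        _ < ∑ _i : Fin p, (D : ℤ) := by
            apply Finset.sum_lt_sum_of_nonempty
            · exact ⟨⟨0, hp0⟩, Finset.mem_univ _⟩
            · intro i _
              exact hφ _ (hu i)
        _ = p * D := by simp
    have h1 := hb u hu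
    have h2 := hb w hw
    rw [← huw] at h2
    set A := ∑ i, φ (u i)
    set B := ∑ i, φ (w i)
    set C : ℤ := q * (∑ i, u i : ℕ)
    have h3 : |(D : ℤ) * (A - B)| * (2 * p : ℕ) < 2 * p * D := by
      have e : (D : ℤ) * (A - B) = (D * A - C) - (D * B - C) := by ring
      calc |(D : ℤ) * (A - B)| * (2 * p : ℕ)
          ≤ (|(D : ℤ) * A - C| + |(D : ℤ) * B - C|) * (2 * p : ℕ) := by
            apply mul_le_mul_of_nonneg_right _ (by positivity)
            rw [e]
            exact abs_sub _ _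
        _ < 2 * p * D := by linarith
    have h4 : |A - B| < 1 := by
      rw [abs_mul, abs_of_nonneg (by positivity : (0 : ℤ) ≤ D)] at h3
      push_cast at h3
      have hpos : (0 : ℤ) < 2 * p * D := by positivity
      by_contra hcon
      push Not at hcon
      nlinarith
    have h5 : A - B = 0 := Int.abs_lt_one_iff.mp h4
    omega
  by_contra hcon
  push Not at hcon
  -- every additive integral function is a multiplication modulo every power of `p`
  have hall : ∀ ψ : ℕ → ℤ, Additive p S ψ → ∃ t : ℤ, ∀ s ∈ S, (p : ℤ) ∣ ψ s - t * s := by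
    intro ψ hψ
    obtain ⟨t, ht⟩ := hcon (fun s => (ψ s : ZMod p)) (by
      refine ⟨by simp [hψ.1], fun u w hu hw huw => ?_⟩
      have := hψ.2 u w hu hw huw
      have h2 := congrArg (Int.cast : ℤ → ZMod p) this
      push_cast at h2
      exact h2)
    obtain ⟨t', rfl⟩ := ZMod.intCast_surjective t
    refine ⟨t', fun s hs => ?_⟩
    rw [← ZMod.intCast_zmod_eq_zero_iff_dvd (ψ s - t' * s) p]
    push_cast
    rw [ht s hs, sub_self]
  have hpow : ∀ n : ℕ, ∀ ψ : ℕ → ℤ, Additive p S ψ → ∃ t : ℤ, ∀ s ∈ S, (p : ℤ) ^ n ∣ ψ s - t * s := by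
    intro n
    induction n with
    | zero => exact fun ψ _ => ⟨0, fun s _ => by simp⟩
    | succ n ih =>
      intro ψ hψ
      obtain ⟨t, ht⟩ := hall ψ hψ
      classical
      have hpz : (p : ℤ) ≠ 0 := by exact_mod_cast hp.ne_zero
      set ψ' : ℕ → ℤ := fun s => (ψ s - t * s) / p with hψ'
      have hψs : ∀ s ∈ S, (p : ℤ) * ψ' s = ψ s - t * s := fun s hs => Int.mul_ediv_cancel' (ht s hs)
      obtain ⟨t', ht'⟩ := ih ψ' (by
        refine ⟨by simp [hψ', hψ.1], fun u w hu hw huw => ?_⟩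
        apply mul_left_cancel₀ hpz
        rw [Finset.mul_sum, Finset.mul_sum, Finset.sum_congr rfl fun i _ => hψs _ (hu i),
          Finset.sum_congr rfl fun i _ => hψs _ (hw i), Finset.sum_sub_distrib,
          Finset.sum_sub_distrib, hψ.2 u w hu hw huw, ← Finset.mul_sum, ← Finset.mul_sum,
          ← Nat.cast_sum, ← Nat.cast_sum, huw])
      refine ⟨t + p * t', fun s hs => ?_⟩
      obtain ⟨c, hc⟩ := ht' s hs
      refine ⟨c, ?_⟩
      have := hψs s hs
      rw [pow_succ]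
      linear_combination (p : ℤ) * hc - this
  have hprop : ∀ s ∈ S, φ s * D = q * s := by
    intro s hs
    by_contra hne
    have hne' : φ s * D - q * s ≠ 0 := sub_ne_zero.mpr hne
    obtain ⟨t, ht⟩ := hpow (φ s * D - q * s).natAbs φ hadd
    have hd : (p : ℤ) ^ (φ s * D - q * s).natAbs ∣ φ s * D - q * s := by
      obtain ⟨c1, hc1⟩ := ht s hs
      obtain ⟨c2, hc2⟩ := ht D hD
      rw [hφD] at hc2
      refine ⟨c1 * D - c2 * s, ?_⟩
      linear_combination (D : ℤ) * hc1 - (s : ℤ) * hc2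
    have h1 := Int.natAbs_dvd_natAbs.mpr hd
    rw [Int.natAbs_pow, Int.natAbs_natCast] at h1
    have h2 := Nat.le_of_dvd (Int.natAbs_pos.mpr hne') h1
    have h3 : (φ s * D - q * s).natAbs < p ^ (φ s * D - q * s).natAbs :=
      Nat.lt_pow_self hp.one_lt
    omega
  have hDq : ∀ s ∈ S, D ∣ q * s := by
    intro s hs
    have := hprop s hs
    have h1 : (D : ℤ) ∣ ((q * s : ℕ) : ℤ) := ⟨φ s, by push_cast; rw [← this]; ring⟩
    exact_mod_cast h1
  have hg : S.gcd id = 1 := hgcd _ fun s hs => Finset.gcd_dvd hs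
  have h1 : D ∣ S.gcd fun s => q * id s := Finset.dvd_gcd fun s hs => hDq s hs
  rw [Finset.gcd_mul_left, hg] at h1
  simp only [mul_one] at h1
  have h2 : D ∣ q := by simpa using h1
  exact absurd (Nat.le_of_dvd hq h2) (not_le.mpr hqD)

end Pool.Agent.W5h73.SP
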