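import Mathlib
import Pool.Agent.W5h73.SP.Freiman

set_option autoImplicit false

/-!
# Twisting the product of the polynomials `f (ζ ^ i X)`
-/

namespace Pool.Agent.W5h73.SP

open Polynomial

variable {E : Type*} [Field E] {p : ℕ}

/-- the additive character `x ↦ ζ ^ x` of `ℤ / p` -/
noncomputable def chr (ζ : E) (x : ZMod p) : E := ζ ^ x.val

lemma chr_add [NeZero p] {ζ : E} (hζ : IsPrimitiveRoot ζ p) (x y : ZMod p) :
    chr ζ (x + y) = chr ζ x * chr ζ y := by
  have h := AddChar.map_add_eq_mul (AddChar.zmodChar p hζ.pow_eq_one) x y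
  simp only [AddChar.zmodChar_apply] at h
  exact h

lemma chr_zero [NeZero p] (ζ : E) : chr ζ (0 : ZMod p) = 1 := by
  simp [chr, ZMod.val_zero]

lemma chr_natCast [NeZero p] {ζ : E} (hζ : IsPrimitiveRoot ζ p) (n : ℕ) :
    chr ζ (n : ZMod p) = ζ ^ n := by
  rw [chr, ZMod.val_natCast]
  exact (pow_eq_pow_mod n hζ.pow_eq_one).symm

lemma chr_eq_one [NeZero p] {ζ : E} (hζ : IsPrimitiveRoot ζ p) {x : ZMod p} (h : chr ζ x = 1) :
    x = 0 := by
  have h1 : p ∣ x.val := (hζ.pow_eq_one_iff_dvd _).mp h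
  have h2 : x.val < p := ZMod.val_lt x
  have h3 : x.val = 0 := Nat.eq_zero_of_dvd_of_lt h1 h2
  exact (ZMod.val_eq_zero x).mp h3

lemma chr_sum [NeZero p] {ζ : E} (hζ : IsPrimitiveRoot ζ p) {ι : Type*} (s : Finset ι)
    (x : ι → ZMod p) : chr ζ (∑ i ∈ s, x i) = ∏ i ∈ s, chr ζ (x i) := by
  classical
  induction s using Finset.induction with
  | empty => simp [chr_zero]
  | insert a s ha ih => rw [Finset.sum_insert ha, Finset.prod_insert ha, chr_add hζ, ih]

/-- the coefficients of a product of polynomials with exponents in `S` -/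
lemma coeff_prod (S : Finset ℕ) (g : Fin p → E[X]) (hg : ∀ i, (g i).support ⊆ S) (n : ℕ) :
    (∏ i, g i).coeff n = ∑ u ∈ Fintype.piFinset fun _ : Fin p => S,
      if ∑ i, u i = n then ∏ i, (g i).coeff (u i) else 0 := by
  classical
  have h1 : ∀ i, g i = ∑ s ∈ S, C ((g i).coeff s) * X ^ s := by
    intro i
    conv_lhs => rw [(g i).as_sum_support_C_mul_X_pow]
    apply Finset.sum_subset (hg i)
    intro s _ hs
    rw [notMem_support_iff.mp hs, C_0, zero_mul]
  have h2 : ∏ i, g i = ∏ i, ∑ s ∈ S, C ((g i).coeff s) * X ^ s :=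
    Finset.prod_congr rfl fun i _ => h1 i
  rw [h2, Finset.prod_univ_sum, finsetSum_coeff]
  refine Finset.sum_congr rfl fun u _ => ?_
  rw [Finset.prod_mul_distrib, Finset.prod_pow_eq_pow_sum, ← map_prod, coeff_C_mul_X_pow]
  by_cases h : ∑ i, u i = n
  · rw [if_pos h.symm, if_pos h]
  · rw [if_neg (fun h' => h h'.symm), if_neg h]

/-- the twist of a polynomial by a function on the exponents -/
noncomputable def twist (ζ : E) (χ : ℕ → ZMod p) (g : E[X]) : E[X] :=
  ∑ n ∈ g.support, C (g.coeff n * chr ζ (χ n)) * X ^ n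

lemma coeff_twist (ζ : E) (χ : ℕ → ZMod p) (g : E[X]) (n : ℕ) :
    (twist ζ χ g).coeff n = g.coeff n * chr ζ (χ n) := by
  classical
  rw [twist, finsetSum_coeff]
  simp only [coeff_C_mul_X_pow]
  rw [Finset.sum_ite_eq]
  by_cases h : n ∈ g.support
  · rw [if_pos h]
  · rw [if_neg h, notMem_support_iff.mp h, zero_mul]

lemma twist_prod [NeZero p] {ζ : E} (hζ : IsPrimitiveRoot ζ p) (S : Finset ℕ) (g : Fin p → E[X])
    (hg : ∀ i, (g i).support ⊆ S) (χ : ℕ → ZMod p) (hχ : Additive p S χ)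
    (hH : ∀ n : ℕ, (¬ ∃ s ∈ S, n = p * s) → (∏ i, g i).coeff n = 0) :
    ∏ i, twist ζ χ (g i) = ∏ i, g i := by
  classical
  have hg' : ∀ i, (twist ζ χ (g i)).support ⊆ S := by
    intro i n hn
    apply hg i
    rw [mem_support_iff] at hn ⊢
    intro h0
    exact hn (by rw [coeff_twist, h0, zero_mul])
  ext n
  rw [coeff_prod S _ hg']
  have hterm : ∀ u : Fin p → ℕ, ∏ i, (twist ζ χ (g i)).coeff (u i) =
      (∏ i, (g i).coeff (u i)) * chr ζ (∑ i, χ (u i)) := by
    intro u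
    rw [chr_sum hζ, ← Finset.prod_mul_distrib]
    exact Finset.prod_congr rfl fun i _ => coeff_twist _ _ _ _
  by_cases hex : ∃ w : Fin p → ℕ, (∀ i, w i ∈ S) ∧ ∑ i, w i = n
  · obtain ⟨w, hw, hwn⟩ := hex
    have h1 : (∑ u ∈ Fintype.piFinset fun _ : Fin p => S,
        if ∑ i, u i = n then ∏ i, (twist ζ χ (g i)).coeff (u i) else 0) =
        (∏ i, g i).coeff n * chr ζ (∑ i, χ (w i)) := by
      rw [coeff_prod S g hg, Finset.sum_mul]
      refine Finset.sum_congr rfl fun u hu => ?_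
      rw [Fintype.mem_piFinset] at hu
      by_cases h : ∑ i, u i = n
      · rw [if_pos h, if_pos h, hterm, hχ.2 u w hu hw (h.trans hwn.symm)]
      · rw [if_neg h, if_neg h, zero_mul]
    rw [h1]
    by_cases hn : ∃ s ∈ S, n = p * s
    · obtain ⟨s, hs, rfl⟩ := hn
      have h2 : ∑ i, χ (w i) = 0 := by
        rw [hχ.2 w (fun _ => s) hw (fun _ => hs) (by rw [hwn]; simp)]
        simp
      rw [h2, chr_zero, mul_one]
    · rw [hH n hn, zero_mul]
  · push Not at hex
    rw [coeff_prod S g hg]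
    refine Finset.sum_congr rfl fun u hu => ?_
    rw [Fintype.mem_piFinset] at hu
    rw [if_neg (hex u hu), if_neg (hex u hu)]

/-- **the twisting theorem** -/
theorem twist_main (hp : p.Prime) {ζ : E} (hζ : IsPrimitiveRoot ζ p) (f : E[X])
    (hf : Irreducible f) (hf0 : f.coeff 0 ≠ 0) (χ : ℕ → ZMod p) (hχ : Additive p f.support χ)
    (hH : ∀ n : ℕ, (¬ ∃ s ∈ f.support, n = p * s) →
      (∏ i : Fin p, f.comp (C (ζ ^ (i : ℕ)) * X)).coeff n = 0) :
    ∃ t : ZMod p, ∀ s ∈ f.support, χ s = t * s := by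
  have : NeZero p := ⟨hp.ne_zero⟩
  have hcoef : ∀ (i : Fin p) (n : ℕ), (f.comp (C (ζ ^ (i : ℕ)) * X)).coeff n =
      f.coeff n * (ζ ^ (i : ℕ)) ^ n := fun i n => comp_C_mul_X_coeff
  have hsup : ∀ i : Fin p, (f.comp (C (ζ ^ (i : ℕ)) * X)).support ⊆ f.support := by
    intro i n hn
    rw [mem_support_iff] at hn ⊢
    intro h0
    exact hn (by rw [hcoef, h0, zero_mul])
  have hprod := twist_prod hζ f.support _ hsup χ hχ hH
  have h0 : f = f.comp (C (ζ ^ ((⟨0, hp.pos⟩ : Fin p) : ℕ)) * X) := by simp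
  have hdvd : f ∣ ∏ i : Fin p, f.comp (C (ζ ^ (i : ℕ)) * X) := by
    conv_lhs => rw [h0]
    exact Finset.dvd_prod_of_mem (fun i : Fin p => f.comp (C (ζ ^ (i : ℕ)) * X))
      (Finset.mem_univ _)
  rw [← hprod] at hdvd
  obtain ⟨i, -, q, hq⟩ := hf.prime.exists_mem_finset_dvd hdvd
  have hne : twist ζ χ (f.comp (C (ζ ^ (i : ℕ)) * X)) ≠ 0 := by
    intro h
    have h1 := congrArg (fun g => coeff g 0) h
    simp only [coeff_twist, hcoef, pow_zero, mul_one, hχ.1, chr_zero, coeff_zero] at h1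
    exact hf0 h1
  have hq0 : q ≠ 0 := by
    rintro rfl
    rw [mul_zero] at hq
    exact hne hq
  have hdeg : (twist ζ χ (f.comp (C (ζ ^ (i : ℕ)) * X))).natDegree ≤ f.natDegree := by
    rw [natDegree_le_iff_coeff_eq_zero]
    intro n hn
    rw [coeff_twist, hcoef, coeff_eq_zero_of_natDegree_lt hn, zero_mul, zero_mul]
  rw [hq, natDegree_mul hf.ne_zero hq0] at hdeg
  obtain ⟨c, rfl⟩ : ∃ c, q = C c := ⟨q.coeff 0, eq_C_of_natDegree_eq_zero (by omega)⟩
  have hco : ∀ n, f.coeff n * (ζ ^ (i : ℕ)) ^ n * chr ζ (χ n) = f.coeff n * c := by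
    intro n
    have h1 := congrArg (fun g => coeff g n) hq
    simp only [coeff_twist, hcoef, coeff_mul_C] at h1
    exact h1
  have hc : c = 1 := by
    have h1 := hco 0
    rw [pow_zero, mul_one, hχ.1, chr_zero, mul_one] at h1
    have h2 : f.coeff 0 * (c - 1) = 0 := by linear_combination -h1
    rcases mul_eq_zero.mp h2 with h | h
    · exact absurd h hf0
    · exact sub_eq_zero.mp h
  refine ⟨-(i : ℕ), fun s hs => ?_⟩
  have h1 := hco s
  rw [hc, mul_one, mul_assoc] at h1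
  have h2 : (ζ ^ (i : ℕ)) ^ s * chr ζ (χ s) = 1 := by
    have h3 : f.coeff s ≠ 0 := mem_support_iff.mp hs
    exact mul_left_cancel₀ h3 (by rw [h1, mul_one])
  rw [← pow_mul, ← chr_natCast hζ, ← chr_add hζ] at h2
  have h4 := chr_eq_one hζ h2
  push_cast at h4
  linear_combination h4

end Pool.Agent.W5h73.SP
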