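import Mathlib
import Pool.Agent.W5h73.SP.Core
import Pool.Agent.W5h73.SP.Twist
import Pool.Agent.W5h73.SP.Rank

set_option autoImplicit false

/-!
# The conjugates of a root of an irreducible polynomial with few terms
-/

namespace Pool.Agent.W5h73.SP

open Polynomial Module

section field

variable {F K : Type*} [Field F] [Field K] [Algebra F K]

/-- the `p`-th powers of the roots are distinct -/
lemma pow_injOn {p : ℕ} (hp : p.Prime) (hμ : ∀ y : K, y ^ p = 1 → ∃ z : F, algebraMap F K z = y)
    (f : F[X]) (hf : Irreducible f) (hm : f.Monic) (hf0 : f.coeff 0 ≠ 0)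
    (hgcd : ¬ ∀ s ∈ f.support, p ∣ s) (β β' : K) (hβ : aeval β f = 0) (hβ' : aeval β' f = 0)
    (hpow : β ^ p = β' ^ p) : β = β' := by
  by_contra hne
  have hβ0 : β ≠ 0 := by
    rintro rfl
    rw [← coeff_zero_eq_aeval_zero'] at hβ
    exact hf0 ((map_eq_zero _).mp hβ)
  have h1 : (β' / β) ^ p = 1 := by
    rw [div_pow, ← hpow, div_self (pow_ne_zero _ hβ0)]
  obtain ⟨η, hη⟩ := hμ _ h1
  have hη1 : η ≠ 1 := by
    rintro rfl
    rw [map_one] at hη
    exact hne ((div_eq_one_iff_eq hβ0).mp hη.symm).symm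
  have hηp : η ^ p = 1 := by
    apply (algebraMap F K).injective
    rw [map_pow, hη, h1, map_one]
  have hηe : algebraMap F K η * β = β' := by
    rw [hη]; field_simp
  have hroot : aeval β (f.comp (C η * X)) = 0 := by
    rw [aeval_comp]
    simp only [map_mul, aeval_C, aeval_X]
    rw [hηe, hβ']
  have hmin : minpoly F β = f := (minpoly.eq_of_irreducible_of_monic hf hβ hm).symm
  have hdvd : f ∣ f.comp (C η * X) := by
    rw [← hmin]
    exact minpoly.dvd F β (by rw [hmin]; exact hroot)
  obtain ⟨q, hq⟩ := hdvd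
  have hη0 : η ≠ 0 := by
    rintro rfl
    rw [zero_pow hp.ne_zero] at hηp
    exact zero_ne_one hηp
  have hcoef : ∀ n, (f.comp (C η * X)).coeff n = f.coeff n * η ^ n := fun n => comp_C_mul_X_coeff
  have hne0 : f.comp (C η * X) ≠ 0 := by
    intro h
    have := hcoef 0
    rw [h, coeff_zero, pow_zero, mul_one] at this
    exact hf0 this.symm
  have hq0 : q ≠ 0 := by
    rintro rfl
    rw [mul_zero] at hq
    exact hne0 hq
  have hdeg : (f.comp (C η * X)).natDegree ≤ f.natDegree := by
    rw [natDegree_le_iff_coeff_eq_zero]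
    intro n hn
    rw [hcoef, coeff_eq_zero_of_natDegree_lt hn, zero_mul]
  rw [hq, natDegree_mul hf.ne_zero hq0] at hdeg
  obtain ⟨c, rfl⟩ : ∃ c, q = C c := ⟨q.coeff 0, eq_C_of_natDegree_eq_zero (by omega)⟩
  have hco : ∀ n, f.coeff n * η ^ n = f.coeff n * c := by
    intro n
    rw [← hcoef, hq, coeff_mul_C]
  have hc : c = 1 := by
    have h2 := hco 0
    rw [pow_zero] at h2
    exact (mul_left_cancel₀ hf0 h2).symm
  apply hgcd
  intro s hs
  have h2 := hco s
  rw [hc] at h2
  have h3 : η ^ s = 1 := mul_left_cancel₀ (mem_support_iff.mp hs) h2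
  have hfact : Fact p.Prime := ⟨hp⟩
  have h4 : orderOf η = p := orderOf_eq_prime hηp hη1
  rw [← h4]
  exact orderOf_dvd_of_pow_eq_one h3

/-- if the `p`-th powers of all roots satisfy a linear relation with exponents in `S`, the
polynomial with these roots has all its exponents in `S` -/
lemma prod_of_relation [CharZero F] [IsAlgClosed K] {p : ℕ}
    (f : F[X]) (hf : Irreducible f)
    (hinj : ∀ β β' : K, aeval β f = 0 → aeval β' f = 0 → β ^ p = β' ^ p → β = β')
    (S : Finset ℕ) (hS : ∀ s ∈ S, s ≤ f.natDegree)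
    (b : S → K) (hb : b ≠ 0)
    (hrel : ∀ β : K, aeval β f = 0 → ∑ s, b s * β ^ (p * (s : ℕ)) = 0)
    (m : ℕ) (hm : m ∉ S) :
    (((((f.map (algebraMap F K)).roots).map (· ^ p)).map (X - C ·)).prod).coeff m = 0 := by
  classical
  set fk : K[X] := f.map (algebraMap F K) with hfk
  have hsep : f.Separable := hf.separable
  have hnodup : fk.roots.Nodup := nodup_roots hsep.map
  have hcard : fk.roots.card = f.natDegree := by
    rw [← (IsAlgClosed.splits fk).natDegree_eq_card_roots, hfk, natDegree_map]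
  have hroot : ∀ β ∈ fk.roots, aeval β f = 0 := by
    intro β hβ
    have := (mem_roots'.mp hβ).2
    rw [IsRoot.def, hfk, eval_map_algebraMap] at this
    exact this
  -- the polynomial `G`
  set G : K[X] := ∑ s : S, C (b s) * X ^ (s : ℕ) with hG
  have hGc : ∀ s : S, G.coeff s = b s := by
    intro s
    rw [hG, finsetSum_coeff]
    simp only [coeff_C_mul_X_pow]
    rw [Finset.sum_eq_single s]
    · rw [if_pos rfl]
    · intro t _ hts
      rw [if_neg]
      intro h
      exact hts (Subtype.ext h.symm)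
    · intro h
      exact absurd (Finset.mem_univ _) h
  have hGn : ∀ m : ℕ, m ∉ S → G.coeff m = 0 := by
    intro m hm
    rw [hG, finsetSum_coeff]
    apply Finset.sum_eq_zero
    intro t _
    rw [coeff_C_mul_X_pow, if_neg]
    intro h
    exact hm (h ▸ t.2)
  have hG0 : G ≠ 0 := by
    intro h
    apply hb
    funext s
    rw [← hGc, h, coeff_zero, Pi.zero_apply]
  have hGdeg : G.natDegree ≤ f.natDegree := by
    rw [natDegree_le_iff_coeff_eq_zero]
    intro m hm
    apply hGn
    intro h
    exact absurd (hS m h) (not_le.mpr hm)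
  have hGroot : ∀ β ∈ fk.roots, G.eval (β ^ p) = 0 := by
    intro β hβ
    rw [hG, eval_finsetSum]
    rw [← hrel β (hroot β hβ)]
    refine Finset.sum_congr rfl fun s _ => ?_
    rw [eval_mul, eval_C, eval_pow, eval_X, ← pow_mul]
  set Q : Multiset K := fk.roots.map (· ^ p) with hQ
  have hQn : Q.Nodup := by
    apply Multiset.Nodup.map_on _ hnodup
    intro β hβ β' hβ' h
    exact hinj β β' (hroot β hβ) (hroot β' hβ') h
  have hQle : Q ≤ G.roots := by
    rw [Multiset.le_iff_subset hQn]
    intro y hy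
    obtain ⟨β, hβ, rfl⟩ := Multiset.mem_map.mp hy
    exact (mem_roots hG0).mpr (hGroot β hβ)
  set P : K[X] := (Q.map (X - C ·)).prod with hP
  have hPdvd : P ∣ G := (Multiset.prod_X_sub_C_dvd_iff_le_roots hG0 Q).mpr hQle
  obtain ⟨q, hq⟩ := hPdvd
  have hPm : P.Monic := monic_multiset_prod_of_monic _ _ fun a _ => monic_X_sub_C a
  have hPdeg : P.natDegree = f.natDegree := by
    rw [hP, natDegree_multiset_prod_X_sub_C_eq_card, hQ, Multiset.card_map, hcard]
  have hq0 : q ≠ 0 := by
    rintro rfl
    rw [mul_zero] at hq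
    exact hG0 hq
  rw [hq, natDegree_mul hPm.ne_zero hq0, hPdeg] at hGdeg
  obtain ⟨c, rfl⟩ : ∃ c, q = C c := ⟨q.coeff 0, eq_C_of_natDegree_eq_zero (by omega)⟩
  have hc0 : c ≠ 0 := by
    rintro rfl
    exact hq0 C_0
  have h1 := hGn m hm
  rw [hq, coeff_mul_C] at h1
  exact (mul_eq_zero.mp h1).resolve_right hc0

/-- if the `p`-th powers of all roots satisfy a linear relation with exponents in the support, the
product of the polynomials `f (ζ ^ i X)` has few terms -/
lemma coeff_zero_of_relation [CharZero F] [IsAlgClosed K] {p : ℕ} (hp : p.Prime) {ζ : F}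
    (hζ : IsPrimitiveRoot ζ p) (f : F[X]) (hm : f.Monic)
    (hPn : ∀ m ∉ f.support,
      (((((f.map (algebraMap F K)).roots).map (· ^ p)).map (X - C ·)).prod).coeff m = 0)
    (n : ℕ) (hn : ¬ ∃ s ∈ f.support, n = p * s) :
    (∏ i : Fin p, f.comp (C (ζ ^ (i : ℕ)) * X)).coeff n = 0 := by
  classical
  set fk : K[X] := f.map (algebraMap F K) with hfk
  have hsplit : fk = (fk.roots.map (X - C ·)).prod :=
    (IsAlgClosed.splits fk).eq_prod_roots_of_monic (hm.map _)
  have hcard : fk.roots.card = f.natDegree := by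
    rw [← (IsAlgClosed.splits fk).natDegree_eq_card_roots, hfk, natDegree_map]
  set Q : Multiset K := fk.roots.map (· ^ p) with hQ
  set P : K[X] := (Q.map (X - C ·)).prod with hP
  -- the product
  have hζK : IsPrimitiveRoot (algebraMap F K ζ) p := hζ.map_of_injective (algebraMap F K).injective
  have hinv : IsPrimitiveRoot (algebraMap F K ζ)⁻¹ p := hζK.inv
  have hζ0 : algebraMap F K ζ ≠ 0 := hζK.ne_zero hp.ne_zero
  have hexp : expand K p P = (fk.roots.map fun β =>
      ∏ i ∈ Finset.range p, (X - C ((algebraMap F K ζ)⁻¹ ^ i * β))).prod := by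
    rw [hP, hQ, Multiset.map_map, map_multiset_prod, Multiset.map_map]
    congr 1
    apply Multiset.map_congr rfl
    intro β _
    simp only [Function.comp_apply, map_sub, expand_X, expand_C]
    exact X_pow_sub_C_eq_prod hinv hp.pos rfl
  have hcomp : ∀ i : ℕ, (f.comp (C (ζ ^ i) * X)).map (algebraMap F K) =
      C ((algebraMap F K ζ ^ i) ^ f.natDegree) *
        (fk.roots.map fun β => (X - C ((algebraMap F K ζ)⁻¹ ^ i * β))).prod := by
    intro i
    rw [Polynomial.map_comp, ← hfk]
    conv_lhs => rw [hsplit]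
    have e1 : C ((algebraMap F K ζ ^ i) ^ f.natDegree) =
        (fk.roots.map fun _ => C (algebraMap F K ζ ^ i)).prod := by
      rw [Multiset.map_const', Multiset.prod_replicate, hcard, C_pow]
    rw [multiset_prod_comp, Multiset.map_map, e1, ← Multiset.prod_map_mul]
    congr 1
    apply Multiset.map_congr rfl
    intro β _
    have e2 : map (algebraMap F K) (C (ζ ^ i)) = C (algebraMap F K ζ ^ i) := by
      rw [Polynomial.map_C, map_pow]
    have e3 : algebraMap F K ζ ^ i * ((algebraMap F K ζ)⁻¹ ^ i * β) = β := by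
      rw [← mul_assoc, ← mul_pow, mul_inv_cancel₀ hζ0, one_pow, one_mul]
    simp only [Function.comp_apply, sub_comp, X_comp, C_comp, Polynomial.map_mul, map_X]
    rw [e2, mul_sub, ← C_mul, e3]
  have hprod : (∏ i : Fin p, f.comp (C (ζ ^ (i : ℕ)) * X)).map (algebraMap F K) =
      (∏ i ∈ Finset.range p, C ((algebraMap F K ζ ^ i) ^ f.natDegree)) * expand K p P := by
    rw [Polynomial.map_prod, hexp, ← Finset.prod_range fun i =>
      (f.comp (C (ζ ^ i) * X)).map (algebraMap F K), Finset.prod_congr rfl fun i _ => hcomp i,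
      Finset.prod_mul_distrib]
    congr 1
    rw [Multiset.prod_map_prod]
  have hfin : ((∏ i : Fin p, f.comp (C (ζ ^ (i : ℕ)) * X)).map (algebraMap F K)).coeff n = 0 := by
    rw [hprod, ← map_prod, coeff_C_mul, coeff_expand hp.pos]
    split_ifs with hd
    · obtain ⟨m, rfl⟩ := hd
      rw [Nat.mul_div_cancel_left _ hp.pos, hPn, mul_zero]
      intro hmem
      exact hn ⟨m, hmem, rfl⟩
    · rw [mul_zero]
  rw [coeff_map] at hfin
  exact (map_eq_zero _).mp hfin

end field

end Pool.Agent.W5h73.SP
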