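import Mathlib
import Pool.Agent.W5h73.SP.Roots

set_option autoImplicit false

/-!
# The height bound for polynomials with few terms
-/

namespace Pool.Agent.W5h73.SP

open Polynomial
open Pool.Agent.H58P (Qb ht qb_isIntegral)

variable (F : IntermediateField ℚ Qb)

lemma isInt (x : Qb) : IsIntegral F x := (qb_isIntegral x).tower_top

lemma ht_root (α β : Qb) (h : aeval β (minpoly F α) = 0) : ht β = ht α := by
  have hn : Normal F Qb := normal_iff.mpr fun x => ⟨isInt F x, IsAlgClosed.splits _⟩
  have h1 : IsConjRoot F α β := (isConjRoot_iff_aeval_eq_zero (isInt F α)).mpr h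
  obtain ⟨σ, hσ⟩ := isConjRoot_iff_exists_algEquiv.mp h1
  rw [← hσ]
  exact (Pool.Agent.H58B.ht_conj (σ.restrictScalars ℚ) β).symm

lemma exists_zeta {p : ℕ} (hp : p.Prime) (hμ : ∀ y : Qb, y ^ p = 1 → y ∈ F) :
    ∃ ζ : F, IsPrimitiveRoot ζ p := by
  have : NeZero (p : Qb) := ⟨by exact_mod_cast hp.ne_zero⟩
  obtain ⟨ζ, hζ⟩ := HasEnoughRootsOfUnity.exists_primitiveRoot Qb p
  refine ⟨⟨ζ, hμ ζ hζ.pow_eq_one⟩, ?_⟩
  exact IsPrimitiveRoot.of_map_of_injective (f := algebraMap F Qb) hζ (algebraMap F Qb).injective

/-- the polynomial whose roots are the `p`-th powers of the roots of the minimal polynomial -/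
noncomputable def powPoly (α : Qb) (p : ℕ) : Qb[X] :=
  ((((minpoly F α).map (algebraMap F Qb)).roots.map (· ^ p)).map (X - C ·)).prod

/-- the coefficients off `S` are divisible by `p` with respect to every valuation above `p` -/
def Few (p : ℕ) (α : Qb) (S : Finset ℕ) : Prop :=
  ∀ V : ValuationSubring Qb, V.valuation (p : Qb) < 1 → ∀ i, i ∉ S →
    (minpoly F α).coeff i = 0 ∨ ∃ s ∈ S,
      V.valuation ((minpoly F α).coeff i : Qb) ≤
        V.valuation (p : Qb) * V.valuation ((minpoly F α).coeff s : Qb)

/-- **the dichotomy**: a height bound, or the polynomial of the `p`-th powers has few terms -/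
theorem dichotomy {p : ℕ} (hp : p.Prime) (hμ : ∀ y : Qb, y ^ p = 1 → y ∈ F) (α : Qb) (hα : α ≠ 0)
    (hgcd : ¬ ∀ s ∈ (minpoly F α).support, p ∣ s) (S : Finset ℕ)
    (hS : S ⊆ (minpoly F α).support) (hcard : 2 * S.card.factorial ≤ p) (hV : Few F p α S) :
    Real.log 2 ≤ (p * (minpoly F α).natDegree : ℝ) * (S.card * ht α) ∨
      ∀ m ∉ S, (powPoly F α p).coeff m = 0 := by
  classical
  set f := minpoly F α with hf
  have hm : f.Monic := minpoly.monic (isInt F α)
  have hirr : Irreducible f := minpoly.irreducible (isInt F α)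
  have hf0 : f.coeff 0 ≠ 0 := minpoly.coeff_zero_ne_zero (isInt F α) hα
  have hSle : ∀ s ∈ S, s ≤ f.natDegree := fun s hs => le_natDegree_of_mem_supp s (hS hs)
  have hinj : ∀ β β' : Qb, aeval β f = 0 → aeval β' f = 0 → β ^ p = β' ^ p → β = β' := by
    intro β β' h1 h2 h3
    exact pow_injOn hp (fun y hy => ⟨⟨y, hμ y hy⟩, rfl⟩) f hirr hm hf0 hgcd β β' h1 h2 h3
  rcases rank_or (fun (β : {β : Qb // aeval β f = 0}) (s : S) => (β : Qb) ^ (p * (s : ℕ))) with
    ⟨b, hb, hrel⟩ | ⟨x, hx⟩
  · right
    intro m hmS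
    exact prod_of_relation f hirr hinj S hSle b hb (fun β hβ => hrel ⟨β, hβ⟩) m hmS
  · left
    have key := core hp (ι := S) (by rw [Fintype.card_coe]; exact hcard) (fun s => (s : ℕ))
      f.natDegree (fun s => hSle s s.2) (fun j => (x j : Qb)) ?_ hx
    · rw [Finset.sum_congr rfl fun j _ => ht_root F α (x j : Qb) (x j).2, Finset.sum_const,
        Finset.card_univ, Fintype.card_coe, nsmul_eq_mul] at key
      exact key
    · intro V hVp
      have hVp0 : V.valuation (p : Qb) ≠ 0 :=
        (Valuation.ne_zero_iff _).mpr (by exact_mod_cast hp.ne_zero)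
      -- an exponent in `S` with a nonzero coefficient
      have hlead : f.coeff f.natDegree ≠ 0 := by
        rw [hm.coeff_natDegree]; exact one_ne_zero
      obtain ⟨s1, hs1S⟩ : S.Nonempty := by
        by_cases h : f.natDegree ∈ S
        · exact ⟨_, h⟩
        · rcases hV V hVp _ h with h1 | ⟨s, hs, -⟩
          · exact absurd h1 hlead
          · exact ⟨s, hs⟩
      obtain ⟨s0, hs0S, hs0⟩ := Finset.exists_max_image S
        (fun s => V.valuation (f.coeff s : Qb)) ⟨s1, hs1S⟩
      refine ⟨fun s => (f.coeff s : Qb), ⟨s0, hs0S⟩, ?_, fun i => hs0 i i.2, ?_⟩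
      · have h1 : f.coeff s0 ≠ 0 := mem_support_iff.mp (hS hs0S)
        intro h2
        exact h1 (Subtype.ext h2)
      · intro j
        set β : Qb := (x j : Qb) with hβ
        have hroot : aeval β f = 0 := (x j).2
        set M := max 1 (V.valuation β) with hM
        have hM1 : 1 ≤ M := le_max_left _ _
        have hsub : S ⊆ Finset.range (f.natDegree + 1) := by
          intro s hs
          rw [Finset.mem_range]
          have := hSle s hs
          omega
        have h1 : ∑ s ∈ Finset.range (f.natDegree + 1), (f.coeff s : Qb) * β ^ s = 0 := by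
          rw [aeval_eq_sum_range] at hroot
          rw [← hroot]
          refine Finset.sum_congr rfl fun s _ => ?_
          rw [Algebra.smul_def]
          rfl
        rw [← Finset.sum_sdiff hsub] at h1
        have h2 : ∑ i : S, (f.coeff (i : ℕ) : Qb) * β ^ (i : ℕ) =
            -∑ s ∈ Finset.range (f.natDegree + 1) \ S, (f.coeff s : Qb) * β ^ s := by
          rw [Finset.sum_coe_sort S fun s => (f.coeff s : Qb) * β ^ s]
          linear_combination h1
        show V.valuation (∑ i : S, (f.coeff (i : ℕ) : Qb) * β ^ (i : ℕ)) ≤ _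
        rw [h2, Valuation.map_neg]
        apply V.valuation.map_sum_le
        intro i hi
        rw [Finset.mem_sdiff, Finset.mem_range] at hi
        rw [map_mul, map_pow]
        apply mul_le_mul'
        · rcases hV V hVp i hi.2 with h3 | ⟨s, hs, h3⟩
          · have h4 : V.valuation (f.coeff i : Qb) = 0 := by
              rw [Valuation.zero_iff, h3]; rfl
            rw [h4]
            exact zero_le
          · exact h3.trans (mul_le_mul_right (hs0 s hs) _)
        · exact (pow_le_pow_left₀ zero_le (le_max_right _ _) _).trans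
            (pow_le_pow_right₀ hM1 (by omega))

lemma support_card_pos (α : Qb) : 0 < (minpoly F α).support.card := by
  rw [Finset.card_pos]
  exact ⟨_, natDegree_mem_support_of_nonzero (minpoly.ne_zero (isInt F α))⟩

/-- polynomials with few terms whose exponents have no common divisor -/
theorem sparse_coprime {p : ℕ} (hp : p.Prime) (hμ : ∀ y : Qb, y ^ p = 1 → y ∈ F) (α : Qb)
    (hα : α ≠ 0) (hgcd : ∀ n : ℕ, (∀ s ∈ (minpoly F α).support, n ∣ s) → n = 1)
    (hcard : 2 * (minpoly F α).support.card.factorial ≤ p)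
    (hbig : (2 * p) ^ ((minpoly F α).support.card - 2) < (minpoly F α).natDegree) :
    Real.log 2 ≤ (p * (minpoly F α).natDegree : ℝ) * ((minpoly F α).support.card * ht α) := by
  have hgcd' : ¬ ∀ s ∈ (minpoly F α).support, p ∣ s := fun h => hp.one_lt.ne' (hgcd p h)
  have hf0 : (minpoly F α).coeff 0 ≠ 0 := minpoly.coeff_zero_ne_zero (isInt F α) hα
  rcases dichotomy F hp hμ α hα hgcd' _ (Finset.Subset.refl _) hcard
    (fun V _ i hi => Or.inl (Polynomial.notMem_support_iff.mp hi)) with h | h
  · exact h
  · exfalso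
    obtain ⟨ζ, hζ⟩ := exists_zeta F hp hμ
    obtain ⟨χ, hχ, hχ2⟩ := exists_additive hp (minpoly F α).support (minpoly F α).natDegree
      (by omega) (mem_support_iff.mpr hf0)
      (natDegree_mem_support_of_nonzero (minpoly.ne_zero (isInt F α))) hgcd hbig
    apply hχ2
    exact twist_main hp hζ (minpoly F α) (minpoly.irreducible (isInt F α)) hf0 χ hχ
      (coeff_zero_of_relation (K := Qb) hp hζ (minpoly F α) (minpoly.monic (isInt F α)) h)

/-- the power which makes the exponents coprime -/
lemma exists_power (α : Qb) : ∃ n : ℕ, 0 < n ∧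
    minpoly F α = expand F n (minpoly F (α ^ n)) ∧
    ∀ m : ℕ, (∀ s ∈ (minpoly F (α ^ n)).support, m ∣ s) → m = 1 := by
  set f := minpoly F α with hf
  have hm : f.Monic := minpoly.monic (isInt F α)
  have hirr : Irreducible f := minpoly.irreducible (isInt F α)
  have hdeg : 0 < f.natDegree := minpoly.natDegree_pos (isInt F α)
  have hmem : f.natDegree ∈ f.support := natDegree_mem_support_of_nonzero hm.ne_zero
  set n := f.support.gcd id with hn
  have hdvd : ∀ s ∈ f.support, n ∣ s := fun s hs => Finset.gcd_dvd (f := id) hs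
  have hn0 : 0 < n := by
    rcases Nat.eq_zero_or_pos n with h | h
    · have := hdvd _ hmem
      rw [h, zero_dvd_iff] at this
      omega
    · exact h
  set g := contract n f with hg
  have hexp : f = expand F n g := by
    ext m
    rw [coeff_expand hn0]
    split_ifs with h
    · rw [hg, coeff_contract hn0.ne', Nat.div_mul_cancel h]
    · by_contra h1
      exact h (hdvd m (mem_support_iff.mpr fun h2 => h1 (by rw [h2])))
  have hgirr : Irreducible g := by
    apply of_irreducible_expand hn0.ne'
    rw [← hexp]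
    exact hirr
  have hgm : g.Monic := by
    rw [← monic_expand_iff hn0, ← hexp]
    exact hm
  have hgr : aeval (α ^ n) g = 0 := by
    rw [← expand_aeval, ← hexp]
    exact minpoly.aeval F α
  have hmin : minpoly F (α ^ n) = g := (minpoly.eq_of_irreducible_of_monic hgirr hgr hgm).symm
  refine ⟨n, hn0, by rw [hmin]; exact hexp, ?_⟩
  intro m hmg
  rw [hmin] at hmg
  have h1 : n * m ∣ n := by
    rw [hn]
    apply Finset.dvd_gcd
    intro s hs
    obtain ⟨t, rfl⟩ := hdvd s hs
    have h2 : t ∈ g.support := by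
      rw [mem_support_iff] at hs ⊢
      rw [hg, coeff_contract hn0.ne', mul_comm t n]
      exact hs
    exact Nat.mul_dvd_mul_left n (hmg t h2)
  have h2 : m ∣ 1 := by
    apply Nat.dvd_of_mul_dvd_mul_left hn0
    rwa [mul_one]
  exact Nat.dvd_one.mp h2

lemma card_expand_support {n : ℕ} (hn : 0 < n) (g : F[X]) :
    (expand F n g).support.card = g.support.card := by
  classical
  have h : (expand F n g).support = g.support.map ⟨(n * ·), fun a b h => Nat.eq_of_mul_eq_mul_left hn h⟩ := by
    ext m
    rw [mem_support_iff, coeff_expand hn, Finset.mem_map]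
    constructor
    · intro h
      split_ifs at h with hd
      · exact ⟨m / n, mem_support_iff.mpr h, Nat.mul_div_cancel' hd⟩
      · exact absurd rfl h
    · rintro ⟨s, hs, rfl⟩
      show (if n ∣ n * s then g.coeff (n * s / n) else 0) ≠ 0
      rw [if_pos (dvd_mul_right _ _), Nat.mul_div_cancel_left _ hn]
      exact mem_support_iff.mp hs
  rw [h, Finset.card_map]

/-- polynomials with few terms -/
theorem sparse {p k : ℕ} (hp : p.Prime) (hμ : ∀ y : Qb, y ^ p = 1 → y ∈ F) (hk : 2 * k.factorial ≤ p)
    (α : Qb) (hα : α ≠ 0) (hcard : (minpoly F α).support.card ≤ k)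
    (hbig : ∀ m : ℕ, 0 < m → (2 * p) ^ (k - 2) < (minpoly F (α ^ m)).natDegree) :
    Real.log 2 ≤ (k * p : ℝ) * ((minpoly F α).natDegree * ht α) := by
  obtain ⟨n, hn, hexp, hgcd⟩ := exists_power F α
  have hc : (minpoly F (α ^ n)).support.card ≤ k := by
    rw [hexp, card_expand_support F hn] at hcard
    exact hcard
  have h1 := sparse_coprime F hp hμ (α ^ n) (pow_ne_zero _ hα) hgcd
    ((Nat.mul_le_mul_left 2 (Nat.factorial_le hc)).trans hk)
    (lt_of_le_of_lt (Nat.pow_le_pow_right (by have := hp.pos; omega) (by omega)) (hbig n hn))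
  have hd : ((minpoly F α).natDegree : ℝ) = (minpoly F (α ^ n)).natDegree * n := by
    rw [hexp, natDegree_expand]
    push_cast
    ring
  rw [Pool.Agent.H58B.ht_pow] at h1
  have hht : 0 ≤ ht α := Pool.Agent.Helper259.AbsHt.absLogHeight_nonneg _
  have hc' : ((minpoly F (α ^ n)).support.card : ℝ) ≤ k := by exact_mod_cast hc
  calc Real.log 2 ≤ _ := h1
    _ = ((minpoly F (α ^ n)).support.card : ℝ) *
        (p * ((minpoly F (α ^ n)).natDegree * n * ht α)) := by ring
    _ ≤ k * (p * ((minpoly F (α ^ n)).natDegree * n * ht α)) := by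
        apply mul_le_mul_of_nonneg_right hc'
        positivity
    _ = _ := by rw [hd]; ring

end Pool.Agent.W5h73.SP
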