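import Mathlib
import Pool.Agent.W5h73.SP.Core2
import Pool.Agent.W5h73.SP.Rank
import Pool.Agent.W5h73.SP.Main

set_option autoImplicit false

/-!
# Determinants of conjugates of monomials with radical coefficients
-/

namespace Pool.Agent.W5h73.SP

open NumberField Height Module
open Pool.Agent.Helper259.AbsHt
open Pool.Agent.H58P (Qb ht qb_isIntegral)

/-- the bound for a determinant with respect to a valuation -/
lemma val_det_le_w {K Γ : Type*} [Field K] [LinearOrderedCommGroupWithZero Γ]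
    (v : Valuation K Γ) (hnat : ∀ n : ℕ, v (n : K) ≤ 1) {N q : ℕ} (hadm : Adm N q)
    {ι : Type*} [Fintype ι] [DecidableEq ι] (w : ι → ι → K) (m : ι → Γ)
    (hw : ∀ j i, v (w j i) ≤ m j)
    (a : ι → K) (i0 : ι) (ha0 : a i0 ≠ 0) (hi0 : ∀ i, v (a i) ≤ v (a i0))
    (hax : ∀ j, v (∑ i, a i * w j i) ^ q ≤ v (N : K) * (v (a i0) * m j) ^ q) :
    v (Matrix.of fun j i => w j i ^ q).det ≤ v (N : K) * ∏ j, m j ^ q := by
  classical
  have hva0 : v (a i0) ≠ 0 := (Valuation.ne_zero_iff v).mpr ha0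
  set b : ι → K := fun i => a i / a i0 with hb
  have hb0 : b i0 = 1 := div_self ha0
  have hvb : ∀ i, v (b i) ≤ 1 := by
    intro i
    rw [hb]
    show v (a i / a i0) ≤ 1
    rw [map_div₀]
    exact div_le_one_of_le₀ (hi0 i) zero_le
  have hbx : ∀ j, v (∑ i, b i * w j i) ^ q ≤ v (N : K) * m j ^ q := by
    intro j
    have h1 : ∑ i, b i * w j i = (∑ i, a i * w j i) / a i0 := by
      rw [Finset.sum_div]
      refine Finset.sum_congr rfl fun i _ => ?_
      rw [hb]
      ring
    rw [h1, map_div₀, div_pow, div_le_iff₀ (zero_lt_iff.mpr (pow_ne_zero _ hva0))]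
    refine (hax j).trans (le_of_eq ?_)
    rw [mul_pow, mul_comm (v (a i0) ^ q), ← mul_assoc]
  set M : Matrix ι ι K := Matrix.of fun j i => w j i ^ q with hM
  have hcol := Matrix.det_updateCol_sum M i0 fun i => b i ^ q
  simp only [hb0, one_pow, one_smul] at hcol
  rw [← hcol]
  have hE : ∀ j, v (∑ i, b i ^ q * M j i) ≤ v (N : K) * m j ^ q := by
    intro j
    have h1 : ∑ i, b i ^ q * M j i =
        (∑ i, (b i * w j i) ^ q - (∑ i, b i * w j i) ^ q) + (∑ i, b i * w j i) ^ q := by
      rw [sub_add_cancel]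
      refine Finset.sum_congr rfl fun i _ => ?_
      rw [hM, Matrix.of_apply, mul_pow]
    rw [h1]
    refine (v.map_add _ _).trans (max_le ?_ ?_)
    · apply val_sum_pow_adm v hnat hadm
      intro i _
      rw [map_mul]
      calc v (b i) * v (w j i) ≤ 1 * m j := mul_le_mul' (hvb i) (hw j i)
        _ = _ := one_mul _
    · rw [map_pow]
      exact hbx j
  rw [Matrix.det_apply']
  apply v.map_sum_le
  intro σ _
  have hsign : v ((Equiv.Perm.sign σ : ℤ) : K) = 1 := by
    rcases Int.units_eq_one_or (Equiv.Perm.sign σ) with h | h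
    · rw [h]; simp
    · rw [h]; simp [Valuation.map_neg]
  rw [map_mul, hsign, one_mul, map_prod]
  have hsplit : ∀ i, v (M.updateCol i0 (fun k => ∑ i, b i ^ q • M k i) (σ i) i) ≤
      (if i = i0 then v (N : K) else 1) * m (σ i) ^ q := by
    intro i
    by_cases h : i = i0
    · subst h
      rw [Matrix.updateCol_self, if_pos rfl]
      simpa [smul_eq_mul] using hE (σ i)
    · rw [Matrix.updateCol_ne h, if_neg h, one_mul, hM, Matrix.of_apply, map_pow]
      exact pow_le_pow_left₀ zero_le (hw _ _) _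
  calc ∏ i, v (M.updateCol i0 (fun k => ∑ i, b i ^ q • M k i) (σ i) i)
      ≤ ∏ i, ((if i = i0 then v (N : K) else 1) * m (σ i) ^ q) :=
        Finset.prod_le_prod (fun _ _ => zero_le) fun i _ => hsplit i
    _ = v (N : K) * ∏ j, m j ^ q := by
        rw [Finset.prod_mul_distrib, Finset.prod_ite_eq' Finset.univ i0, if_pos (Finset.mem_univ _)]
        congr 1
        exact Equiv.prod_comp σ fun j => m j ^ q

/-- the trivial bound for a determinant with respect to a valuation -/
lemma val_det_triv_w {K Γ : Type*} [Field K] [LinearOrderedCommGroupWithZero Γ]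
    (v : Valuation K Γ) (q : ℕ) {ι : Type*} [Fintype ι] [DecidableEq ι] (w : ι → ι → K) (m : ι → Γ)
    (hw : ∀ j i, v (w j i) ≤ m j) :
    v (Matrix.of fun j i => w j i ^ q).det ≤ ∏ j, m j ^ q := by
  classical
  rw [Matrix.det_apply']
  apply v.map_sum_le
  intro σ _
  have hsign : v ((Equiv.Perm.sign σ : ℤ) : K) = 1 := by
    rcases Int.units_eq_one_or (Equiv.Perm.sign σ) with h | h
    · rw [h]; simp
    · rw [h]; simp [Valuation.map_neg]
  rw [map_mul, hsign, one_mul, map_prod, ← Equiv.prod_comp σ fun j => m j ^ q]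
  apply Finset.prod_le_prod (fun _ _ => zero_le)
  intro i _
  rw [Matrix.of_apply, map_pow]
  exact pow_le_pow_left₀ zero_le (hw _ _) _

/-- the archimedean bound for a determinant -/
lemma norm_det_le_w {ι : Type*} [Fintype ι] [DecidableEq ι] (w : ι → ι → ℂ) (m : ι → ℝ) (q : ℕ)
    (hm : ∀ j, 0 < m j) (hw : ∀ j i, ‖w j i‖ ≤ m j) :
    ‖(Matrix.of fun j i => w j i ^ q).det‖ ≤ had (Fintype.card ι) * ∏ j, m j ^ q := by
  classical
  have h1 : (Matrix.of fun j i => w j i ^ q) =
      Matrix.of fun j i => ((m j ^ q : ℝ) : ℂ) *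
        (Matrix.of fun j i => w j i ^ q / ((m j ^ q : ℝ) : ℂ)) j i := by
    ext j i
    have : ((m j ^ q : ℝ) : ℂ) ≠ 0 := by exact_mod_cast (pow_pos (hm j) q).ne'
    simp only [Matrix.of_apply]
    field_simp
  rw [h1, Matrix.det_mul_column, norm_mul, norm_prod, mul_comm]
  apply mul_le_mul
  · apply hadamard
    intro j i
    rw [Matrix.of_apply, norm_div, norm_pow, Complex.norm_real,
      Real.norm_of_nonneg (pow_pos (hm j) q).le, div_le_one (pow_pos (hm j) q)]
    exact pow_le_pow_left₀ (norm_nonneg _) (hw j i) _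
  · apply le_of_eq
    refine Finset.prod_congr rfl fun j _ => ?_
    rw [Complex.norm_real, Real.norm_of_nonneg (pow_pos (hm j) q).le]
  · positivity
  · exact had_nonneg _

/-- **the height bound from a nonzero determinant** -/
theorem core_w {N q : ℕ} (hadm : Adm N q) {ι : Type*} [Fintype ι] [DecidableEq ι]
    (R : ℝ) (hR : 0 < R) (hcard : R * had (Fintype.card ι) ≤ N) (E : ℕ)
    (x : ι → Qb) (w : ι → ι → Qb)
    (hwV : ∀ (V : ValuationSubring Qb) j i, V.valuation (w j i) ≤ max 1 (V.valuation (x j)) ^ E)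
    (hwφ : ∀ (φ : Qb →+* ℂ) j i, ‖φ (w j i)‖ ≤ max 1 ‖φ (x j)‖ ^ E)
    (hV : ∀ V : ValuationSubring Qb, V.valuation (N : Qb) < 1 → ∃ (a : ι → Qb) (i0 : ι),
      a i0 ≠ 0 ∧ (∀ i, V.valuation (a i) ≤ V.valuation (a i0)) ∧
      ∀ j, V.valuation (∑ i, a i * w j i) ^ q ≤
        V.valuation (N : Qb) * (V.valuation (a i0) * max 1 (V.valuation (x j)) ^ E) ^ q)
    (hΔ : (Matrix.of fun j i => w j i ^ q).det ≠ 0) :
    Real.log R ≤ (q * E : ℝ) * ∑ j, ht (x j) := by
  set Δ : Qb := (Matrix.of fun j i => w j i ^ q).det with hΔdef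
  have hNpos : 0 < N := by
    have h1 : (0 : ℝ) < N := lt_of_lt_of_le (mul_pos hR (had_pos _)) hcard
    exact_mod_cast h1
  have hN0 : (N : Qb) ≠ 0 := by exact_mod_cast hNpos.ne'
  set c : Qb := (N : Qb) / Δ with hc
  have hc0 : c ≠ 0 := div_ne_zero hN0 hΔ
  set y : (ι → Fin 2) → Qb := fun I => ∏ j, (![1, x j ^ (E * q)] : Fin 2 → Qb) (I j) with hy
  have hsm : absLogHeight (c • y) = absLogHeight y := absLogHeight_smul y hc0
  have h1 : absLogHeight y = (q * E : ℝ) * ∑ j, ht (x j) := by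
    rw [hy, absLogHeight_prod, Finset.mul_sum]
    refine Finset.sum_congr rfl fun j _ => ?_
    rw [Pool.Agent.H58B.ht_pow]
    push_cast
    ring
  rw [← h1, ← hsm]
  apply height_ge' _ R hR
  · intro V
    have hnat : ∀ n : ℕ, V.valuation (n : Qb) ≤ 1 := by
      intro n
      rw [ValuationSubring.valuation_le_one_iff]
      exact natCast_mem V n
    have hb : V.valuation Δ ≤ V.valuation (N : Qb) *
        ∏ j, (max 1 (V.valuation (x j)) ^ E) ^ q := by
      rcases lt_or_eq_of_le (hnat N) with h | h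
      · obtain ⟨a, i0, ha0, hi0, hax⟩ := hV V h
        exact val_det_le_w V.valuation hnat hadm w _ (hwV V) a i0 ha0 hi0 hax
      · rw [h, one_mul]
        exact val_det_triv_w V.valuation q w _ (hwV V)
    refine ⟨fun j => if 1 < V.valuation (x j) then 1 else 0, ?_⟩
    rw [Pi.smul_apply, smul_eq_mul, map_mul, hc, map_div₀, hy]
    have h2 : V.valuation (∏ j, (![1, x j ^ (E * q)] : Fin 2 → Qb)
        (if 1 < V.valuation (x j) then 1 else 0)) =
        ∏ j, (max 1 (V.valuation (x j)) ^ E) ^ q := by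
      rw [map_prod]
      refine Finset.prod_congr rfl fun j _ => ?_
      by_cases h : 1 < V.valuation (x j)
      · rw [if_pos h, max_eq_right h.le]
        simp [pow_mul]
      · rw [if_neg h, max_eq_left (not_lt.mp h)]
        simp
    show 1 ≤ V.valuation (N : Qb) / V.valuation Δ * V.valuation (∏ j,
      (![1, x j ^ (E * q)] : Fin 2 → Qb) (if 1 < V.valuation (x j) then 1 else 0))
    rw [h2]
    have hΔv : V.valuation Δ ≠ 0 := (Valuation.ne_zero_iff _).mpr hΔ
    rw [div_mul_eq_mul_div, one_le_div₀ (zero_lt_iff.mpr hΔv)]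
    exact hb
  · intro φ
    have hb := norm_det_le_w (fun j i => φ (w j i)) (fun j => max 1 ‖φ (x j)‖ ^ E) q
      (fun j => by positivity) (hwφ φ)
    have h3 : (Matrix.of fun j i => φ (w j i) ^ q).det = φ Δ := by
      rw [hΔdef, RingHom.map_det]
      congr 1
      ext j i
      simp
    rw [h3] at hb
    refine ⟨fun j => if 1 < ‖φ (x j)‖ then 1 else 0, ?_⟩
    rw [Pi.smul_apply, smul_eq_mul, map_mul, norm_mul, hc, map_div₀, norm_div, hy]
    have h2 : ‖φ (∏ j, (![1, x j ^ (E * q)] : Fin 2 → Qb)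
        (if 1 < ‖φ (x j)‖ then 1 else 0))‖ = ∏ j, (max 1 ‖φ (x j)‖ ^ E) ^ q := by
      rw [map_prod, norm_prod]
      refine Finset.prod_congr rfl fun j _ => ?_
      by_cases h : 1 < ‖φ (x j)‖
      · rw [if_pos h, max_eq_right h.le]
        simp [pow_mul]
      · rw [if_neg h, max_eq_left (not_lt.mp h)]
        simp
    show R ≤ ‖φ (N : Qb)‖ / ‖φ Δ‖ * ‖φ (∏ j,
      (![1, x j ^ (E * q)] : Fin 2 → Qb) (if 1 < ‖φ (x j)‖ then 1 else 0))‖
    rw [h2, map_natCast, Complex.norm_natCast]
    have hΔn : 0 < ‖φ Δ‖ := norm_pos_iff.mpr fun h => hΔ ((map_eq_zero φ).mp h)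
    rw [div_mul_eq_mul_div, le_div_iff₀ hΔn]
    have hP : (0 : ℝ) ≤ ∏ j, (max 1 ‖φ (x j)‖ ^ E) ^ q :=
      Finset.prod_nonneg fun j _ => by positivity
    calc R * ‖φ Δ‖ ≤ R * (had (Fintype.card ι) * ∏ j, (max 1 ‖φ (x j)‖ ^ E) ^ q) :=
          mul_le_mul_of_nonneg_left hb hR.le
      _ = (R * had (Fintype.card ι)) * ∏ j, (max 1 ‖φ (x j)‖ ^ E) ^ q := by ring
      _ ≤ _ := mul_le_mul_of_nonneg_right hcard hP

lemma val_tor (V : ValuationSubring Qb) {z : Qb} (hz : ∃ n : ℕ, 0 < n ∧ z ^ n = 1) :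
    V.valuation z = 1 := by
  obtain ⟨n, hn, h⟩ := hz
  have h1 : V.valuation z ^ n = 1 := by rw [← map_pow, h, map_one]
  exact (pow_eq_one_iff_of_nonneg zero_le hn.ne').mp h1

lemma norm_tor (φ : Qb →+* ℂ) {z : Qb} (hz : ∃ n : ℕ, 0 < n ∧ z ^ n = 1) : ‖φ z‖ = 1 := by
  obtain ⟨n, hn, h⟩ := hz
  have h1 : ‖φ z‖ ^ n = 1 := by rw [← norm_pow, ← map_pow, h, map_one, norm_one]
  exact (pow_eq_one_iff_of_nonneg (norm_nonneg _) hn.ne').mp h1

variable (F : IntermediateField ℚ Qb)

/-- a linear relation between conjugates gives a linear relation over `F` -/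
lemma descend_w {k : ℕ} (y : Fin k → Qb) (b : Fin k → Qb) (hb : b ≠ 0)
    (h : ∀ σ : Qb ≃ₐ[F] Qb, ∑ i, b i * σ (y i) = 0) :
    ∃ c : Fin k → F, c ≠ 0 ∧ ∑ i, (c i : Qb) * y i = 0 := by
  classical
  -- relations with a support of given size
  have key : ∀ n : ℕ, ∀ b : Fin k → Qb, b ≠ 0 → (Finset.univ.filter fun i => b i ≠ 0).card = n →
      (∀ σ : Qb ≃ₐ[F] Qb, ∑ i, b i * σ (y i) = 0) →
      ∃ c : Fin k → F, c ≠ 0 ∧ ∑ i, (c i : Qb) * y i = 0 := by
    intro n
    induction n using Nat.strong_induction_on with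
    | _ n ih =>
      intro b hb hn h
      obtain ⟨i0, hi0⟩ : ∃ i, b i ≠ 0 := by
        by_contra hcon
        push Not at hcon
        exact hb (funext hcon)
      set b1 : Fin k → Qb := fun i => b i / b i0 with hb1
      have hb10 : b1 i0 = 1 := div_self hi0
      have hrel1 : ∀ σ : Qb ≃ₐ[F] Qb, ∑ i, b1 i * σ (y i) = 0 := by
        intro σ
        have h1 : ∑ i, b1 i * σ (y i) = (∑ i, b i * σ (y i)) / b i0 := by
          rw [Finset.sum_div]
          refine Finset.sum_congr rfl fun i _ => ?_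
          rw [hb1]
          ring
        rw [h1, h σ, zero_div]
      by_cases hfix : ∀ τ : Qb ≃ₐ[F] Qb, ∀ i, τ (b1 i) = b1 i
      · have hmem : ∀ i, b1 i ∈ F := by
          intro i
          have hn : Normal F Qb := normal_iff.mpr fun x => ⟨isInt F x, IsAlgClosed.splits _⟩
          have hsep : Algebra.IsSeparable F Qb :=
            ⟨fun x => (minpoly.irreducible (isInt F x)).separable⟩
          have hgal : IsGalois F Qb := IsGalois.mk
          have h1 := (InfiniteGalois.mem_bot_iff_fixed (k := F) (K := Qb) (b1 i)).mpr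
            (fun τ => hfix τ i)
          rw [IntermediateField.mem_bot] at h1
          obtain ⟨z, hz⟩ := h1
          rw [← hz]
          exact z.2
        refine ⟨fun i => ⟨b1 i, hmem i⟩, ?_, ?_⟩
        · intro h0
          have h1 := congrArg Subtype.val (congrFun h0 i0)
          rw [show ((⟨b1 i0, hmem i0⟩ : F) : Qb) = b1 i0 from rfl, hb10] at h1
          exact one_ne_zero h1
        · exact hrel1 1
      · push Not at hfix
        obtain ⟨τ, i1, hi1⟩ := hfix
        set b2 : Fin k → Qb := fun i => τ (b1 i) - b1 i with hb2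
        have hb20 : b2 ≠ 0 := by
          intro h0
          exact hi1 (sub_eq_zero.mp (congrFun h0 i1))
        have hrel2 : ∀ σ : Qb ≃ₐ[F] Qb, ∑ i, b2 i * σ (y i) = 0 := by
          intro σ
          have h2 : ∑ i, τ (b1 i) * σ (y i) = 0 := by
            have h3 := congrArg τ (hrel1 (σ.trans τ.symm))
            rw [map_sum, map_zero] at h3
            rw [← h3]
            refine Finset.sum_congr rfl fun i _ => ?_
            rw [map_mul, AlgEquiv.trans_apply, AlgEquiv.apply_symm_apply]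
          have h4 : ∑ i, b2 i * σ (y i) = ∑ i, τ (b1 i) * σ (y i) - ∑ i, b1 i * σ (y i) := by
            rw [← Finset.sum_sub_distrib]
            refine Finset.sum_congr rfl fun i _ => ?_
            rw [hb2]
            ring
          rw [h4, h2, hrel1 σ, sub_zero]
        apply ih _ _ b2 hb20 rfl hrel2
        rw [← hn]
        apply Finset.card_lt_card
        rw [Finset.ssubset_iff_of_subset]
        · refine ⟨i0, Finset.mem_filter.mpr ⟨Finset.mem_univ _, hi0⟩, ?_⟩
          rw [Finset.mem_filter, not_and, not_not]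
          intro _
          rw [hb2]
          show τ (b1 i0) - b1 i0 = 0
          rw [hb10, map_one, sub_self]
        · intro i hi
          rw [Finset.mem_filter] at hi ⊢
          refine ⟨hi.1, fun h0 => hi.2 ?_⟩
          have h1 : b1 i = 0 := by
            rw [hb1]
            show b i / b i0 = 0
            rw [h0, zero_div]
          rw [hb2]
          show τ (b1 i) - b1 i = 0
          rw [h1, map_zero, sub_self]
  exact key _ b hb rfl h

/-- modulo `N` (raised to the power `1 / q`), at every place above `N`, the conjugates of the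
vector `(θ i α ^ e i)`, divided by `θ i`, satisfy one linear equation -/
def LocalRelW (N q : ℕ) {k : ℕ} (θ : Fin k → Qb) (e : Fin k → ℕ) (E : ℕ) (α : Qb) : Prop :=
  ∀ V : ValuationSubring Qb, V.valuation (N : Qb) < 1 → ∃ (a : Fin k → Qb) (i0 : Fin k),
    a i0 ≠ 0 ∧ (∀ i, V.valuation (a i) ≤ V.valuation (a i0)) ∧
    ∀ σ : Qb ≃ₐ[F] Qb,
      V.valuation (∑ i, a i * (σ (θ i) / θ i * σ α ^ e i)) ^ q ≤
        V.valuation (N : Qb) * (V.valuation (a i0) * max 1 (V.valuation (σ α)) ^ E) ^ q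

/-- **one step** -/
theorem step_w {N q : ℕ} (hadm : Adm N q) {k : ℕ} (R : ℝ) (hR : 0 < R) (hk : R * had k ≤ N)
    (θ : Fin k → Qb) (hθ : ∀ i, θ i ≠ 0)
    (htor : ∀ i, ∀ σ : Qb ≃ₐ[F] Qb, ∃ n : ℕ, 0 < n ∧ (σ (θ i) / θ i) ^ n = 1)
    (e : Fin k → ℕ) (E : ℕ) (he : ∀ i, e i ≤ E) (α : Qb) (hL : LocalRelW F N q θ e E α) :
    Real.log R ≤ (q * E : ℝ) * (k * ht α) ∨
      ∃ c : Fin k → F, c ≠ 0 ∧ ∑ i, (c i : Qb) * (θ i * α ^ e i) ^ q = 0 := by
  rcases rank_or (fun (σ : Qb ≃ₐ[F] Qb) (i : Fin k) =>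
    (σ (θ i) / θ i * σ α ^ e i) ^ q) with ⟨b, hb, hrel⟩ | ⟨x, hx⟩
  · right
    apply descend_w F _ (fun i => b i / θ i ^ q)
    · intro h0
      apply hb
      funext i
      have h1 := congrFun h0 i
      show b i = 0
      have h2 : b i / θ i ^ q = 0 := h1
      rcases div_eq_zero_iff.mp h2 with h3 | h3
      · exact h3
      · exact absurd h3 (pow_ne_zero _ (hθ i))
    · intro σ
      rw [← hrel σ]
      refine Finset.sum_congr rfl fun i _ => ?_
      rw [map_pow, map_mul, map_pow, mul_pow, mul_pow, div_pow]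
      ring
  · left
    have key := core_w hadm (ι := Fin k) R hR (by rw [Fintype.card_fin]; exact hk) E
      (fun j => x j α) (fun j i => x j (θ i) / θ i * x j α ^ e i) ?_ ?_ ?_ hx
    · have hht : ∀ j, ht (x j α) = ht α := fun j =>
        Pool.Agent.H58B.ht_conj ((x j).restrictScalars ℚ) α
      simp only [hht] at key
      rw [Finset.sum_const, Finset.card_univ, Fintype.card_fin, nsmul_eq_mul] at key
      exact key
    · intro V j i
      rw [map_mul, val_tor V (htor i (x j)), one_mul, map_pow]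
      exact (pow_le_pow_left₀ zero_le (le_max_right _ _) _).trans
        (pow_le_pow_right₀ (le_max_left _ _) (he i))
    · intro φ j i
      rw [map_mul, norm_mul, norm_tor φ (htor i (x j)), one_mul, map_pow, norm_pow]
      exact (pow_le_pow_left₀ (norm_nonneg _) (le_max_right _ _) _).trans
        (pow_le_pow_right₀ (le_max_left _ _) (he i))
    · intro V hVN
      obtain ⟨a, i0, ha0, hi0, h⟩ := hL V hVN
      exact ⟨a, i0, ha0, hi0, fun j => h (x j)⟩

/-- an exact relation over `F` is a local relation for every modulus -/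
lemma localRelW_of_eq (N q l : ℕ) (hl : l ≠ 0) {k : ℕ} (θ : Fin k → Qb) (hθ : ∀ i, θ i ≠ 0)
    (e : Fin k → ℕ) (E : ℕ) (α : Qb) (c : Fin k → F)
    (hc : c ≠ 0) (h : ∑ i, (c i : Qb) * (θ i * α ^ e i) ^ q = 0) :
    LocalRelW F N l (fun i => θ i ^ q) (fun i => q * e i) E α := by
  intro V _
  obtain ⟨i1, hi1⟩ : ∃ i, c i ≠ 0 := by
    by_contra hcon
    push Not at hcon
    exact hc (funext hcon)
  have hne : ∀ i, c i ≠ 0 → (c i : Qb) * θ i ^ q ≠ 0 := by
    intro i hi
    apply mul_ne_zero _ (pow_ne_zero _ (hθ i))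
    intro h0
    exact hi (Subtype.ext h0)
  have : Nonempty (Fin k) := ⟨i1⟩
  obtain ⟨i0, hi0⟩ := Finite.exists_max fun i => V.valuation ((c i : Qb) * θ i ^ q)
  refine ⟨fun i => (c i : Qb) * θ i ^ q, i0, ?_, hi0, ?_⟩
  · intro h0
    have h1 := hi0 i1
    simp only at h0
    rw [h0, map_zero, le_zero_iff, Valuation.zero_iff] at h1
    exact hne i1 hi1 h1
  · intro σ
    have h2 : ∑ i, (c i : Qb) * θ i ^ q * (σ (θ i ^ q) / θ i ^ q * σ α ^ (q * e i)) = 0 := by
      have h3 := congrArg σ h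
      rw [map_sum, map_zero] at h3
      rw [← h3]
      refine Finset.sum_congr rfl fun i _ => ?_
      have h4 : σ (c i : Qb) = (c i : Qb) := σ.commutes (c i)
      have h5 := pow_ne_zero q (hθ i)
      rw [map_mul, h4, map_pow, map_pow, map_mul, mul_pow, map_pow, ← pow_mul, mul_comm (e i) q]
      field_simp
    rw [h2, map_zero, zero_pow hl]
    exact zero_le

end Pool.Agent.W5h73.SP
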