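import Mathlib

set_option autoImplicit false

/-!
# Derivations which do not vanish on given transcendental elements
-/

namespace Pool.Agent.W5h73.SP

open MvPolynomial TensorProduct

section

variable {K L : Type} [Field K] [Field L] [Algebra K L] [CharZero K]

open scoped IntermediateField.algebraAdjoinAdjoin in
/-- a derivation which is `1` at a transcendental element -/
theorem exists_derivation (y : L) (hy : Transcendental K y) :
    ∃ δ : Derivation K L L, δ y = 1 := by
  classical
  have hind : AlgebraicIndepOn K id ({y} : Set L) := by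
    have := (algebraicIndependent_unique_type_iff (R := K) (ι := ({y} : Set L))
      (x := fun i => (i : L))).mpr hy
    exact this
  obtain ⟨s, hys, hs⟩ := exists_isTranscendenceBasis_superset hind
  have hind' : AlgebraicIndependent K ((↑) : s → L) := hs.1
  have halg : Algebra.IsAlgebraic (IntermediateField.adjoin K (Set.range ((↑) : s → L))) L :=
    hs.isAlgebraic_field
  let A := Algebra.adjoin K (Set.range ((↑) : s → L))
  let M := IntermediateField.adjoin K (Set.range ((↑) : s → L))
  have h1 : Algebra.FormallyEtale A M := .of_isLocalization (nonZeroDivisors _)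
  have h2 : Algebra.FormallyEtale M L := Algebra.FormallyEtale.of_isSeparable _ L
  have h3 : Algebra.FormallyEtale A L := .comp A M L
  let e : MvPolynomial s K ≃ₐ[K] A := hind'.aevalEquiv
  let i0 : s := ⟨y, hys rfl⟩
  let D0 : Derivation K A L := Derivation.mk'
    ((aeval ((↑) : s → L)).toLinearMap ∘ₗ (pderiv i0).toLinearMap ∘ₗ e.symm.toLinearMap) (by
      intro a b
      have ha : ∀ a : A, aeval ((↑) : s → L) (e.symm a) = (a : L) := by
        intro a
        rw [← hind'.algebraMap_aevalEquiv]
        show ((e (e.symm a) : A) : L) = a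
        rw [e.apply_symm_apply]
      simp only [LinearMap.comp_apply, AlgEquiv.toLinearMap_apply, AlgHom.toLinearMap_apply,
        Derivation.coeFn_coe, map_mul, Derivation.leibniz, map_add, smul_eq_mul, ha]
      rfl)
  have hD0 : D0 (⟨y, Algebra.subset_adjoin ⟨i0, rfl⟩⟩ : A) = 1 := by
    have h4 : e.symm (⟨y, Algebra.subset_adjoin ⟨i0, rfl⟩⟩ : A) = X i0 := by
      rw [AlgEquiv.symm_apply_eq]
      apply Subtype.ext
      have := hind'.algebraMap_aevalEquiv (X i0)
      rw [aeval_X] at this
      exact this.symm
    show aeval ((↑) : s → L) (pderiv i0 (e.symm _)) = 1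
    rw [h4, pderiv_X_self, map_one]
  let F : L ⊗[A] (Ω[A⁄K]) →ₗ[L] L := D0.liftKaehlerDifferential.liftBaseChange L
  let G : Ω[L⁄K] →ₗ[L] L :=
    F ∘ₗ (KaehlerDifferential.tensorKaehlerEquivOfFormallyEtale K A L).symm.toLinearMap
  refine ⟨G.compDer (KaehlerDifferential.D K L), ?_⟩
  show F ((KaehlerDifferential.tensorKaehlerEquivOfFormallyEtale K A L).symm
    (KaehlerDifferential.D K L (algebraMap A L ⟨y, Algebra.subset_adjoin ⟨i0, rfl⟩⟩))) = 1
  rw [KaehlerDifferential.tensorKaehlerEquivOfFormallyEtale_symm_D_algebraMap,
    LinearMap.liftBaseChange_one_tmul, Derivation.liftKaehlerDifferential_comp_D, hD0]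

/-- a derivation which does not vanish at finitely many given transcendental elements -/
theorem exists_generic [CharZero L] (s : Finset L) (h : ∀ y ∈ s, Transcendental K y) :
    ∃ δ : Derivation K L L, ∀ y ∈ s, δ y ≠ 0 := by
  classical
  induction s using Finset.induction with
  | empty => exact ⟨0, fun y hy => absurd hy (Finset.notMem_empty y)⟩
  | insert a s ha ih =>
    obtain ⟨δ1, h1⟩ := ih fun y hy => h y (Finset.mem_insert_of_mem hy)
    obtain ⟨δ2, h2⟩ := exists_derivation a (h a (Finset.mem_insert_self _ _))
    obtain ⟨c, hc⟩ := Infinite.exists_notMem_finset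
      (insert (-δ1 a) (s.image fun y => -δ1 y / δ2 y))
    rw [Finset.mem_insert, Finset.mem_image, not_or] at hc
    refine ⟨δ1 + c • δ2, fun y hy => ?_⟩
    rw [Derivation.add_apply, Derivation.smul_apply, smul_eq_mul]
    rcases Finset.mem_insert.mp hy with rfl | hys
    · rw [h2, mul_one]
      intro h0
      exact hc.1 (by linear_combination h0)
    · intro h0
      by_cases hd : δ2 y = 0
      · rw [hd, mul_zero, add_zero] at h0
        exact h1 y hys h0
      · apply hc.2
        refine ⟨y, hys, ?_⟩
        rw [div_eq_iff hd]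
        linear_combination -h0

/-- distinct logarithmic derivatives -/
theorem exists_logDeriv_injective [CharZero L] {k : ℕ} (t : Fin k → L) (ht : ∀ i, t i ≠ 0)
    (htr : ∀ i j, i ≠ j → Transcendental K (t i / t j)) :
    ∃ δ : Derivation K L L, Function.Injective fun i => δ (t i) / t i := by
  classical
  obtain ⟨δ, hδ⟩ := exists_generic (K := K)
    ((Finset.univ.filter fun q : Fin k × Fin k => q.1 ≠ q.2).image fun q => t q.1 / t q.2) (by
      intro y hy
      rw [Finset.mem_image] at hy
      obtain ⟨q, hq, rfl⟩ := hy
      exact htr _ _ (Finset.mem_filter.mp hq).2)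
  refine ⟨δ, fun i j hij => ?_⟩
  by_contra hne
  apply hδ (t i / t j)
  · rw [Finset.mem_image]
    exact ⟨(i, j), Finset.mem_filter.mpr ⟨Finset.mem_univ _, hne⟩, rfl⟩
  · have hi := ht i
    have hj := ht j
    have h1 : δ (t i) = δ (t i / t j) * t j + t i / t j * δ (t j) := by
      conv_lhs => rw [show t i = t i / t j * t j by field_simp]
      rw [Derivation.leibniz]
      simp only [smul_eq_mul]
      ring
    have h2 : δ (t i) / t i = δ (t j) / t j := hij
    rw [h1, div_eq_div_iff hi hj] at h2
    have h3 : δ (t i / t j) * (t j * t j) = 0 := by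
      have h4 : t i / t j * δ (t j) * t j = δ (t j) * t i := by field_simp
      linear_combination h2 - h4
    exact (mul_eq_zero.mp h3).resolve_right (mul_ne_zero hj hj)

end

end Pool.Agent.W5h73.SP
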