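import Mathlib
import Pool.Agent.W5h73.SP.Core2
import Pool.Agent.W5h73.SP.Rank
import Pool.Agent.W5h73.SP.Main

set_option autoImplicit false

/-!
# One step: a height bound or a linear relation between powers
-/

namespace Pool.Agent.W5h73.SP

open Polynomial
open Pool.Agent.H58P (Qb ht qb_isIntegral)

variable (F : IntermediateField ℚ Qb)

/-- a relation with coefficients in `Qb` which holds for all conjugates gives one over `F` -/
lemma descend {k : ℕ} (α : Qb) (e : Fin k → ℕ) (b : Fin k → Qb) (hb : b ≠ 0)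
    (h : ∀ β : Qb, aeval β (minpoly F α) = 0 → ∑ i, b i * β ^ e i = 0) :
    ∃ c : Fin k → F, c ≠ 0 ∧ ∑ i, (c i : Qb) * α ^ e i = 0 := by
  classical
  obtain ⟨i0, hi0⟩ : ∃ i, b i ≠ 0 := by
    by_contra hcon
    push Not at hcon
    exact hb (funext hcon)
  set f := minpoly F α with hf
  have hirr : Irreducible f := minpoly.irreducible (isInt F α)
  set G : Qb[X] := ∑ i, C (b i) * X ^ e i with hG
  have hdvd : f.map (algebraMap F Qb) ∣ G := by
    by_cases hG0 : G = 0
    · rw [hG0]; exact dvd_zero _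
    · apply (IsAlgClosed.splits _).dvd_of_roots_le_roots
        ((Polynomial.map_ne_zero_iff (algebraMap F Qb).injective).mpr hirr.ne_zero)
      rw [Multiset.le_iff_subset (nodup_roots hirr.separable.map)]
      intro β hβ
      have h1 := (mem_roots'.mp hβ).2
      rw [IsRoot.def, eval_map_algebraMap] at h1
      rw [mem_roots hG0, IsRoot.def, hG, eval_finsetSum]
      rw [← h β h1]
      refine Finset.sum_congr rfl fun i _ => ?_
      rw [eval_mul, eval_C, eval_pow, eval_X]
  obtain ⟨R, hR⟩ := hdvd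
  obtain ⟨l, hl⟩ : ∃ l : Qb →ₗ[F] F, l (b i0) ≠ 0 :=
    Module.Projective.exists_dual_ne_zero F hi0
  set c : Fin k → F := fun i => l (b i) with hc
  refine ⟨c, fun h0 => hl (congrFun h0 i0), ?_⟩
  set Rl : F[X] := ∑ n ∈ R.support, C (l (R.coeff n)) * X ^ n with hRl
  have hRlc : ∀ n, Rl.coeff n = l (R.coeff n) := by
    intro n
    rw [hRl, finsetSum_coeff]
    simp only [coeff_C_mul_X_pow]
    rw [Finset.sum_ite_eq]
    by_cases h : n ∈ R.support
    · rw [if_pos h]
    · rw [if_neg h, Polynomial.notMem_support_iff.mp h, map_zero]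
  have hGl : (∑ i, C (c i) * X ^ e i : F[X]) = f * Rl := by
    ext n
    have h1 : (∑ i, C (c i) * X ^ e i : F[X]).coeff n = l (G.coeff n) := by
      rw [finsetSum_coeff, hG, finsetSum_coeff, map_sum]
      refine Finset.sum_congr rfl fun i _ => ?_
      rw [coeff_C_mul_X_pow, coeff_C_mul_X_pow]
      split_ifs
      · rfl
      · rw [map_zero]
    rw [h1, hR, coeff_mul, coeff_mul, map_sum]
    congr 1
    refine Finset.sum_congr rfl fun q _ => ?_
    rw [coeff_map, hRlc, ← Algebra.smul_def, map_smul, smul_eq_mul]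
  have h2 : aeval α (∑ i, C (c i) * X ^ e i : F[X]) = 0 := by
    rw [hGl, map_mul, hf, minpoly.aeval, zero_mul]
  rw [map_sum] at h2
  rw [← h2]
  refine Finset.sum_congr rfl fun i _ => ?_
  rw [map_mul, aeval_C, map_pow, aeval_X]
  rfl

/-- modulo `N` (raised to the power `1 / q`), at every place above `N`, the number `α` is a
root of a polynomial with exponents `e i` -/
def LocalRel (N q : ℕ) {k : ℕ} (α : Qb) (e : Fin k → ℕ) (E : ℕ) : Prop :=
  ∀ V : ValuationSubring Qb, V.valuation (N : Qb) < 1 → ∃ (a : Fin k → F) (i0 : Fin k),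
    a i0 ≠ 0 ∧ (∀ i, V.valuation (a i : Qb) ≤ V.valuation (a i0 : Qb)) ∧
    ∀ β : Qb, aeval β (minpoly F α) = 0 →
      V.valuation (∑ i, (a i : Qb) * β ^ e i) ^ q ≤
        V.valuation (N : Qb) * (V.valuation (a i0 : Qb) * max 1 (V.valuation β) ^ E) ^ q

/-- **one step** -/
theorem step {N q : ℕ} (hadm : Adm N q) {k : ℕ} (R : ℝ) (hR : 0 < R) (hk : R * had k ≤ N) (α : Qb)
    (e : Fin k → ℕ) (E : ℕ) (he : ∀ i, e i ≤ E) (hL : LocalRel F N q α e E) :
    Real.log R ≤ (q * E : ℝ) * (k * ht α) ∨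
      ∃ c : Fin k → F, c ≠ 0 ∧ ∑ i, (c i : Qb) * α ^ (q * e i) = 0 := by
  rcases rank_or (fun (β : {β : Qb // aeval β (minpoly F α) = 0}) (i : Fin k) =>
    (β : Qb) ^ (q * e i)) with ⟨b, hb, hrel⟩ | ⟨x, hx⟩
  · right
    exact descend F α (fun i => q * e i) b hb fun β hβ => hrel ⟨β, hβ⟩
  · left
    have key := core_q hadm (ι := Fin k) R hR (by rw [Fintype.card_fin]; exact hk) e E he
      (fun j => (x j : Qb)) ?_ hx
    · rw [Finset.sum_congr rfl fun j _ => ht_root F α (x j : Qb) (x j).2, Finset.sum_const,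
        Finset.card_univ, Fintype.card_fin, nsmul_eq_mul] at key
      exact key
    · intro V hVp
      obtain ⟨a, i0, ha0, hi0, h⟩ := hL V hVp
      exact ⟨fun i => (a i : Qb), i0, fun h0 => ha0 (Subtype.ext h0), hi0,
        fun j => h (x j) (x j).2⟩

/-- an exact relation over `F` is a local relation for every modulus -/
lemma localRel_of_eq (N q : ℕ) {k : ℕ} (α : Qb) (e : Fin k → ℕ) (E : ℕ) (c : Fin k → F)
    (hc : c ≠ 0) (h : ∑ i, (c i : Qb) * α ^ e i = 0) (hq : q ≠ 0) : LocalRel F N q α e E := by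
  intro V _
  obtain ⟨i1, hi1⟩ : ∃ i, c i ≠ 0 := by
    by_contra hcon
    push Not at hcon
    exact hc (funext hcon)
  have : Nonempty (Fin k) := ⟨i1⟩
  obtain ⟨i0, hi0⟩ := Finite.exists_max fun i => V.valuation (c i : Qb)
  refine ⟨c, i0, ?_, hi0, ?_⟩
  · intro h0
    have h1 := hi0 i1
    simp only [h0] at h1
    have h2 : V.valuation ((0 : F) : Qb) = 0 := by rw [Valuation.zero_iff]; rfl
    rw [h2, le_zero_iff, Valuation.zero_iff] at h1
    exact hi1 (Subtype.ext h1)
  · intro β hβ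
    have h1 : aeval α (∑ i, C (c i) * X ^ e i : F[X]) = 0 := by
      rw [map_sum, ← h]
      refine Finset.sum_congr rfl fun i _ => ?_
      rw [map_mul, aeval_C, map_pow, aeval_X]
      rfl
    obtain ⟨R, hR⟩ := minpoly.dvd F α h1
    have h2 : ∑ i, (c i : Qb) * β ^ e i = 0 := by
      have h3 : aeval β (∑ i, C (c i) * X ^ e i : F[X]) = 0 := by
        rw [hR, map_mul, hβ, zero_mul]
      rw [← h3, map_sum]
      refine Finset.sum_congr rfl fun i _ => ?_
      rw [map_mul, aeval_C, map_pow, aeval_X]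
      rfl
    rw [h2, map_zero, zero_pow hq]
    exact zero_le

end Pool.Agent.W5h73.SP
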