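import Mathlib

set_option autoImplicit false

/-!
# Linear dependence of powers and derivations

If `δ` is a derivation over `K` and the logarithmic derivatives of `t 0, …, t (k - 1)` are pairwise
distinct, then the powers `t i ^ n` are linearly independent over `K` for all but finitely many `n`.
-/

namespace Pool.Agent.W5h73.SP

open Polynomial

section

variable {K L : Type*} [Field K] [Field L] [Algebra K L] (δ : Derivation K L L)

/-- apply a derivation to all coefficients -/
noncomputable def dc (q : L[X]) : L[X] := ∑ n ∈ q.support, C (δ (q.coeff n)) * X ^ n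

lemma coeff_dc (q : L[X]) (n : ℕ) : (dc δ q).coeff n = δ (q.coeff n) := by
  classical
  rw [dc, finsetSum_coeff]
  simp only [coeff_C_mul_X_pow]
  rw [Finset.sum_ite_eq]
  by_cases h : n ∈ q.support
  · rw [if_pos h]
  · rw [if_neg h, Polynomial.notMem_support_iff.mp h, map_zero]

lemma eval_dc (q : L[X]) (n : ℕ) : (dc δ q).eval (n : L) = δ (q.eval (n : L)) := by
  classical
  rw [dc, eval_finsetSum, eval_eq_sum, Polynomial.sum, map_sum]
  refine Finset.sum_congr rfl fun m _ => ?_
  rw [eval_mul, eval_C, eval_pow, eval_X, Derivation.leibniz]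
  have h1 : δ ((n : L) ^ m) = 0 := by
    have : ((n : L) ^ m) = ((n ^ m : ℕ) : L) := by push_cast; rfl
    rw [this]
    exact Derivation.map_natCast δ _
  rw [h1, smul_zero, zero_add, smul_eq_mul, mul_comm]

/-- the polynomials `Q j` with `δ ^ j (t ^ n) = t ^ n * Q j (n)` -/
noncomputable def QQ (l : L) : ℕ → L[X]
  | 0 => 1
  | j + 1 => dc δ (QQ l j) + C l * X * QQ l j

lemma natDegree_QQ (l : L) (j : ℕ) : (QQ δ l j).natDegree ≤ j ∧ (QQ δ l j).coeff j = l ^ j := by
  induction j with
  | zero => exact ⟨by simp [QQ], by simp [QQ]⟩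
  | succ j ih =>
    have h1 : (dc δ (QQ δ l j)).natDegree ≤ j := by
      rw [natDegree_le_iff_coeff_eq_zero]
      intro n hn
      rw [coeff_dc, coeff_eq_zero_of_natDegree_lt (lt_of_le_of_lt ih.1 hn), map_zero]
    have h2 : (C l * X * QQ δ l j).natDegree ≤ 1 + j := by
      refine natDegree_mul_le.trans ?_
      refine Nat.add_le_add ?_ ih.1
      exact (natDegree_C_mul_le l X).trans natDegree_X_le
    refine ⟨?_, ?_⟩
    · rw [QQ]
      refine (natDegree_add_le _ _).trans (max_le (by omega) (by omega))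
    · rw [QQ, coeff_add, coeff_eq_zero_of_natDegree_lt (lt_of_le_of_lt h1 (Nat.lt_succ_self j)),
        zero_add, mul_assoc, coeff_C_mul, coeff_X_mul, ih.2, pow_succ']

lemma iter_pow (x : L) (hx : x ≠ 0) (n j : ℕ) :
    (δ : L → L)^[j] (x ^ n) = x ^ n * (QQ δ (δ x / x) j).eval (n : L) := by
  induction j with
  | zero => simp [QQ]
  | succ j ih =>
    rw [Function.iterate_succ_apply', ih, Derivation.leibniz, ← eval_dc, Derivation.leibniz_pow,
      QQ, eval_add, eval_mul, eval_mul, eval_C, eval_X]
    simp only [smul_eq_mul, nsmul_eq_mul]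
    rcases Nat.eq_zero_or_pos n with rfl | hn
    · simp
    · obtain ⟨m, rfl⟩ := Nat.exists_eq_succ_of_ne_zero hn.ne'
      simp only [Nat.succ_sub_one, Nat.succ_eq_add_one, pow_succ]
      field_simp

lemma iter_sum {ι : Type*} [Fintype ι] (b : ι → K) (y : ι → L) (j : ℕ) :
    (δ : L → L)^[j] (∑ i, algebraMap K L (b i) * y i) =
      ∑ i, algebraMap K L (b i) * (δ : L → L)^[j] (y i) := by
  induction j with
  | zero => rfl
  | succ j ih =>
    rw [Function.iterate_succ_apply', ih, map_sum]
    refine Finset.sum_congr rfl fun i _ => ?_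
    rw [Function.iterate_succ_apply', Derivation.leibniz, Derivation.map_algebraMap, smul_zero,
      add_zero, smul_eq_mul]

/-- the coefficient of a product of polynomials of bounded degrees -/
lemma coeff_prod_le {ι : Type*} (s : Finset ι) (g : ι → L[X]) (d : ι → ℕ)
    (h : ∀ i ∈ s, (g i).natDegree ≤ d i) :
    (∏ i ∈ s, g i).natDegree ≤ ∑ i ∈ s, d i ∧
      (∏ i ∈ s, g i).coeff (∑ i ∈ s, d i) = ∏ i ∈ s, (g i).coeff (d i) := by
  classical
  induction s using Finset.induction with
  | empty => simp
  | insert a s ha ih =>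
    obtain ⟨ih1, ih2⟩ := ih fun i hi => h i (Finset.mem_insert_of_mem hi)
    have h1 := h a (Finset.mem_insert_self _ _)
    rw [Finset.prod_insert ha, Finset.sum_insert ha, Finset.prod_insert ha]
    refine ⟨natDegree_mul_le.trans (Nat.add_le_add h1 ih1), ?_⟩
    rw [coeff_mul_add_eq_of_natDegree_le h1 ih1, ih2]

/-- **the Wronskian argument** -/
theorem finite_dependent [CharZero L] {k : ℕ} (t : Fin k → L) (ht : ∀ i, t i ≠ 0)
    (hδ : Function.Injective fun i => δ (t i) / t i) :
    {n : ℕ | ∃ b : Fin k → K, b ≠ 0 ∧ ∑ i, algebraMap K L (b i) * t i ^ n = 0}.Finite := by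
  classical
  set l : Fin k → L := fun i => δ (t i) / t i with hl
  set M : Matrix (Fin k) (Fin k) L[X] := Matrix.of fun i j => QQ δ (l i) (j : ℕ) with hM
  have hdet : M.det ≠ 0 := by
    intro h0
    have h1 : M.det.coeff (∑ j : Fin k, (j : ℕ)) = (Matrix.vandermonde l).det := by
      rw [Matrix.det_apply', Matrix.det_apply', finsetSum_coeff]
      refine Finset.sum_congr rfl fun σ _ => ?_
      have h2 : (((Equiv.Perm.sign σ : ℤ) : L[X])) = C ((Equiv.Perm.sign σ : ℤ) : L) := by simp
      rw [h2, coeff_C_mul]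
      congr 1
      have h3 := coeff_prod_le Finset.univ (fun i => M (σ i) i) (fun i : Fin k => (i : ℕ))
        (fun i _ => (natDegree_QQ δ (l (σ i)) i).1)
      rw [h3.2]
      refine Finset.prod_congr rfl fun i _ => ?_
      rw [Matrix.vandermonde_apply]
      exact (natDegree_QQ δ (l (σ i)) i).2
    rw [h0, coeff_zero] at h1
    exact (Matrix.det_vandermonde_ne_zero_iff.mpr hδ) h1.symm
  have hfin : (M.det.rootSet L).Finite := by
    exact rootSet_finite _ _
  have hfin2 : {n : ℕ | M.det.eval (n : L) = 0}.Finite := by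
    apply Set.Finite.subset (hfin.preimage (Nat.cast_injective.injOn) (f := fun n : ℕ => (n : L)))
    intro n hn
    rw [Set.mem_preimage, mem_rootSet]
    exact ⟨hdet, by rw [coe_aeval_eq_eval]; exact hn⟩
  apply hfin2.subset
  rintro n ⟨b, hb, hrel⟩
  show M.det.eval (n : L) = 0
  set N : Matrix (Fin k) (Fin k) L := Matrix.of fun i j => (QQ δ (l i) (j : ℕ)).eval (n : L)
    with hN
  have h1 : M.det.eval (n : L) = N.det := by
    rw [← coe_evalRingHom, RingHom.map_det]
    congr 1
  rw [h1]
  rw [← Matrix.exists_vecMul_eq_zero_iff]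
  refine ⟨fun i => algebraMap K L (b i) * t i ^ n, ?_, ?_⟩
  · intro h
    apply hb
    funext i
    have h2 := congrFun h i
    simp only [Pi.zero_apply, mul_eq_zero, pow_eq_zero_iff', ht i, false_and, or_false,
      map_eq_zero] at h2
    exact h2
  · funext j
    rw [Matrix.vecMul, dotProduct, Pi.zero_apply]
    have h2 := iter_sum δ b (fun i => t i ^ n) j
    rw [hrel] at h2
    have h3 : (δ : L → L)^[(j : ℕ)] 0 = 0 := by
      induction (j : ℕ) with
      | zero => rfl
      | succ m ihm => rw [Function.iterate_succ_apply', ihm, map_zero]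
    rw [h3] at h2
    rw [h2]
    refine Finset.sum_congr rfl fun i _ => ?_
    rw [iter_pow δ (t i) (ht i) n j, hN, Matrix.of_apply]
    ring

end

end Pool.Agent.W5h73.SP
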