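import Mathlib
import Pool.Agent.W5h73.SP.Step
import Pool.Agent.W5h73.SP.Wron
import Pool.Agent.W5h73.SP.Der

set_option autoImplicit false

/-!
# Uniformity: the ultraproduct argument
-/

namespace Pool.Agent.W5h73.SP

open Polynomial Filter
open Pool.Agent.H58P (Qb ht qb_isIntegral)

/-- the ultrapower -/
abbrev KK (U : Ultrafilter ℕ) : Type := Filter.Germ (U : Filter ℕ) Qb

variable (U : Ultrafilter ℕ)

/-- the ring homomorphism from sequences to germs -/
noncomputable abbrev cc : (ℕ → Qb) →+* KK U := Filter.Germ.coeRingHom (U : Filter ℕ)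

lemma cc_eq_zero (f : ℕ → Qb) : cc U f = 0 ↔ ∀ᶠ n in (U : Filter ℕ), f n = 0 := by
  have : cc U f = 0 ↔ (f : KK U) = ((0 : ℕ → Qb) : KK U) := Iff.rfl
  rw [this, Germ.coe_eq]
  rfl

instance : CharZero (KK U) := by
  have hinj : Function.Injective ((cc U).comp (Pi.constRingHom ℕ Qb)) :=
    RingHom.injective _
  exact charZero_of_injective_ringHom hinj

/-- the ultraproduct of the fields `F n` -/
noncomputable def FF (F : ℕ → IntermediateField ℚ Qb) : Subfield (KK U) where
  carrier := {x | ∃ f : ℕ → Qb, (∀ n, f n ∈ F n) ∧ x = cc U f}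
  mul_mem' := by
    rintro _ _ ⟨f, hf, rfl⟩ ⟨g, hg, rfl⟩
    exact ⟨f * g, fun n => mul_mem (hf n) (hg n), (map_mul _ _ _).symm⟩
  one_mem' := ⟨1, fun n => one_mem _, (map_one _).symm⟩
  add_mem' := by
    rintro _ _ ⟨f, hf, rfl⟩ ⟨g, hg, rfl⟩
    exact ⟨f + g, fun n => add_mem (hf n) (hg n), (map_add _ _ _).symm⟩
  zero_mem' := ⟨0, fun n => zero_mem _, (map_zero _).symm⟩
  neg_mem' := by
    rintro _ ⟨f, hf, rfl⟩
    exact ⟨-f, fun n => neg_mem (hf n), (map_neg _ _).symm⟩
  inv_mem' := by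
    rintro _ ⟨f, hf, rfl⟩
    exact ⟨f⁻¹, fun n => inv_mem (hf n), rfl⟩

/-- an element which is algebraic over the ultraproduct has bounded degree -/
lemma bounded_of_algebraic (F : ℕ → IntermediateField ℚ Qb) (g : ℕ → Qb)
    (h : IsAlgebraic (FF U F) (cc U g)) :
    ∃ N : ℕ, ∀ᶠ n in (U : Filter ℕ), (minpoly (F n) (g n)).natDegree ≤ N := by
  obtain ⟨P, hPm, hP⟩ := h.isIntegral
  have hcoef : ∀ i, ∃ f : ℕ → Qb, (∀ n, f n ∈ F n) ∧ ((P.coeff i : FF U F) : KK U) = cc U f :=
    fun i => (P.coeff i).2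
  choose f hf hfc using hcoef
  refine ⟨P.natDegree, ?_⟩
  have h1 : cc U (fun n => ∑ i ∈ Finset.range (P.natDegree + 1), f i n * g n ^ i) = 0 := by
    have h2 : cc U (fun n => ∑ i ∈ Finset.range (P.natDegree + 1), f i n * g n ^ i) =
        ∑ i ∈ Finset.range (P.natDegree + 1), cc U (f i) * cc U g ^ i := by
      rw [← Finset.sum_congr rfl fun i _ => by rw [← map_pow, ← map_mul], ← map_sum]
      congr 1
      funext n
      simp
    rw [h2, ← hP, eval₂_eq_sum_range]
    refine Finset.sum_congr rfl fun i _ => ?_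
    rw [← hfc]
    rfl
  have h2 : cc U (f P.natDegree - 1) = 0 := by
    rw [map_sub, ← hfc, map_one, hPm.coeff_natDegree]
    simp
  rw [cc_eq_zero] at h1 h2
  filter_upwards [h1, h2] with n hn1 hn2
  have hn2' : f P.natDegree n = 1 := by
    have : f P.natDegree n - 1 = 0 := hn2
    linear_combination this
  set p : (F n)[X] := ∑ i ∈ Finset.range (P.natDegree + 1), C (⟨f i n, hf i n⟩ : F n) * X ^ i with hp
  have hpc : p.coeff P.natDegree = 1 := by
    rw [hp, finsetSum_coeff]
    simp only [coeff_C_mul_X_pow]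
    rw [Finset.sum_ite_eq, if_pos (Finset.self_mem_range_succ _)]
    exact Subtype.ext hn2'
  have hp0 : p ≠ 0 := by
    intro h0
    rw [h0, coeff_zero] at hpc
    exact zero_ne_one hpc
  have hproot : aeval (g n) p = 0 := by
    rw [hp, map_sum, ← hn1]
    refine Finset.sum_congr rfl fun i _ => ?_
    rw [map_mul, aeval_C, map_pow, aeval_X]
    rfl
  have hpd : p.natDegree ≤ P.natDegree := by
    rw [natDegree_le_iff_coeff_eq_zero]
    intro m hm
    rw [hp, finsetSum_coeff]
    simp only [coeff_C_mul_X_pow]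
    rw [Finset.sum_ite_eq, if_neg]
    rw [Finset.mem_range]
    omega
  exact (natDegree_le_of_dvd (minpoly.dvd (F n) (g n) hproot) hp0).trans hpd

/-- linear dependence passes to the ultraproduct -/
lemma dep_of_eventually (F : ℕ → IntermediateField ℚ Qb) {k : ℕ} (T : Fin k → ℕ → Qb)
    (h : ∀ᶠ n in (U : Filter ℕ), ∃ c : Fin k → F n, c ≠ 0 ∧ ∑ i, (c i : Qb) * T i n = 0) :
    ∃ b : Fin k → FF U F, b ≠ 0 ∧ ∑ i, algebraMap (FF U F) (KK U) (b i) * cc U (T i) = 0 := by
  classical
  let c : ∀ n, Fin k → F n := fun n =>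
    if hn : ∃ c : Fin k → F n, c ≠ 0 ∧ ∑ i, (c i : Qb) * T i n = 0 then hn.choose else 0
  have hc : ∀ᶠ n in (U : Filter ℕ), c n ≠ 0 ∧ ∑ i, (c n i : Qb) * T i n = 0 := by
    filter_upwards [h] with n hn
    have : c n = hn.choose := dif_pos hn
    rw [this]
    exact hn.choose_spec
  refine ⟨fun i => ⟨cc U (fun n => (c n i : Qb)), fun n => (c n i : Qb), fun n => (c n i).2, rfl⟩,
    ?_, ?_⟩
  · intro h0
    have h1 : ∀ i, ∀ᶠ n in (U : Filter ℕ), (c n i : Qb) = 0 := by
      intro i
      have h2 := congrArg Subtype.val (congrFun h0 i)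
      exact (cc_eq_zero U _).mp h2
    have h2 : ∀ᶠ n in (U : Filter ℕ), ∀ i, (c n i : Qb) = 0 := eventually_all.mpr h1
    obtain ⟨n, hn1, hn2⟩ := (h2.and hc).exists
    apply hn2.1
    funext i
    exact Subtype.ext (hn1 i)
  · have h1 : ∑ i, algebraMap (FF U F) (KK U)
        (⟨cc U (fun n => (c n i : Qb)), fun n => (c n i : Qb), fun n => (c n i).2, rfl⟩ : FF U F) *
        cc U (T i) = cc U (fun n => ∑ i, (c n i : Qb) * T i n) := by
      have h2 : (fun n => ∑ i, (c n i : Qb) * T i n) =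
          ∑ i, (fun n => (c n i : Qb)) * T i := by
        funext n
        simp
      rw [h2, map_sum]
      refine Finset.sum_congr rfl fun i _ => ?_
      rw [map_mul]
      rfl
    rw [h1, cc_eq_zero]
    filter_upwards [hc] with n hn using hn.2

lemma natDegree_minpoly_inv (F : IntermediateField ℚ Qb) (x : Qb) :
    (minpoly F x⁻¹).natDegree = (minpoly F x).natDegree := by
  rw [← IntermediateField.adjoin.finrank (isInt F x⁻¹), ← IntermediateField.adjoin.finrank (isInt F x)]
  have h : IntermediateField.adjoin F {x⁻¹} = IntermediateField.adjoin F {x} := by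
    apply le_antisymm
    · rw [IntermediateField.adjoin_simple_le_iff]
      exact inv_mem (IntermediateField.mem_adjoin_simple_self F x)
    · rw [IntermediateField.adjoin_simple_le_iff]
      have := inv_mem (IntermediateField.mem_adjoin_simple_self F x⁻¹)
      rwa [inv_inv] at this
  rw [h]

/-- **the uniform statement** -/
theorem main_uniform (k N q : ℕ) (hadm : Adm N q) (hk : had k < N) :
    ∃ c : ℝ, 0 < c ∧ ∃ B : ℕ, ∀ (F : IntermediateField ℚ Qb) (α : Qb), α ≠ 0 →
      ∀ e : Fin k → ℕ, Function.Injective e → ∀ E : ℕ, (∀ i, e i ≤ E) → LocalRel F N q α e E →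
        c ≤ E * ht α ∨ ∃ m : ℕ, 0 < m ∧ (minpoly F (α ^ m)).natDegree ≤ B := by
  by_contra hcon
  push Not at hcon
  have hpos : ∀ n : ℕ, (0 : ℝ) < 1 / ((n : ℝ) + 1) := fun n => by positivity
  choose F α hα e he E heE hL hsmall hbig using fun n : ℕ => hcon (1 / ((n : ℝ) + 1)) (hpos n) n
  let U : Ultrafilter ℕ := hyperfilter ℕ
  have hU : ∀ P : ℕ → Prop, (∀ᶠ n in atTop, P n) → ∀ᶠ n in (U : Filter ℕ), P n := by
    intro P hP
    rw [← Nat.cofinite_eq_atTop] at hP
    exact hyperfilter_le_cofinite hP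
  have hlog2 : (0 : ℝ) < Real.log 2 := Real.log_pos (by norm_num)
  -- large multiples of the height are still small
  have hev : ∀ δ : ℝ, 0 < δ → ∀ A : ℝ, 0 ≤ A → ∀ᶠ n in (U : Filter ℕ),
      A * (E n * ht (α n)) < δ := by
    intro δ hlog A hA
    apply hU
    obtain ⟨N, hN⟩ := exists_nat_gt (A / δ)
    filter_upwards [eventually_ge_atTop N] with n hn
    have h1 : A < δ * ((n : ℝ) + 1) := by
      rw [div_lt_iff₀ hlog] at hN
      have : (N : ℝ) ≤ n := by exact_mod_cast hn
      nlinarith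
    have hht : 0 ≤ E n * ht (α n) :=
      mul_nonneg (Nat.cast_nonneg _) (Pool.Agent.Helper259.AbsHt.absLogHeight_nonneg _)
    calc A * (E n * ht (α n)) ≤ A * (1 / ((n : ℝ) + 1)) :=
          mul_le_mul_of_nonneg_left (hsmall n).le hA
      _ = A / ((n : ℝ) + 1) := by ring
      _ < δ := by
          rw [div_lt_iff₀ (by positivity)]
          exact h1
  set R : ℝ := N / had k with hR
  have hR1 : 1 < R := by
    rw [hR, one_lt_div (had_pos k)]
    exact hk
  have hRk : R * had k ≤ N := by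
    rw [hR, div_mul_cancel₀ _ (had_pos k).ne']
  obtain ⟨l₀, hl₀⟩ := exists_nat_ge (2 * had k)
  -- the elements
  set T : Fin k → ℕ → Qb := fun i n => α n ^ (q * e n i) with hT
  -- the first relation
  have hrel1 : ∀ᶠ n in (U : Filter ℕ), ∃ c : Fin k → F n, c ≠ 0 ∧ ∑ i, (c i : Qb) * T i n = 0 := by
    filter_upwards [hev (Real.log R) (Real.log_pos hR1) ((q : ℕ) * k) (by positivity)] with n hn
    rcases step (F n) hadm R (by linarith) hRk (α n) (e n) (E n) (heE n) (hL n) with h | h
    · exfalso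
      have : (q * E n : ℝ) * (k * ht (α n)) = (q : ℕ) * k * (E n * ht (α n)) := by ring
      linarith
    · exact h
  -- the relations for large primes
  have hrel2 : ∀ l : ℕ, l.Prime → l₀ ≤ l → ∀ᶠ n in (U : Filter ℕ),
      ∃ c : Fin k → F n, c ≠ 0 ∧ ∑ i, (c i : Qb) * (T i ^ l) n = 0 := by
    intro l hl hkl
    filter_upwards [hrel1, hev (Real.log 2) hlog2 ((l : ℕ) * (q : ℕ) * k) (by positivity)]
      with n hn1 hn2
    obtain ⟨c, hc, hc0⟩ := hn1
    have hL2 := localRel_of_eq (F n) l l (α n) (fun i => q * e n i) (q * E n) c hc hc0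
      hl.ne_zero
    rcases step (F n) (Or.inr ⟨hl, 1, (pow_one l).symm⟩) 2 two_pos
      (hl₀.trans (by exact_mod_cast hkl)) (α n) _ _
      (fun i => Nat.mul_le_mul_left _ (heE n i)) hL2 with h | h
    · exfalso
      have : ((l : ℕ) * (q * E n : ℕ) : ℝ) * (k * ht (α n)) =
          (l : ℕ) * (q : ℕ) * k * (E n * ht (α n)) := by push_cast; ring
      linarith
    · obtain ⟨c', hc', hc0'⟩ := h
      refine ⟨c', hc', ?_⟩
      rw [← hc0']
      refine Finset.sum_congr rfl fun i _ => ?_
      rw [Pi.pow_apply, hT, ← pow_mul, mul_comm l]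
  -- the germs
  set τ : Fin k → KK U := fun i => cc U (T i) with hτ
  have hτ0 : ∀ i, τ i ≠ 0 := by
    intro i h0
    rw [hτ] at h0
    obtain ⟨n, hn⟩ := ((cc_eq_zero U _).mp h0).exists
    exact pow_ne_zero _ (hα n) hn
  have htr : ∀ i j, i ≠ j → Transcendental (FF U F) (τ i / τ j) := by
    intro i j hij halg
    have h1 : τ i / τ j = cc U (fun n => T i n / T j n) := rfl
    rw [h1] at halg
    obtain ⟨N, hN⟩ := bounded_of_algebraic U F _ halg
    obtain ⟨n, hn1, hn2⟩ := (hN.and (hU _ (eventually_ge_atTop N))).exists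
    have hpt : 0 < q := hadm.pos
    rcases lt_or_gt_of_ne (fun h => hij (he n h)) with hlt | hlt
    · have h2 : T i n / T j n = (α n ^ (q * (e n j - e n i)))⁻¹ := by
        have h3 : q * e n j = q * e n i + q * (e n j - e n i) := by
          rw [← Nat.mul_add]; congr 1; omega
        rw [hT]
        simp only
        rw [h3, pow_add]
        have := hα n
        field_simp
      rw [h2, natDegree_minpoly_inv] at hn1
      have h4 := hbig n (q * (e n j - e n i)) (Nat.mul_pos hpt (by omega))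
      omega
    · have h2 : T i n / T j n = α n ^ (q * (e n i - e n j)) := by
        have h3 : q * e n i = q * e n j + q * (e n i - e n j) := by
          rw [← Nat.mul_add]; congr 1; omega
        rw [hT]
        simp only
        rw [h3, pow_add]
        have := hα n
        field_simp
      rw [h2] at hn1
      have h4 := hbig n (q * (e n i - e n j)) (Nat.mul_pos hpt (by omega))
      omega
  obtain ⟨δ, hδ⟩ := exists_logDeriv_injective (K := FF U F) τ hτ0 htr
  have hfin := finite_dependent (K := FF U F) δ τ hτ0 hδ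
  apply (Nat.infinite_setOfPred_prime).sdiff (Set.finite_lt_nat l₀)
  apply hfin.subset
  rintro l ⟨hl, hl2⟩
  have hl3 : l₀ ≤ l := not_lt.mp hl2
  obtain ⟨b, hb, hb0⟩ := dep_of_eventually U F (fun i => T i ^ l) (hrel2 l hl hl3)
  refine ⟨b, hb, ?_⟩
  rw [← hb0]
  refine Finset.sum_congr rfl fun i _ => ?_
  rw [map_pow]

end Pool.Agent.W5h73.SP
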