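import Mathlib
import Pool.Agent.W5h73.SP.GStep
import Pool.Agent.W5h73.SP.Ultra

set_option autoImplicit false

/-!
# Uniformity for monomials with radical coefficients
-/

namespace Pool.Agent.W5h73.SP

open Polynomial Filter
open Pool.Agent.H58P (Qb ht qb_isIntegral)

/-- **the uniform statement** -/
theorem main_w (k N q : ℕ) (hadm : Adm N q) (hk : had k < N) :
    ∃ c : ℝ, 0 < c ∧ ∃ B : ℕ, ∀ (F : IntermediateField ℚ Qb) (θ : Fin k → Qb), (∀ i, θ i ≠ 0) →
      (∀ i, ∀ σ : Qb ≃ₐ[F] Qb, ∃ n : ℕ, 0 < n ∧ (σ (θ i) / θ i) ^ n = 1) →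
      ∀ (e : Fin k → ℕ) (E : ℕ), (∀ i, e i ≤ E) → ∀ α : Qb, α ≠ 0 → LocalRelW F N q θ e E α →
        c ≤ E * ht α ∨ ∃ i j, i ≠ j ∧
          (minpoly F ((θ i * α ^ e i) ^ q / (θ j * α ^ e j) ^ q)).natDegree ≤ B := by
  by_contra hcon
  push Not at hcon
  have hpos : ∀ n : ℕ, (0 : ℝ) < 1 / ((n : ℝ) + 1) := fun n => by positivity
  choose F θ hθ htor e E heE α hα hL hsmall hbig using
    fun n : ℕ => hcon (1 / ((n : ℝ) + 1)) (hpos n) n
  let U : Ultrafilter ℕ := hyperfilter ℕ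
  have hU : ∀ P : ℕ → Prop, (∀ᶠ n in atTop, P n) → ∀ᶠ n in (U : Filter ℕ), P n := by
    intro P hP
    rw [← Nat.cofinite_eq_atTop] at hP
    exact hyperfilter_le_cofinite hP
  have hlog2 : (0 : ℝ) < Real.log 2 := Real.log_pos (by norm_num)
  -- large multiples of the height are still small
  have hev : ∀ δ : ℝ, 0 < δ → ∀ A : ℝ, 0 ≤ A → ∀ᶠ n in (U : Filter ℕ),
      A * (E n * ht (α n)) < δ := by
    intro δ hlog A hA
    apply hU
    obtain ⟨N, hN⟩ := exists_nat_gt (A / δ)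
    filter_upwards [eventually_ge_atTop N] with n hn
    have h1 : A < δ * ((n : ℝ) + 1) := by
      rw [div_lt_iff₀ hlog] at hN
      have : (N : ℝ) ≤ n := by exact_mod_cast hn
      nlinarith
    calc A * (E n * ht (α n)) ≤ A * (1 / ((n : ℝ) + 1)) :=
          mul_le_mul_of_nonneg_left (hsmall n).le hA
      _ = A / ((n : ℝ) + 1) := by ring
      _ < δ := by
          rw [div_lt_iff₀ (by positivity)]
          exact h1
  set R : ℝ := N / had k with hR
  have hR1 : 1 < R := by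
    rw [hR, one_lt_div (had_pos k)]
    exact hk
  have hRk : R * had k ≤ N := by
    rw [hR, div_mul_cancel₀ _ (had_pos k).ne']
  obtain ⟨l₀, hl₀⟩ := exists_nat_ge (2 * had k)
  -- the elements
  set T : Fin k → ℕ → Qb := fun i n => (θ n i * α n ^ e n i) ^ q with hT
  -- the first relation
  have hrel1 : ∀ᶠ n in (U : Filter ℕ), ∃ c : Fin k → F n, c ≠ 0 ∧ ∑ i, (c i : Qb) * T i n = 0 := by
    filter_upwards [hev (Real.log R) (Real.log_pos hR1) ((q : ℕ) * k) (by positivity)] with n hn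
    rcases step_w (F n) hadm R (by linarith) hRk (θ n) (hθ n) (htor n) (e n) (E n) (heE n) (α n)
      (hL n) with h | h
    · exfalso
      have : (q * E n : ℝ) * (k * ht (α n)) = (q : ℕ) * k * (E n * ht (α n)) := by ring
      linarith
    · exact h
  -- the relations for large primes
  have hrel2 : ∀ l : ℕ, l.Prime → l₀ ≤ l → ∀ᶠ n in (U : Filter ℕ),
      ∃ c : Fin k → F n, c ≠ 0 ∧ ∑ i, (c i : Qb) * (T i ^ l) n = 0 := by
    intro l hl hkl
    filter_upwards [hrel1, hev (Real.log 2) hlog2 ((l : ℕ) * (q : ℕ) * k) (by positivity)]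
      with n hn1 hn2
    obtain ⟨c, hc, hc0⟩ := hn1
    have hL2 := localRelW_of_eq (F n) l q l hl.ne_zero (θ n) (hθ n) (e n) (q * E n) (α n) c hc hc0
    rcases step_w (F n) (Or.inr ⟨hl, 1, (pow_one l).symm⟩) 2 two_pos
      (hl₀.trans (by exact_mod_cast hkl)) (fun i => θ n i ^ q) (fun i => pow_ne_zero _ (hθ n i))
      (fun i σ => by
        obtain ⟨m, hm, h⟩ := htor n i σ
        refine ⟨m, hm, ?_⟩
        rw [map_pow, ← div_pow, ← pow_mul, mul_comm, pow_mul, h, one_pow])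
      (fun i => q * e n i) (q * E n)
      (fun i => Nat.mul_le_mul_left _ (heE n i)) (α n) hL2 with h | h
    · exfalso
      have : ((l : ℕ) * (q * E n : ℕ) : ℝ) * (k * ht (α n)) =
          (l : ℕ) * (q : ℕ) * k * (E n * ht (α n)) := by push_cast; ring
      linarith
    · obtain ⟨c', hc', hc0'⟩ := h
      refine ⟨c', hc', ?_⟩
      rw [← hc0']
      refine Finset.sum_congr rfl fun i _ => ?_
      rw [Pi.pow_apply, hT]
      simp only
      rw [mul_pow (θ n i), ← pow_mul (α n) (e n i), mul_comm (e n i)]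
  -- the germs
  set τ : Fin k → KK U := fun i => cc U (T i) with hτ
  have hτ0 : ∀ i, τ i ≠ 0 := by
    intro i h0
    rw [hτ] at h0
    obtain ⟨n, hn⟩ := ((cc_eq_zero U _).mp h0).exists
    exact pow_ne_zero _ (mul_ne_zero (hθ n i) (pow_ne_zero _ (hα n))) hn
  have htr : ∀ i j, i ≠ j → Transcendental (FF U F) (τ i / τ j) := by
    intro i j hij halg
    have h1 : τ i / τ j = cc U (fun n => T i n / T j n) := rfl
    rw [h1] at halg
    obtain ⟨N, hN⟩ := bounded_of_algebraic U F _ halg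
    obtain ⟨n, hn1, hn2⟩ := (hN.and (hU _ (eventually_ge_atTop N))).exists
    have h4 := hbig n i j hij
    have h5 : (minpoly (F n) ((θ n i * α n ^ e n i) ^ q / (θ n j * α n ^ e n j) ^ q)).natDegree ≤
      N := hn1
    omega
  obtain ⟨δ, hδ⟩ := exists_logDeriv_injective (K := FF U F) τ hτ0 htr
  have hfin := finite_dependent (K := FF U F) δ τ hτ0 hδ
  apply (Nat.infinite_setOfPred_prime).sdiff (Set.finite_lt_nat l₀)
  apply hfin.subset
  rintro l ⟨hl, hl2⟩
  have hl3 : l₀ ≤ l := not_lt.mp hl2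
  obtain ⟨b, hb, hb0⟩ := dep_of_eventually U F (fun i => T i ^ l) (hrel2 l hl hl3)
  refine ⟨b, hb, ?_⟩
  rw [← hb0]
  refine Finset.sum_congr rfl fun i _ => ?_
  rw [map_pow]

end Pool.Agent.W5h73.SP
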