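import Mathlib
import Pool.Agent.W5h73.SP.Main

set_option autoImplicit false

/-!
# The height bound for polynomials with few terms modulo `p`
-/

namespace Pool.Agent.W5h73.SP

open Polynomial
open Pool.Agent.H58P (Qb ht qb_isIntegral)

variable (F : IntermediateField ℚ Qb)

/-- the minimal polynomial of the `p`-th power -/
lemma map_minpoly_pow (α : Qb) (p : ℕ)
    (hinj : ∀ β β' : Qb, aeval β (minpoly F α) = 0 → aeval β' (minpoly F α) = 0 →
      β ^ p = β' ^ p → β = β') :
    (minpoly F (α ^ p)).map (algebraMap F Qb) = powPoly F α p := by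
  have hn : Normal F Qb := normal_iff.mpr fun x => ⟨isInt F x, IsAlgClosed.splits _⟩
  set g := minpoly F α with hg
  set h := minpoly F (α ^ p) with hh
  have hgirr : Irreducible g := minpoly.irreducible (isInt F α)
  have hhirr : Irreducible h := minpoly.irreducible (isInt F _)
  have hgm : g.Monic := minpoly.monic (isInt F α)
  have hhm : h.Monic := minpoly.monic (isInt F _)
  have hmemg : ∀ β : Qb, β ∈ (g.map (algebraMap F Qb)).roots ↔ aeval β g = 0 := by
    intro β
    rw [mem_roots (hgm.map _).ne_zero, IsRoot.def, eval_map_algebraMap]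
  have hmemh : ∀ β : Qb, β ∈ (h.map (algebraMap F Qb)).roots ↔ aeval β h = 0 := by
    intro β
    rw [mem_roots (hhm.map _).ne_zero, IsRoot.def, eval_map_algebraMap]
  have hroots : (h.map (algebraMap F Qb)).roots = (g.map (algebraMap F Qb)).roots.map (· ^ p) := by
    rw [Multiset.Nodup.ext (nodup_roots hhirr.separable.map)]
    · intro y
      rw [hmemh, Multiset.mem_map]
      constructor
      · intro hy
        have h1 : IsConjRoot F (α ^ p) y := (isConjRoot_iff_aeval_eq_zero (isInt F _)).mpr hy
        obtain ⟨σ, hσ⟩ := isConjRoot_iff_exists_algEquiv.mp h1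
        refine ⟨σ.symm α, ?_, ?_⟩
        · rw [hmemg, hg, aeval_algHom_apply, minpoly.aeval, map_zero]
        · show (σ.symm α) ^ p = y
          rw [← map_pow, ← hσ, AlgEquiv.symm_apply_apply]
      · rintro ⟨γ, hγ, rfl⟩
        rw [hmemg] at hγ
        have h1 : IsConjRoot F α γ := (isConjRoot_iff_aeval_eq_zero (isInt F _)).mpr hγ
        obtain ⟨σ, hσ⟩ := isConjRoot_iff_exists_algEquiv.mp h1
        have h2 : σ.symm (α ^ p) = γ ^ p := by
          rw [← hσ, map_pow, AlgEquiv.symm_apply_apply]
        show aeval (γ ^ p) h = 0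
        rw [← h2, hh, aeval_algHom_apply, minpoly.aeval, map_zero]
    · apply Multiset.Nodup.map_on _ (nodup_roots hgirr.separable.map)
      intro β hβ β' hβ' h1
      exact hinj β β' ((hmemg β).mp hβ) ((hmemg β').mp hβ') h1
  rw [powPoly, ← hg, ← hroots]
  exact (IsAlgClosed.splits _).eq_prod_roots_of_monic (hhm.map _)

/-- **few terms modulo `p`** -/
theorem few_terms {p k : ℕ} (hp : p.Prime) (hμ : ∀ y : Qb, y ^ p = 1 → y ∈ F)
    (hk : 2 * k.factorial ≤ p) (α : Qb) (hα : α ≠ 0) (S : Finset ℕ) (hS : S.card ≤ k)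
    (hF : Few F p α S)
    (hbig : ∀ m : ℕ, 0 < m → (2 * p) ^ (k - 2) < (minpoly F (α ^ m)).natDegree) :
    Real.log 2 ≤ (k * p ^ 2 : ℝ) * ((minpoly F α).natDegree * ht α) := by
  classical
  obtain ⟨n, hn, hexp, hgcd⟩ := exists_power F α
  set β : Qb := α ^ n with hβ
  set g := minpoly F β with hg
  have hβ0 : β ≠ 0 := pow_ne_zero _ hα
  have hgm : g.Monic := minpoly.monic (isInt F β)
  have hcf : ∀ i, (minpoly F α).coeff (n * i) = g.coeff i := by
    intro i
    rw [hexp, coeff_expand_mul' hn]
  set S1 : Finset ℕ := g.support.filter fun i => n * i ∈ S with hS1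
  have hS1card : S1.card ≤ k := by
    refine le_trans ?_ hS
    apply Finset.card_le_card_of_injOn (fun i => n * i)
    · intro i hi
      exact (Finset.mem_filter.mp hi).2
    · intro a _ b _ h
      exact Nat.eq_of_mul_eq_mul_left hn h
  have hFew : Few F p β S1 := by
    intro V hV i hi
    by_cases hgi : g.coeff i = 0
    · exact Or.inl hgi
    · right
      have hni : n * i ∉ S := by
        intro h
        exact hi (Finset.mem_filter.mpr ⟨mem_support_iff.mpr hgi, h⟩)
      rcases hF V hV _ hni with h | ⟨s, hs, h⟩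
      · rw [hcf] at h
        exact absurd h hgi
      · rw [hcf] at h
        have hs0 : (minpoly F α).coeff s ≠ 0 := by
          intro h0
          rw [h0] at h
          have h1 : V.valuation ((0 : F) : Qb) = 0 := by
            rw [Valuation.zero_iff]; rfl
          rw [h1, mul_zero, le_zero_iff, Valuation.zero_iff] at h
          exact hgi (Subtype.ext h)
        have hdvd : n ∣ s := by
          by_contra hnd
          apply hs0
          rw [hexp, coeff_expand hn, if_neg hnd]
        obtain ⟨t, rfl⟩ := hdvd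
        rw [hcf] at h hs0
        exact ⟨t, Finset.mem_filter.mpr ⟨mem_support_iff.mpr hs0, hs⟩, h⟩
  have hgcd' : ¬ ∀ s ∈ g.support, p ∣ s := fun h => hp.one_lt.ne' (hgcd p h)
  have hht : 0 ≤ ht α := Pool.Agent.Helper259.AbsHt.absLogHeight_nonneg _
  have hd : ((minpoly F α).natDegree : ℝ) = g.natDegree * n := by
    rw [hexp, natDegree_expand]
    push_cast
    ring
  have hp1 : (1 : ℝ) ≤ p := by exact_mod_cast hp.one_lt.le
  rcases dichotomy F hp hμ β hβ0 hgcd' S1 (Finset.filter_subset _ _)
    ((Nat.mul_le_mul_left 2 (Nat.factorial_le hS1card)).trans hk) hFew with h1 | h1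
  · rw [hβ, Pool.Agent.H58B.ht_pow, ← hβ, ← hg] at h1
    have hc' : (S1.card : ℝ) ≤ k := by exact_mod_cast hS1card
    calc Real.log 2 ≤ _ := h1
      _ = (S1.card : ℝ) * (p * (g.natDegree * n * ht α)) := by ring
      _ ≤ k * (p * (g.natDegree * n * ht α)) := by
          apply mul_le_mul_of_nonneg_right hc'
          positivity
      _ ≤ k * (p ^ 2 * (g.natDegree * n * ht α)) := by
          apply mul_le_mul_of_nonneg_left _ (Nat.cast_nonneg k)
          apply mul_le_mul_of_nonneg_right _ (by positivity)
          nlinarith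
      _ = _ := by rw [hd]; ring
  · have hirr : Irreducible g := minpoly.irreducible (isInt F β)
    have hg0 : g.coeff 0 ≠ 0 := minpoly.coeff_zero_ne_zero (isInt F β) hβ0
    have hmap := map_minpoly_pow F β p fun γ γ' h2 h3 h4 =>
      pow_injOn hp (fun y hy => ⟨⟨y, hμ y hy⟩, rfl⟩) g hirr hgm hg0 hgcd' γ γ' h2 h3 h4
    set h := minpoly F (β ^ p) with hh
    have hsub : h.support ⊆ S1 := by
      intro m hm
      by_contra hmS
      have h2 := h1 m hmS
      rw [← hmap, coeff_map] at h2
      exact (mem_support_iff.mp hm) ((map_eq_zero _).mp h2)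
    have hhdeg : h.natDegree = g.natDegree := by
      have h2 : (h.map (algebraMap F Qb)).natDegree = h.natDegree := natDegree_map _
      rw [← h2, hmap, powPoly, natDegree_multiset_prod_X_sub_C_eq_card, Multiset.card_map,
        ← (IsAlgClosed.splits _).natDegree_eq_card_roots, natDegree_map]
    have h3 := sparse F hp hμ hk (β ^ p) (pow_ne_zero _ hβ0)
      ((Finset.card_le_card hsub).trans hS1card) (by
        intro m hm
        rw [hβ, ← pow_mul, ← pow_mul]
        exact hbig _ (by have := hp.pos; positivity))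
    rw [← hh, hhdeg, Pool.Agent.H58B.ht_pow, hβ, Pool.Agent.H58B.ht_pow] at h3
    calc Real.log 2 ≤ _ := h3
      _ = _ := by rw [hd]; ring

end Pool.Agent.W5h73.SP
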