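import Mathlib
import Pool.Agent.W5h73.SP.ModP
import Pool.Agent.TH53.RP8

set_option autoImplicit false

/-!
# Powers of small degree over a field which contains the roots of unity
-/

namespace Pool.Agent.W5h73.SP

open Polynomial
open Pool.Agent.H58P (Qb ht qb_isIntegral)
open Pool.Agent.W237.RK

variable (F : IntermediateField ℚ Qb)

/-- powers of conjugates are distinct if the exponents are coprime -/
lemma conj_pow_inj (hμ : ∀ y : Qb, Tor y → y ∈ F) (γ : Qb) (hγ : γ ≠ 0)
    (hgcd : ∀ n : ℕ, (∀ s ∈ (minpoly F γ).support, n ∣ s) → n = 1) {m : ℕ} (hm : 0 < m)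
    (β β' : Qb) (hβ : aeval β (minpoly F γ) = 0) (hβ' : aeval β' (minpoly F γ) = 0)
    (hpow : β ^ m = β' ^ m) : β = β' := by
  by_contra hne
  set f := minpoly F γ with hf
  have hfm : f.Monic := minpoly.monic (isInt F γ)
  have hfi : Irreducible f := minpoly.irreducible (isInt F γ)
  have hf0 : f.coeff 0 ≠ 0 := minpoly.coeff_zero_ne_zero (isInt F γ) hγ
  have hβ0 : β ≠ 0 := by
    rintro rfl
    rw [← coeff_zero_eq_aeval_zero'] at hβ
    exact hf0 ((map_eq_zero _).mp hβ)
  have h1 : (β' / β) ^ m = 1 := by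
    rw [div_pow, ← hpow, div_self (pow_ne_zero _ hβ0)]
  obtain ⟨η, hη⟩ : ∃ η : F, algebraMap F Qb η = β' / β := ⟨⟨_, hμ _ ⟨m, hm, h1⟩⟩, rfl⟩
  have hη1 : η ≠ 1 := by
    rintro rfl
    rw [map_one] at hη
    exact hne ((div_eq_one_iff_eq hβ0).mp hη.symm).symm
  have hηe : algebraMap F Qb η * β = β' := by
    rw [hη]; field_simp
  have hroot : aeval β (f.comp (C η * X)) = 0 := by
    rw [aeval_comp]
    simp only [map_mul, aeval_C, aeval_X]
    rw [hηe, hβ']
  have hmin : minpoly F β = f := (minpoly.eq_of_irreducible_of_monic hfi hβ hfm).symm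
  have hdvd : f ∣ f.comp (C η * X) := by
    rw [← hmin]
    exact minpoly.dvd F β (by rw [hmin]; exact hroot)
  obtain ⟨q, hq⟩ := hdvd
  have hcoef : ∀ n, (f.comp (C η * X)).coeff n = f.coeff n * η ^ n := fun n => comp_C_mul_X_coeff
  have hne0 : f.comp (C η * X) ≠ 0 := by
    intro h
    have := hcoef 0
    rw [h, coeff_zero, pow_zero, mul_one] at this
    exact hf0 this.symm
  have hq0 : q ≠ 0 := by
    rintro rfl
    rw [mul_zero] at hq
    exact hne0 hq
  have hdeg : (f.comp (C η * X)).natDegree ≤ f.natDegree := by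
    rw [natDegree_le_iff_coeff_eq_zero]
    intro n hn
    rw [hcoef, coeff_eq_zero_of_natDegree_lt hn, zero_mul]
  rw [hq, natDegree_mul hfi.ne_zero hq0] at hdeg
  obtain ⟨c, rfl⟩ : ∃ c, q = C c := ⟨q.coeff 0, eq_C_of_natDegree_eq_zero (by omega)⟩
  have hco : ∀ n, f.coeff n * η ^ n = f.coeff n * c := by
    intro n
    rw [← hcoef, hq, coeff_mul_C]
  have hc : c = 1 := by
    have h2 := hco 0
    rw [pow_zero] at h2
    exact (mul_left_cancel₀ hf0 h2).symm
  have hord : orderOf η = 1 := by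
    apply hgcd
    intro s hs
    apply orderOf_dvd_of_pow_eq_one
    have h2 := hco s
    rw [hc] at h2
    exact mul_left_cancel₀ (mem_support_iff.mp hs) h2
  exact hη1 (orderOf_eq_one_iff.mp hord)

/-- the degree of a power -/
lemma deg_pow_eq (hμ : ∀ y : Qb, Tor y → y ∈ F) (γ : Qb) (hγ : γ ≠ 0)
    (hgcd : ∀ n : ℕ, (∀ s ∈ (minpoly F γ).support, n ∣ s) → n = 1) {m : ℕ} (hm : 0 < m) :
    (minpoly F (γ ^ m)).natDegree = (minpoly F γ).natDegree := by
  have h1 := map_minpoly_pow F γ m fun β β' hβ hβ' h =>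
    conj_pow_inj F hμ γ hγ hgcd hm β β' hβ hβ' h
  have h2 : ((minpoly F (γ ^ m)).map (algebraMap F Qb)).natDegree =
      (minpoly F (γ ^ m)).natDegree := natDegree_map _
  rw [← h2, h1, powPoly, natDegree_multiset_prod_X_sub_C_eq_card, Multiset.card_map,
    ← (IsAlgClosed.splits _).natDegree_eq_card_roots, natDegree_map]

/-- **powers of small degree**: the minimal polynomial is a polynomial of minimal degree in a
power of the variable -/
theorem exists_expand (hμ : ∀ y : Qb, Tor y → y ∈ F) (α : Qb) (hα : α ≠ 0) :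
    ∃ n : ℕ, 0 < n ∧ minpoly F α = expand F n (minpoly F (α ^ n)) ∧
      ∀ m : ℕ, 0 < m → (minpoly F (α ^ n)).natDegree ≤ (minpoly F (α ^ m)).natDegree := by
  obtain ⟨n, hn, hexp, hgcd⟩ := exists_power F α
  refine ⟨n, hn, hexp, fun m hm => ?_⟩
  have h1 := deg_pow_eq F hμ (α ^ n) (pow_ne_zero _ hα) hgcd hm
  rw [← h1, ← pow_mul, mul_comm, pow_mul, ← orb_ncard, ← orb_ncard]
  exact orb_pow_ncard _ _

end Pool.Agent.W5h73.SP
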