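import Mathlib
import Pool.Agent.W5h73.SP.Ultra
import Pool.Agent.W5h73.SP.Kum

set_option autoImplicit false

/-!
# Roots of sparse polynomials modulo `N`
-/

namespace Pool.Agent.W5h73.SP

open Polynomial
open Pool.Agent.H58P (Qb ht qb_isIntegral)
open Pool.Agent.W237.RK

/-- `α` is a root modulo `N ^ (1 / q)` of a polynomial over `F` with at most `k` terms and degree
at most `E`, at every place above `N` -/
def SpRoot (F : IntermediateField ℚ Qb) (N q k E : ℕ) (α : Qb) : Prop :=
  ∃ S : Finset ℕ, S.card ≤ k ∧ (∀ s ∈ S, s ≤ E) ∧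
    ∀ V : ValuationSubring Qb, V.valuation (N : Qb) < 1 →
      ∃ g : Polynomial F, g.support ⊆ S ∧ (∀ i, V.valuation (g.coeff i : Qb) ≤ 1) ∧
        (∃ i, V.valuation (g.coeff i : Qb) = 1) ∧
        ∀ β : Qb, aeval β (minpoly F α) = 0 →
          V.valuation (aeval β g) ^ q ≤ V.valuation (N : Qb) * max 1 (V.valuation β) ^ (E * q)

lemma had_mono {k' k : ℕ} (h : k' ≤ k) : had k' ≤ had k := by
  rw [had, had]
  apply Real.sqrt_le_sqrt
  rcases Nat.eq_zero_or_pos k with rfl | hk
  · rw [Nat.le_zero.mp h]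
  · have h1 : k' ^ k' ≤ k ^ k := (Nat.pow_le_pow_left h k').trans (Nat.pow_le_pow_right hk h)
    exact_mod_cast h1

lemma aeval_eq_sum_S {F : IntermediateField ℚ Qb} (g : F[X]) {k : ℕ} (e : Fin k → ℕ)
    (he : Function.Injective e) (h : ∀ i ∈ g.support, ∃ j, e j = i) (β : Qb) :
    aeval β g = ∑ i, (g.coeff (e i) : Qb) * β ^ e i := by
  classical
  rw [aeval_eq_sum_range' (n := max (g.natDegree + 1) (∑ i, e i + 1)) (by omega)]
  have h1 : ∑ i, (g.coeff (e i) : Qb) * β ^ e i =
      ∑ n ∈ Finset.univ.image e, (g.coeff n : Qb) * β ^ n := by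
    rw [Finset.sum_image (fun a _ b _ hab => he hab)]
  rw [h1]
  symm
  have h2 : Finset.univ.image e ⊆ Finset.range (max (g.natDegree + 1) (∑ i, e i + 1)) := by
    intro n hn
    obtain ⟨i, -, rfl⟩ := Finset.mem_image.mp hn
    rw [Finset.mem_range]
    have := Finset.single_le_sum (f := e) (fun _ _ => Nat.zero_le _) (Finset.mem_univ i)
    omega
  rw [← Finset.sum_subset h2]
  · refine Finset.sum_congr rfl fun n _ => ?_
    rw [Algebra.smul_def]
    rfl
  · intro n _ hn
    have h3 : g.coeff n = 0 := by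
      by_contra h4
      obtain ⟨j, hj⟩ := h n (mem_support_iff.mpr h4)
      exact hn (Finset.mem_image.mpr ⟨j, Finset.mem_univ _, hj⟩)
    rw [h3, zero_smul]

/-- an enumeration of a finite set -/
lemma exists_enum (S : Finset ℕ) : ∃ e : Fin S.card → ℕ, Function.Injective e ∧
    (∀ i, e i ∈ S) ∧ ∀ s ∈ S, ∃ i, e i = s := by
  refine ⟨fun i => (S.equivFin.symm i : ℕ), ?_, fun i => (S.equivFin.symm i).2, ?_⟩
  · intro a b h
    exact S.equivFin.symm.injective (Subtype.ext h)
  · intro s hs
    exact ⟨S.equivFin ⟨s, hs⟩, by simp⟩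

/-- the polynomial formulation gives the formulation with exponents -/
lemma localRel_of_poly {F : IntermediateField ℚ Qb} {N q E : ℕ} {α : Qb} (S : Finset ℕ)
    (e : Fin S.card → ℕ) (he : Function.Injective e) (he2 : ∀ s ∈ S, ∃ i, e i = s)
    (h : ∀ V : ValuationSubring Qb, V.valuation (N : Qb) < 1 →
      ∃ g : Polynomial F, g.support ⊆ S ∧ (∀ i, V.valuation (g.coeff i : Qb) ≤ 1) ∧
        (∃ i, V.valuation (g.coeff i : Qb) = 1) ∧
        ∀ β : Qb, aeval β (minpoly F α) = 0 →
          V.valuation (aeval β g) ^ q ≤ V.valuation (N : Qb) * max 1 (V.valuation β) ^ (E * q)) :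
    LocalRel F N q α e E := by
  intro V hV
  obtain ⟨g, hgS, hg1, ⟨i1, hi1⟩, hg⟩ := h V hV
  have hi1s : i1 ∈ g.support := by
    rw [mem_support_iff]
    intro h0
    rw [h0] at hi1
    have h1 : V.valuation ((0 : F) : Qb) = 0 := by rw [Valuation.zero_iff]; rfl
    rw [h1] at hi1
    exact zero_ne_one hi1
  obtain ⟨i0, hi0⟩ := he2 i1 (hgS hi1s)
  refine ⟨fun i => g.coeff (e i), i0, ?_, ?_, ?_⟩
  · show g.coeff (e i0) ≠ 0
    rw [hi0]
    exact mem_support_iff.mp hi1s
  · intro i
    show V.valuation (g.coeff (e i) : Qb) ≤ V.valuation (g.coeff (e i0) : Qb)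
    rw [hi0, hi1]
    exact hg1 _
  · intro β hβ
    show V.valuation (∑ i, (g.coeff (e i) : Qb) * β ^ e i) ^ q ≤ V.valuation (N : Qb) *
      (V.valuation (g.coeff (e i0) : Qb) * max 1 (V.valuation β) ^ E) ^ q
    rw [← aeval_eq_sum_S g e he (fun i hi => he2 i (hgS hi)) β, hi0, hi1, one_mul, ← pow_mul]
    exact hg β hβ

/-- the uniform statement for at most `k` terms -/
theorem main_uniform' (k N q : ℕ) (hadm : Adm N q) (hk : had k < N) :
    ∃ c : ℝ, 0 < c ∧ ∃ B : ℕ, ∀ (F : IntermediateField ℚ Qb) (α : Qb), α ≠ 0 →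
      ∀ E : ℕ, SpRoot F N q k E α →
        c ≤ E * ht α ∨ ∃ m : ℕ, 0 < m ∧ (minpoly F (α ^ m)).natDegree ≤ B := by
  have key : ∀ K : ℕ, K ≤ k → ∃ c : ℝ, 0 < c ∧ ∃ B : ℕ, ∀ k' : ℕ, k' ≤ K →
      ∀ (F : IntermediateField ℚ Qb) (α : Qb), α ≠ 0 →
      ∀ e : Fin k' → ℕ, Function.Injective e → ∀ E : ℕ, (∀ i, e i ≤ E) → LocalRel F N q α e E →
        c ≤ E * ht α ∨ ∃ m : ℕ, 0 < m ∧ (minpoly F (α ^ m)).natDegree ≤ B := by
    intro K
    induction K with
    | zero =>
      intro _
      obtain ⟨c, hc, B, h⟩ := main_uniform 0 N q hadm ((had_mono (Nat.zero_le k)).trans_lt hk)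
      refine ⟨c, hc, B, fun k' hk' => ?_⟩
      obtain rfl := Nat.le_zero.mp hk'
      exact h
    | succ K ih =>
      intro hK
      obtain ⟨c₁, hc₁, B₁, h₁⟩ := ih (by omega)
      obtain ⟨c₂, hc₂, B₂, h₂⟩ := main_uniform (K + 1) N q hadm ((had_mono hK).trans_lt hk)
      refine ⟨min c₁ c₂, lt_min hc₁ hc₂, max B₁ B₂, fun k' hk' F α hα e he E heE hL => ?_⟩
      rcases Nat.lt_or_ge k' (K + 1) with h | h
      · rcases h₁ k' (by omega) F α hα e he E heE hL with h3 | ⟨m, hm, h3⟩
        · exact Or.inl ((min_le_left _ _).trans h3)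
        · exact Or.inr ⟨m, hm, h3.trans (le_max_left _ _)⟩
      · obtain rfl : k' = K + 1 := by omega
        rcases h₂ F α hα e he E heE hL with h3 | ⟨m, hm, h3⟩
        · exact Or.inl ((min_le_right _ _).trans h3)
        · exact Or.inr ⟨m, hm, h3.trans (le_max_right _ _)⟩
  obtain ⟨c, hc, B, h⟩ := key k le_rfl
  refine ⟨c, hc, B, fun F α hα E hS => ?_⟩
  obtain ⟨S, hSk, hSE, hS⟩ := hS
  obtain ⟨e, he, heS, heS2⟩ := exists_enum S
  exact h S.card hSk F α hα e he E (fun i => hSE _ (heS i)) (localRel_of_poly S e he heS2 hS)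

/-- monotonicity in the field -/
lemma SpRoot.mono {F F' : IntermediateField ℚ Qb} (hle : F ≤ F') {N q k E : ℕ} {α : Qb}
    (h : SpRoot F N q k E α) : SpRoot F' N q k E α := by
  obtain ⟨S, hSk, hSE, hS⟩ := h
  refine ⟨S, hSk, hSE, fun V hV => ?_⟩
  obtain ⟨g, hgS, hg1, ⟨i1, hi1⟩, hg⟩ := hS V hV
  set j : F →+* F' := (IntermediateField.inclusion hle).toRingHom with hj
  have hjv : ∀ x : F, ((j x : F') : Qb) = (x : Qb) := fun x => rfl
  refine ⟨g.map j, (support_map_subset _ _).trans hgS, ?_, ⟨i1, ?_⟩, ?_⟩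
  · intro i
    rw [coeff_map, hjv]
    exact hg1 i
  · rw [coeff_map, hjv]
    exact hi1
  · intro β hβ
    have h1 : aeval β (g.map j) = aeval β g := by
      rw [aeval_def, aeval_def, eval₂_map]
      rfl
    rw [h1]
    apply hg
    -- the minimal polynomial over the larger field divides
    have h2 : minpoly F' α ∣ (minpoly F α).map j := by
      apply minpoly.dvd
      rw [aeval_def, eval₂_map]
      exact minpoly.aeval F α
    obtain ⟨r, hr⟩ := h2
    have h3 : aeval β ((minpoly F α).map j) = 0 := by rw [hr, map_mul, hβ, zero_mul]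
    rw [aeval_def, eval₂_map] at h3
    exact h3

/-- the coefficients of the minimal polynomial outside `S` are divisible by `N` -/
def CoefDvd (F : IntermediateField ℚ Qb) (N : ℕ) (S : Finset ℕ) (α : Qb) : Prop :=
  ∀ V : ValuationSubring Qb, V.valuation (N : Qb) < 1 → ∀ i, i ∉ S →
    (minpoly F α).coeff i = 0 ∨ ∃ s ∈ S,
      V.valuation ((minpoly F α).coeff i : Qb) ≤
        V.valuation (N : Qb) * V.valuation ((minpoly F α).coeff s : Qb)

/-- the coefficient criterion, with exponents bounded by the degree -/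
lemma localRel_of_coef {F : IntermediateField ℚ Qb} {N : ℕ} {α : Qb} (S : Finset ℕ)
    (hS : ∀ s ∈ S, s ≤ (minpoly F α).natDegree) (h : CoefDvd F N S α)
    (e : Fin S.card → ℕ) (he : Function.Injective e) (heS : ∀ i, e i ∈ S)
    (he2 : ∀ s ∈ S, ∃ i, e i = s) :
    LocalRel F N 1 α e (minpoly F α).natDegree := by
  classical
  set f := minpoly F α with hf
  have hm : f.Monic := minpoly.monic (isInt F α)
  intro V hV
  have hlead : f.coeff f.natDegree ≠ 0 := by
    rw [hm.coeff_natDegree]; exact one_ne_zero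
  have h0 : V.valuation ((0 : F) : Qb) = 0 := by rw [Valuation.zero_iff]; rfl
  have hval0 : ∀ x : F, V.valuation (x : Qb) = 0 → x = 0 := by
    intro x hx
    rw [Valuation.zero_iff] at hx
    exact Subtype.ext hx
  -- an exponent in `S` with a nonzero coefficient
  obtain ⟨s1, hs1S, hs1⟩ : ∃ s ∈ S, f.coeff s ≠ 0 := by
    by_cases hD : f.natDegree ∈ S
    · exact ⟨_, hD, hlead⟩
    · rcases h V hV _ hD with h1 | ⟨s, hs, h1⟩
      · exact absurd h1 hlead
      · refine ⟨s, hs, fun h2 => hlead (hval0 _ ?_)⟩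
        rw [h2, h0, mul_zero, le_zero_iff] at h1
        exact h1
  obtain ⟨s0, hs0S, hs0⟩ := Finset.exists_max_image S
    (fun s => V.valuation (f.coeff s : Qb)) ⟨s1, hs1S⟩
  obtain ⟨i0, hi0⟩ := he2 s0 hs0S
  refine ⟨fun i => f.coeff (e i), i0, ?_, fun i => ?_, ?_⟩
  · show f.coeff (e i0) ≠ 0
    intro h1
    rw [hi0] at h1
    have h2 := hs0 s1 hs1S
    simp only [h1, h0, le_zero_iff] at h2
    exact hs1 (hval0 _ h2)
  · show V.valuation (f.coeff (e i) : Qb) ≤ V.valuation (f.coeff (e i0) : Qb)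
    rw [hi0]
    exact hs0 _ (heS i)
  · intro β hroot
    show V.valuation (∑ i, (f.coeff (e i) : Qb) * β ^ e i) ^ 1 ≤
      V.valuation (N : Qb) * (V.valuation (f.coeff (e i0) : Qb) *
        max 1 (V.valuation β) ^ f.natDegree) ^ 1
    rw [pow_one, pow_one, hi0, ← mul_assoc]
    set M := max 1 (V.valuation β) with hM
    have hM1 : 1 ≤ M := le_max_left _ _
    have hsub : S ⊆ Finset.range (f.natDegree + 1) := by
      intro s hs
      rw [Finset.mem_range]
      have := hS s hs
      omega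
    have h1 : ∑ s ∈ Finset.range (f.natDegree + 1), (f.coeff s : Qb) * β ^ s = 0 := by
      rw [aeval_eq_sum_range] at hroot
      rw [← hroot]
      refine Finset.sum_congr rfl fun s _ => ?_
      rw [Algebra.smul_def]
      rfl
    rw [← Finset.sum_sdiff hsub] at h1
    have himg : Finset.univ.image e = S := by
      ext s
      rw [Finset.mem_image]
      constructor
      · rintro ⟨i, -, rfl⟩
        exact heS i
      · intro hs
        obtain ⟨i, hi⟩ := he2 s hs
        exact ⟨i, Finset.mem_univ _, hi⟩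
    have h3 : ∑ i, (f.coeff (e i) : Qb) * β ^ e i = ∑ s ∈ S, (f.coeff s : Qb) * β ^ s := by
      conv_rhs => rw [← himg]
      rw [Finset.sum_image (fun a _ b _ hab => he hab)]
    have h2 : ∑ i, (f.coeff (e i) : Qb) * β ^ e i =
        -∑ s ∈ Finset.range (f.natDegree + 1) \ S, (f.coeff s : Qb) * β ^ s := by
      rw [h3]
      linear_combination h1
    rw [h2, Valuation.map_neg]
    apply V.valuation.map_sum_le
    intro i hi
    rw [Finset.mem_sdiff, Finset.mem_range] at hi
    rw [map_mul, map_pow]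
    apply mul_le_mul'
    · rcases h V hV i hi.2 with h4 | ⟨s, hs, h4⟩
      · have h5 : V.valuation (f.coeff i : Qb) = 0 := by
          rw [h4]; exact h0
        rw [h5]
        exact zero_le
      · exact h4.trans (mul_le_mul_right (hs0 s hs) _)
    · exact (pow_le_pow_left₀ zero_le (le_max_right _ _) _).trans
        (pow_le_pow_right₀ hM1 (by omega))

/-- **the explicit bound**: if the coefficients outside `S` are divisible by `N` but do not all
vanish -/
theorem explicit (F : IntermediateField ℚ Qb) (N : ℕ) (S : Finset ℕ) (α : Qb)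
    (hN : 0 < N) (h : CoefDvd F N S α) (hne : ∃ i, i ∉ S ∧ (minpoly F α).coeff i ≠ 0) :
    Real.log (N / had S.card) ≤ S.card * ((minpoly F α).natDegree * ht α) := by
  classical
  set f := minpoly F α with hf
  have hm : f.Monic := minpoly.monic (isInt F α)
  have hht : 0 ≤ ht α := Pool.Agent.Helper259.AbsHt.absLogHeight_nonneg _
  set S' := S.filter fun s => s ≤ f.natDegree with hS'
  have hcard : S'.card ≤ S.card := Finset.card_filter_le _ _
  have hcoef : CoefDvd F N S' α := by
    intro V hV i hi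
    by_cases hiS : i ∈ S
    · left
      have hi2 : ¬ i ≤ f.natDegree := fun h => hi (Finset.mem_filter.mpr ⟨hiS, h⟩)
      exact coeff_eq_zero_of_natDegree_lt (not_le.mp hi2)
    · rcases h V hV i hiS with h1 | ⟨s, hs, h1⟩
      · exact Or.inl h1
      · by_cases hs2 : s ≤ f.natDegree
        · exact Or.inr ⟨s, Finset.mem_filter.mpr ⟨hs, hs2⟩, h1⟩
        · left
          have h2 : f.coeff s = 0 := coeff_eq_zero_of_natDegree_lt (not_le.mp hs2)
          rw [← hf, h2] at h1
          have h0 : V.valuation ((0 : F) : Qb) = 0 := by rw [Valuation.zero_iff]; rfl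
          rw [h0, mul_zero, le_zero_iff, Valuation.zero_iff] at h1
          exact Subtype.ext h1
  obtain ⟨e, he, heS, he2⟩ := exists_enum S'
  have hle : ∀ s ∈ S', s ≤ f.natDegree := fun s hs => (Finset.mem_filter.mp hs).2
  have hL := localRel_of_coef S' hle hcoef e he heS he2
  have hNR : (0 : ℝ) < N := by exact_mod_cast hN
  have hR : (0 : ℝ) < N / had S'.card := div_pos hNR (had_pos _)
  rcases step F (Or.inl rfl) (N / had S'.card) hR
    (by rw [div_mul_cancel₀ _ (had_pos _).ne']) α e f.natDegree (fun i => hle _ (heS i)) hL with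
    h1 | ⟨c, hc, hc0⟩
  · calc Real.log (N / had S.card) ≤ Real.log (N / had S'.card) := by
          apply Real.log_le_log (div_pos hNR (had_pos _))
          exact div_le_div_of_nonneg_left hNR.le (had_pos _) (had_mono hcard)
      _ ≤ _ := h1
      _ = S'.card * (f.natDegree * ht α) := by push_cast; ring
      _ ≤ _ := by
          apply mul_le_mul_of_nonneg_right _ (mul_nonneg (Nat.cast_nonneg _) hht)
          exact_mod_cast hcard
  · exfalso
    set g : F[X] := ∑ i, C (c i) * X ^ (e i) with hg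
    have hgc : ∀ i, g.coeff (e i) = c i := by
      intro i
      rw [hg, finsetSum_coeff]
      simp only [coeff_C_mul_X_pow]
      rw [Finset.sum_eq_single i]
      · rw [if_pos rfl]
      · intro j _ hj
        rw [if_neg fun h => hj (he h).symm]
      · intro h
        exact absurd (Finset.mem_univ _) h
    have hg0 : g ≠ 0 := by
      intro h0
      apply hc
      funext i
      rw [← hgc, h0, coeff_zero]
      rfl
    have hgS : ∀ i, i ∉ S' → g.coeff i = 0 := by
      intro i hi
      rw [hg, finsetSum_coeff]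
      simp only [coeff_C_mul_X_pow]
      apply Finset.sum_eq_zero
      intro j _
      rw [if_neg]
      rintro rfl
      exact hi (heS j)
    have hgr : aeval α g = 0 := by
      rw [← hc0, hg, map_sum]
      refine Finset.sum_congr rfl fun i _ => ?_
      rw [map_mul, aeval_C, map_pow, aeval_X, one_mul]
      rfl
    obtain ⟨r, hr⟩ := minpoly.dvd F α hgr
    have hr0 : r ≠ 0 := by
      rintro rfl
      rw [mul_zero] at hr
      exact hg0 hr
    have hgd : g.natDegree ≤ f.natDegree := by
      rw [natDegree_le_iff_coeff_eq_zero]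
      intro n hn
      apply hgS
      intro h
      have := hle n h
      omega
    rw [hr, ← hf, natDegree_mul hm.ne_zero hr0] at hgd
    obtain ⟨d, rfl⟩ : ∃ d, r = C d := ⟨r.coeff 0, eq_C_of_natDegree_eq_zero (by omega)⟩
    have hd0 : d ≠ 0 := by
      rintro rfl
      exact hr0 (map_zero _)
    obtain ⟨i, hiS, hi⟩ := hne
    have h2 := hgS i (fun h => hiS (Finset.mem_filter.mp h).1)
    rw [hr, coeff_mul_C] at h2
    rcases mul_eq_zero.mp h2 with h3 | h3
    · exact hi h3
    · exact hd0 h3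

end Pool.Agent.W5h73.SP
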