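import Mathlib
import Pool.Agent.W5h73.SP.Conv
import Pool.Agent.TH53.BL11

set_option autoImplicit false

/-!
# Radicals over extensions of bounded degree of the field of smooth roots
-/

namespace Pool.Agent.W5h73.SP

open Polynomial IntermediateField
open Pool.Agent.H58P (Qb ht qb_isIntegral)
open Pool.Agent.W237.RK
open Pool.Agent.TH53.RP
open Pool.Agent.TH53.BL

/-- if a power of `α` has bounded degree over the field of smooth roots, then `D h(α)` is bounded
below, where `D` is the degree over the field generated by the division group -/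
theorem radical_bound (K : GF) (Γ : Subgroup Qbˣ) (hKfd : FiniteDimensional ℚ K) (hΓfg : Γ.FG)
    (hΓK : ∀ g ∈ Γ, (g : Qb) ∈ K) (P : Finset ℕ) (hP : ∀ p ∈ P, p.Prime) (B : ℕ) :
    ∃ c : ℝ, 0 < c ∧ ∀ α : Qb, α ≠ 0 → ¬ DivG Γ α →
      ∀ m : ℕ, 0 < m → (minpoly (fullField K Γ P) (α ^ m)).natDegree ≤ B →
        c ≤ ((minpoly (divF Γ) α).natDegree : ℝ) * ht α := by
  obtain ⟨A, hA, hmain⟩ := dist' K Γ hKfd hΓfg hΓK P hP
  set L : GF := fullField K Γ P with hL
  refine ⟨lowc A (B + 1), lowc_pos hA (Nat.succ_pos B), ?_⟩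
  intro α hα0 hnd m hm hdeg
  set η : Qb := α ^ m with hη
  set F : GF := (IntermediateField.adjoin L {η}).restrictScalars ℚ with hF
  have hTorL : ∀ x : Qb, Tor x → x ∈ L := fun x hx => kinf_le_fullField K Γ P (tor_mem_kinf K hx)
  have hLF : L ≤ F := by
    intro x hx
    exact (IntermediateField.adjoin L {η}).algebraMap_mem ⟨x, hx⟩
  have hηF : η ∈ F := IntermediateField.mem_adjoin_simple_self L η
  have hTorF : ∀ x : Qb, Tor x → x ∈ F := fun x hx => hLF (hTorL x hx)
  have hΓF : ∀ g ∈ Γ, (g : Qb) ∈ F := fun g hg => hLF (le_fullField K Γ P (hΓK g hg))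
  set d : ℕ := (minpoly (divF Γ) α).natDegree with hd
  have hd' : (orb (divF Γ) α).ncard = d := orb_ncard _ _
  have hd0 : 0 < d := by rw [← hd']; exact orb_ncard_pos _ _
  have hrad : Rad F α := ⟨hα0, m, hm, hηF⟩
  set Fi : GF := F ⊔ divF Γ with hFi
  have hFFi : F ≤ Fi := le_sup_left
  have hdFi : divF Γ ≤ Fi := le_sup_right
  have hord : (orb Fi α).ncard ≤ d := by
    rw [← hd']
    exact Set.ncard_le_ncard (orb_mono hdFi α) (orb_finite _ _)
  obtain ⟨n, hn0, hn, hrig⟩ := torRigid_small (Finf := Fi)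
    (fun x hx => hFFi (hTorF x hx)) hα0 hord
  have hmem : α ^ n ∈ Fi := by
    apply mem_of_fix Fi
    intro ρ hρ
    apply hrig ρ hρ
    exact (hrad.pow n).tor ⟨ρ, fix_mono hFFi hρ⟩
  obtain ⟨f, hf, γ, hγ, hfγ⟩ := kummer F Γ hTorF hΓF (α ^ n) (hrad.pow n) hmem
  have hγ0 : γ ≠ 0 := Pool.Agent.TH53.RP.DivG.ne_zero hγ
  have hf0 : f ≠ 0 := by
    rintro rfl
    rw [zero_mul] at hfγ
    exact pow_ne_zero _ hα0 hfγ
  -- the degree of `f`
  have hηint : IsIntegral L η := (qb_isIntegral η).tower_top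
  have hfd : FiniteDimensional L (IntermediateField.adjoin L {η}) :=
    IntermediateField.adjoin.finiteDimensional hηint
  have hfdeg : (minpoly L f).natDegree ≤ B := by
    have h1 : minpoly L f = minpoly L (⟨f, hf⟩ : IntermediateField.adjoin L {η}) := by
      exact (minpoly.algebraMap_eq (algebraMap (IntermediateField.adjoin L {η}) Qb).injective
        (⟨f, hf⟩ : IntermediateField.adjoin L {η}))
    rw [h1]
    refine (minpoly.natDegree_le _).trans ?_
    rw [IntermediateField.adjoin.finrank hηint]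
    exact hdeg
  have horb : (orb L f).ncard ≤ B + 1 := by
    rw [orb_ncard]
    omega
  have hfd' : ¬ DivG Γ f := by
    intro hcon
    apply hnd
    have h1 : DivG Γ (α ^ n) := by
      rw [hfγ]
      exact Pool.Agent.W237.RK.DivG.mul hcon hγ
    exact Pool.Agent.TH53.RP.DivG.of_pow hn0 h1
  have h2 := hmain (B + 1) (Nat.succ_pos B) f hf0 horb hfd' γ⁻¹ (DivG.inv hγ)
  rw [div_inv_eq_mul, ← hfγ, Pool.Agent.H58B.ht_pow] at h2
  have hnR : (n : ℝ) ≤ (d : ℝ) := by exact_mod_cast hn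
  have h6 := Pool.Agent.H58R.ht_nonneg α
  exact h2.trans (mul_le_mul_of_nonneg_right hnR h6)

/-- **the unconditional statement** -/
theorem uncond (K : GF) (Γ : Subgroup Qbˣ) (hKfd : FiniteDimensional ℚ K) (hΓfg : Γ.FG)
    (hΓK : ∀ g ∈ Γ, (g : Qb) ∈ K) (P : Finset ℕ) (hP : ∀ p ∈ P, p.Prime)
    (k N q C : ℕ) (hadm : Adm N q) (hk : had k < N) :
    ∃ c : ℝ, 0 < c ∧ ∀ α : Qb, α ≠ 0 → ¬ DivG Γ α →
      SpRoot (fullField K Γ P) N q k (C * (minpoly (divF Γ) α).natDegree) α →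
        c ≤ ((minpoly (divF Γ) α).natDegree : ℝ) * ht α := by
  obtain ⟨c₁, hc₁, B, h₁⟩ := main_uniform' k N q hadm hk
  obtain ⟨c₂, hc₂, h₂⟩ := radical_bound K Γ hKfd hΓfg hΓK P hP B
  refine ⟨min (c₁ / (C + 1)) c₂, lt_min (by positivity) hc₂, fun α hα hnd hS => ?_⟩
  rcases h₁ _ α hα _ hS with h | ⟨m, hm, h⟩
  · refine (min_le_left _ _).trans ?_
    rw [div_le_iff₀ (by positivity)]
    push_cast at h
    have h6 := Pool.Agent.H58R.ht_nonneg α
    have h7 : (0 : ℝ) ≤ ((minpoly (divF Γ) α).natDegree : ℝ) * ht α :=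
      mul_nonneg (Nat.cast_nonneg _) h6
    linarith
  · exact (min_le_right _ _).trans (h₂ α hα hnd m hm h)

end Pool.Agent.W5h73.SP
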