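import Mathlib
import Pool.Agent.W5h73.SP.GUltra
import Pool.Agent.W5h73.SP.Uncond

set_option autoImplicit false

/-!
# Roots modulo `N` of polynomials with few terms whose coefficients are radicals
-/

namespace Pool.Agent.W5h73.SP

open Polynomial
open Pool.Agent.H58P (Qb ht qb_isIntegral)
open Pool.Agent.W237.RK
open Pool.Agent.TH53.RP
open Pool.Agent.TH53.BL

/-- `α` is a root of `g` modulo `N ^ (1 / q)`, at every place above `N` -/
def ModRoot (N q E : ℕ) (g : Qb[X]) (α : Qb) : Prop :=
  ∀ V : ValuationSubring Qb, V.valuation (N : Qb) < 1 → ∃ i, g.coeff i ≠ 0 ∧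
    V.valuation (g.eval α) ^ q ≤
      V.valuation (N : Qb) * (V.valuation (g.coeff i) * max 1 (V.valuation α) ^ E) ^ q

/-- comparison of valuations for a conjugate valuation ring -/
lemma comap_le_iff (V : ValuationSubring Qb) (σ : Qb →+* Qb) (x y : Qb) :
    (V.comap σ).valuation x ≤ (V.comap σ).valuation y ↔ V.valuation (σ x) ≤ V.valuation (σ y) := by
  by_cases hy : y = 0
  · subst hy
    rw [map_zero, map_zero, map_zero, le_zero_iff, le_zero_iff, Valuation.zero_iff,
      Valuation.zero_iff]
    constructor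
    · rintro rfl
      exact map_zero σ
    · intro h
      exact (map_eq_zero σ).mp h
  · have hy1 : (V.comap σ).valuation y ≠ 0 := (Valuation.ne_zero_iff _).mpr hy
    have hy2 : V.valuation (σ y) ≠ 0 := (Valuation.ne_zero_iff _).mpr ((map_ne_zero σ).mpr hy)
    have h1 : (V.comap σ).valuation x ≤ (V.comap σ).valuation y ↔
        (V.comap σ).valuation (x / y) ≤ 1 := by
      rw [map_div₀, div_le_one₀ (zero_lt_iff.mpr hy1)]
    have h2 : V.valuation (σ x) ≤ V.valuation (σ y) ↔ V.valuation (σ (x / y)) ≤ 1 := by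
      rw [map_div₀, map_div₀, div_le_one₀ (zero_lt_iff.mpr hy2)]
    rw [h1, h2, ValuationSubring.valuation_le_one_iff, ValuationSubring.valuation_le_one_iff]
    exact ValuationSubring.mem_comap

lemma comap_lt_iff (V : ValuationSubring Qb) (σ : Qb →+* Qb) (x y : Qb) :
    (V.comap σ).valuation x < (V.comap σ).valuation y ↔ V.valuation (σ x) < V.valuation (σ y) := by
  rw [← not_le, ← not_le, comap_le_iff]

/-- the monomials of a polynomial with radical coefficients -/
noncomputable def radPoly {k : ℕ} (θ : Fin k → Qb) (e : Fin k → ℕ) : Qb[X] :=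
  ∑ j, C (θ j) * X ^ e j

lemma eval_radPoly {k : ℕ} (θ : Fin k → Qb) (e : Fin k → ℕ) (x : Qb) :
    (radPoly θ e).eval x = ∑ j, θ j * x ^ e j := by
  rw [radPoly, eval_finsetSum]
  refine Finset.sum_congr rfl fun j _ => ?_
  rw [eval_mul, eval_C, eval_pow, eval_X]

lemma coeff_radPoly {k : ℕ} (θ : Fin k → Qb) (e : Fin k → ℕ) (i : ℕ) :
    (radPoly θ e).coeff i = ∑ j, if i = e j then θ j else 0 := by
  rw [radPoly, finsetSum_coeff]
  refine Finset.sum_congr rfl fun j _ => ?_
  rw [coeff_C_mul_X_pow]

/-- a congruence for `α` gives the local relations for the conjugates -/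
lemma localRelW_of_modRoot (F : GF) {N q E k : ℕ} (θ : Fin k → Qb) (hθ : ∀ i, θ i ≠ 0)
    (htor : ∀ i, ∀ σ : Qb ≃ₐ[F] Qb, ∃ n : ℕ, 0 < n ∧ (σ (θ i) / θ i) ^ n = 1)
    (e : Fin k → ℕ) (α : Qb) (h : ModRoot N q E (radPoly θ e) α) :
    LocalRelW F N q θ e E α := by
  intro V hV
  -- an index
  obtain ⟨i1, hi1, -⟩ := h V hV
  have hne : Nonempty (Fin k) := by
    rw [coeff_radPoly] at hi1
    obtain ⟨j, -, -⟩ := Finset.exists_ne_zero_of_sum_ne_zero hi1
    exact ⟨j⟩
  obtain ⟨i0, hi0⟩ := Finite.exists_max fun i => V.valuation (θ i)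
  refine ⟨θ, i0, hθ i0, hi0, fun σ => ?_⟩
  set s : Qb →+* Qb := (σ : Qb →+* Qb) with hs
  have hsx : ∀ x, s x = σ x := fun _ => rfl
  have hVσ : ∀ j, V.valuation (σ (θ j)) = V.valuation (θ j) := by
    intro j
    have h1 := val_tor V (htor j σ)
    rw [map_div₀] at h1
    exact (div_eq_one_iff_eq ((Valuation.ne_zero_iff _).mpr (hθ j))).mp h1
  have hN : (V.comap s).valuation (N : Qb) < 1 := by
    have h1 := (comap_lt_iff V s (N : Qb) 1).mpr (by rw [map_natCast, map_one, map_one]; exact hV)
    rwa [map_one] at h1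
  obtain ⟨i, hi, hb⟩ := h _ hN
  have hcoef : V.valuation (σ ((radPoly θ e).coeff i)) ≤ V.valuation (θ i0) := by
    rw [coeff_radPoly, map_sum]
    apply V.valuation.map_sum_le
    intro j _
    split_ifs
    · rw [hVσ]; exact hi0 j
    · rw [map_zero, map_zero]; exact zero_le
  have hsum : ∑ j, θ j * (σ (θ j) / θ j * σ α ^ e j) = σ ((radPoly θ e).eval α) := by
    rw [eval_radPoly, map_sum]
    refine Finset.sum_congr rfl fun j _ => ?_
    have := hθ j
    rw [map_mul, map_pow]
    field_simp
  rw [hsum]
  by_cases hα : 1 < (V.comap s).valuation α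
  · rw [max_eq_right hα.le, ← map_pow, ← map_pow, ← map_mul, ← map_pow, ← map_mul,
      comap_le_iff] at hb
    have hα' : 1 < V.valuation (σ α) := by
      have h1 := (comap_lt_iff V s 1 α).mp (by rw [map_one]; exact hα)
      rwa [map_one, map_one] at h1
    rw [max_eq_right hα'.le, ← map_pow]
    have h2 : V.valuation (s ((eval α (radPoly θ e)) ^ q)) = V.valuation (σ (eval α (radPoly θ e)) ^ q) := by
      rw [map_pow]; rfl
    rw [h2] at hb
    refine hb.trans ?_
    rw [map_mul, map_mul, map_natCast, map_pow, map_mul, map_pow, map_pow, map_mul, map_pow]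
    apply mul_le_mul_right
    apply pow_le_pow_left₀ zero_le
    exact mul_le_mul_left hcoef _
  · rw [max_eq_left (not_lt.mp hα), one_pow, mul_one, ← map_pow, ← map_pow, ← map_mul,
      comap_le_iff] at hb
    have hα' : ¬ 1 < V.valuation (σ α) := by
      intro hcon
      apply hα
      have h1 := (comap_lt_iff V s 1 α).mpr (by rw [map_one, map_one]; exact hcon)
      rwa [map_one] at h1
    rw [max_eq_left (not_lt.mp hα'), one_pow, mul_one, ← map_pow]
    have h2 : V.valuation (s ((eval α (radPoly θ e)) ^ q)) = V.valuation (σ (eval α (radPoly θ e)) ^ q) := by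
      rw [map_pow]; rfl
    rw [h2] at hb
    refine hb.trans ?_
    rw [map_mul, map_mul, map_natCast, map_pow, map_pow]
    apply mul_le_mul_right
    exact pow_le_pow_left₀ zero_le hcoef _

/-- degrees in a tower -/
lemma deg_tower (F : GF) (A : IntermediateField F Qb) [FiniteDimensional F A] (x : Qb) :
    (minpoly F x).natDegree ≤
      Module.finrank F A * (minpoly (A.restrictScalars ℚ) x).natDegree := by
  have hx : IsIntegral A x := (qb_isIntegral x).tower_top
  have h0 : (minpoly (A.restrictScalars ℚ) x).natDegree = (minpoly A x).natDegree := rfl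
  have hfd : FiniteDimensional A (IntermediateField.adjoin A {x}) :=
    IntermediateField.adjoin.finiteDimensional hx
  have h1 : Module.finrank A (IntermediateField.adjoin A {x}) = (minpoly A x).natDegree :=
    IntermediateField.adjoin.finrank hx
  have hfd2 : FiniteDimensional F (IntermediateField.adjoin A {x}) :=
    FiniteDimensional.trans F A (IntermediateField.adjoin A {x})
  have h2 := Module.finrank_mul_finrank F A (IntermediateField.adjoin A {x})
  have hxm : x ∈ IntermediateField.adjoin A {x} := IntermediateField.mem_adjoin_simple_self A x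
  have htow : IsScalarTower F (IntermediateField.adjoin A {x}) Qb :=
    IsScalarTower.of_algebraMap_eq fun y => rfl
  have h3 : minpoly F x = minpoly F (⟨x, hxm⟩ : IntermediateField.adjoin A {x}) :=
    minpoly.algebraMap_eq (algebraMap (IntermediateField.adjoin A {x}) Qb).injective
      (⟨x, hxm⟩ : IntermediateField.adjoin A {x})
  rw [h0, ← h1, h2, h3]
  exact minpoly.natDegree_le _

end Pool.Agent.W5h73.SP
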