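import Mathlib
import Pool.Agent.W5h73.SP.Main3

set_option autoImplicit false

/-!
# The inequality for roots modulo `N` of polynomials with few terms and radical coefficients
-/

namespace Pool.Agent.W5h73.SP

open Polynomial
open Pool.Agent.H58P (Qb ht qb_isIntegral)
open Pool.Agent.W237.RK
open Pool.Agent.TH53.RP
open Pool.Agent.TH53.BL

/-- degrees over `L` are at most `M` times the degrees over `F` -/
def BdExt (L F : GF) (M : ℕ) : Prop :=
  ∀ x : Qb, (minpoly L x).natDegree ≤ M * (minpoly F x).natDegree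

/-- the degree of a root -/
lemma deg_root_le (F : GF) (ρ : Qb) (q : ℕ) (hq : 0 < q) :
    (minpoly F ρ).natDegree ≤ q * (minpoly F (ρ ^ q)).natDegree := by
  have h1 : aeval ρ (expand F q (minpoly F (ρ ^ q))) = 0 := by
    rw [expand_aeval, minpoly.aeval]
  have h2 : expand F q (minpoly F (ρ ^ q)) ≠ 0 := by
    rw [Ne, expand_eq_zero hq]
    exact minpoly.ne_zero (isInt F _)
  have h3 := natDegree_le_of_dvd (minpoly.dvd F ρ h1) h2
  rw [natDegree_expand, mul_comm] at h3
  exact h3

/-- merging two terms with the same exponent -/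
lemma merge {k : ℕ} (θ : Fin (k + 1) → Qb) (e : Fin (k + 1) → ℕ) (i j : Fin (k + 1)) (hij : i ≠ j)
    (he : e i = e j) : radPoly θ e = radPoly
      (fun l : Fin k => θ (i.succAbove l) + if i.succAbove l = j then θ i else 0)
      (fun l : Fin k => e (i.succAbove l)) := by
  obtain ⟨l0, hl0⟩ := Fin.exists_succAbove_eq (Ne.symm hij)
  rw [radPoly, radPoly, Fin.sum_univ_succAbove _ i]
  simp only [map_add, add_mul, Finset.sum_add_distrib]
  rw [add_comm]
  congr 1
  rw [Finset.sum_eq_single l0]
  · rw [if_pos hl0, hl0, he]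
  · intro l _ hl
    rw [if_neg, map_zero, zero_mul]
    intro h
    exact hl (Fin.succAbove_right_injective (h.trans hl0.symm))
  · intro h
    exact absurd (Finset.mem_univ _) h

/-- removing a zero term -/
lemma remove {k : ℕ} (θ : Fin (k + 1) → Qb) (e : Fin (k + 1) → ℕ) (i : Fin (k + 1))
    (h : θ i = 0) : radPoly θ e = radPoly (fun l : Fin k => θ (i.succAbove l))
      (fun l : Fin k => e (i.succAbove l)) := by
  rw [radPoly, radPoly, Fin.sum_univ_succAbove _ i, h, map_zero, zero_mul, zero_add]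

lemma tor_of_rad (F : GF) {θ : Qb} (hθ : θ ≠ 0) (h : ∃ m : ℕ, 0 < m ∧ θ ^ m ∈ F)
    (σ : Qb ≃ₐ[F] Qb) : ∃ n : ℕ, 0 < n ∧ (σ θ / θ) ^ n = 1 := by
  obtain ⟨m, hm, h⟩ := h
  refine ⟨m, hm, ?_⟩
  have h1 : σ (θ ^ m) = θ ^ m := σ.commutes ⟨_, h⟩
  rw [div_pow, ← map_pow, h1, div_self (pow_ne_zero _ hθ)]

/-- **the main theorem**, uniform in the base field -/
theorem main_alt (N q : ℕ) (hadm : Adm N q) : ∀ k : ℕ, had k < N → ∀ M : ℕ,
    ∃ c : ℝ, 0 < c ∧ ∃ B : ℕ, ∀ L F : GF, L ≤ F → BdExt L F M →
      ∀ (θ : Fin k → Qb) (e : Fin k → ℕ), (∀ j, ∃ m : ℕ, 0 < m ∧ θ j ^ m ∈ F) →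
      ∀ (α : Qb) (E : ℕ), α ≠ 0 → (∀ j, e j ≤ E) → ModRoot N q E (radPoly θ e) α →
        c ≤ E * ht α ∨ ∃ m : ℕ, 0 < m ∧ (minpoly L (α ^ m)).natDegree ≤ B := by
  intro k
  induction k with
  | zero =>
    intro hk M
    obtain ⟨c₀, hc₀, B, h₀⟩ := main_w 0 N q hadm hk
    refine ⟨c₀, hc₀, 0, ?_⟩
    intro L F hLF hM θ e hrad α E hα he hmod
    have hL2 := localRelW_of_modRoot F θ (fun i => i.elim0) (fun i => i.elim0) e α hmod
    rcases h₀ F θ (fun i => i.elim0) (fun i => i.elim0) e _ he α hα hL2 with h | ⟨i, -⟩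
    · exact Or.inl h
    · exact i.elim0
  | succ k ih =>
    intro hk M
    have hk' : had k < N := (had_mono (Nat.le_succ k)).trans_lt hk
    obtain ⟨c₀, hc₀, B, h₀⟩ := main_w (k + 1) N q hadm hk
    obtain ⟨c₁, hc₁, B₁, h₁⟩ := ih hk' M
    obtain ⟨c₂, hc₂, B₂, h₂⟩ := ih hk' (M * (q * B))
    refine ⟨min c₀ (min c₁ c₂), lt_min hc₀ (lt_min hc₁ hc₂), max (M * B) (max B₁ B₂), ?_⟩
    intro L F hLF hM θ e hrad α E hα he hmod
    by_cases hzero : ∃ i, θ i = 0
    · obtain ⟨i, hi⟩ := hzero
      rw [remove θ e i hi] at hmod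
      rcases h₁ L F hLF hM _ _ (fun l => hrad _) α E hα (fun l => he _) hmod with h | ⟨m, hm, h⟩
      · exact Or.inl (((min_le_right _ _).trans (min_le_left _ _)).trans h)
      · exact Or.inr ⟨m, hm, h.trans ((le_max_left _ _).trans (le_max_right _ _))⟩
    · push Not at hzero
      have htor := fun i => tor_of_rad F (hzero i) (hrad i)
      have hL2 := localRelW_of_modRoot F θ hzero htor e α hmod
      rcases h₀ F θ hzero htor e _ he α hα hL2 with h | ⟨i, j, hij, hB⟩
      · exact Or.inl ((min_le_left _ _).trans h)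
      · by_cases hee : e i = e j
        · -- merge two terms
          set ρ : Qb := θ i / θ j with hρ
          have hρq : ρ ^ q = (θ i * α ^ e i) ^ q / (θ j * α ^ e j) ^ q := by
            have h1 := hzero j
            rw [hρ, hee, div_pow, mul_pow, mul_pow]
            field_simp
          have hρdeg : (minpoly F ρ).natDegree ≤ q * B :=
            (deg_root_le F ρ q hadm.pos).trans (Nat.mul_le_mul_left q (by rw [hρq]; exact hB))
          have hρint : IsIntegral F ρ := isInt F ρ
          have hfd : FiniteDimensional F (IntermediateField.adjoin F {ρ}) :=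
            IntermediateField.adjoin.finiteDimensional hρint
          set F' : GF := (IntermediateField.adjoin F {ρ}).restrictScalars ℚ with hF'
          have hFF' : F ≤ F' := by
            intro x hx
            exact (IntermediateField.adjoin F {ρ}).algebraMap_mem ⟨x, hx⟩
          have hρF' : ρ ∈ F' := IntermediateField.mem_adjoin_simple_self F ρ
          have hM' : BdExt L F' (M * (q * B)) := by
            intro x
            refine (hM x).trans ?_
            rw [mul_assoc]
            apply Nat.mul_le_mul_left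
            refine (deg_tower F (IntermediateField.adjoin F {ρ}) x).trans ?_
            rw [IntermediateField.adjoin.finrank hρint]
            exact Nat.mul_le_mul_right _ hρdeg
          rw [merge θ e i j hij hee] at hmod
          have hrad' : ∀ l : Fin k, ∃ m : ℕ, 0 < m ∧
              (θ (i.succAbove l) + if i.succAbove l = j then θ i else 0) ^ m ∈ F' := by
            intro l
            by_cases hl : i.succAbove l = j
            · obtain ⟨m, hm, h⟩ := hrad j
              refine ⟨m, hm, ?_⟩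
              rw [if_pos hl, hl]
              have h1 : θ j + θ i = (1 + ρ) * θ j := by
                have := hzero j
                rw [hρ]
                field_simp
              rw [h1, mul_pow]
              exact mul_mem (pow_mem (add_mem (one_mem _) hρF') _) (hFF' h)
            · obtain ⟨m, hm, h⟩ := hrad (i.succAbove l)
              refine ⟨m, hm, ?_⟩
              rw [if_neg hl, add_zero]
              exact hFF' h
          rcases h₂ L F' (hLF.trans hFF') hM' _ _ hrad' α E hα (fun l => he _) hmod with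
            h | ⟨m, hm, h⟩
          · exact Or.inl (((min_le_right _ _).trans (min_le_right _ _)).trans h)
          · exact Or.inr ⟨m, hm, h.trans ((le_max_right _ _).trans (le_max_right _ _))⟩
        · -- a power of `α` has small degree
          right
          -- we may assume `e j < e i`
          have key : ∀ i j : Fin (k + 1), e j < e i →
              (minpoly F ((θ i * α ^ e i) ^ q / (θ j * α ^ e j) ^ q)).natDegree ≤ B →
              ∃ m : ℕ, 0 < m ∧ (minpoly L (α ^ m)).natDegree ≤ max (M * B) (max B₁ B₂) := by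
            intro i j hlt hB
            set y : Qb := (θ i * α ^ e i) ^ q / (θ j * α ^ e j) ^ q with hy
            obtain ⟨mi, hmi, hi⟩ := hrad i
            obtain ⟨mj, hmj, hj⟩ := hrad j
            set s := mi * mj with hs
            have hs0 : 0 < s := Nat.mul_pos hmi hmj
            have hi' : θ i ^ s ∈ F := by rw [hs, pow_mul]; exact pow_mem hi _
            have hj' : θ j ^ s ∈ F := by rw [hs, mul_comm, pow_mul]; exact pow_mem hj _
            set f : Qb := (θ i ^ s / θ j ^ s) ^ q with hf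
            have hfF : f ∈ F := pow_mem (div_mem hi' hj') _
            have hf0 : f ≠ 0 :=
              pow_ne_zero _ (div_ne_zero (pow_ne_zero _ (hzero i)) (pow_ne_zero _ (hzero j)))
            have hm : 0 < (e i - e j) * q * s :=
              Nat.mul_pos (Nat.mul_pos (by omega) hadm.pos) hs0
            have hαm : α ^ ((e i - e j) * q * s) = y ^ s / f := by
              have h1 : α ^ e i = α ^ e j * α ^ (e i - e j) := by
                rw [← pow_add]
                congr 1
                omega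
              have h2 : y = (θ i / θ j) ^ q * (α ^ (e i - e j)) ^ q := by
                have h3 := hzero j
                have h4 := pow_ne_zero (e j) hα
                rw [hy, h1, ← div_pow, ← mul_pow]
                congr 1
                field_simp
              have h5 : f = ((θ i / θ j) ^ q) ^ s := by
                rw [hf, ← div_pow, ← pow_mul, ← pow_mul, mul_comm]
              have h6 : f ≠ 0 := hf0
              rw [eq_div_iff h6, h2, mul_pow, ← h5, ← pow_mul, ← pow_mul, mul_comm, mul_assoc]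
            refine ⟨_, hm, ?_⟩
            refine ((hM _).trans (Nat.mul_le_mul_left M ?_)).trans (le_max_left _ _)
            rw [hαm, ← orb_ncard, orb_div_ncard hf0 hfF]
            refine (orb_pow_ncard y s).trans ?_
            rw [orb_ncard]
            exact hB
          rcases lt_or_gt_of_ne hee with hlt | hlt
          · apply key j i hlt
            rw [← inv_div, natDegree_minpoly_inv]
            exact hB
          · exact key i j hlt hB

/-- a polynomial which is a sum of `k` monomials whose coefficients are radicals over `F` -/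
def RadSum (F : GF) (k : ℕ) (g : Qb[X]) : Prop :=
  ∃ (θ : Fin k → Qb) (e : Fin k → ℕ), (∀ j, ∃ m : ℕ, 0 < m ∧ θ j ^ m ∈ F) ∧
    g = ∑ j, C (θ j) * X ^ e j

/-- the exponents may be assumed to be at most the degree -/
lemma RadSum.bdd {F : GF} {k : ℕ} {g : Qb[X]} (h : RadSum F k g) :
    ∃ (θ : Fin k → Qb) (e : Fin k → ℕ), (∀ j, ∃ m : ℕ, 0 < m ∧ θ j ^ m ∈ F) ∧
      (∀ j, e j ≤ g.natDegree) ∧ g = radPoly θ e := by
  obtain ⟨θ, e, hrad, hg⟩ := h
  refine ⟨fun j => if e j ≤ g.natDegree then θ j else 0,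
    fun j => if e j ≤ g.natDegree then e j else 0, ?_, ?_, ?_⟩
  · intro j
    by_cases h : e j ≤ g.natDegree
    · simp only [if_pos h]
      exact hrad j
    · simp only [if_neg h]
      exact ⟨1, one_pos, by rw [pow_one]; exact zero_mem F⟩
  · intro j
    by_cases h : e j ≤ g.natDegree
    · simp only [if_pos h]
      exact h
    · simp only [if_neg h]
      exact Nat.zero_le _
  · ext i
    rw [coeff_radPoly]
    have hgi : g.coeff i = ∑ j, if i = e j then θ j else 0 := by
      rw [hg, ← coeff_radPoly, radPoly]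
    by_cases hi : i ≤ g.natDegree
    · rw [hgi]
      refine Finset.sum_congr rfl fun j _ => ?_
      by_cases h : e j ≤ g.natDegree
      · simp only [if_pos h]
      · simp only [if_neg h]
        rw [if_neg, ite_self]
        rintro rfl
        exact h hi
    · rw [coeff_eq_zero_of_natDegree_lt (not_le.mp hi)]
      symm
      apply Finset.sum_eq_zero
      intro j _
      by_cases h : e j ≤ g.natDegree
      · simp only [if_pos h]
        rw [if_neg]
        rintro rfl
        exact hi h
      · simp only [if_neg h, ite_self]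

lemma RadSum.mono {F F' : GF} (hle : F ≤ F') {k : ℕ} {g : Qb[X]} (h : RadSum F k g) :
    RadSum F' k g := by
  obtain ⟨θ, e, hrad, hg⟩ := h
  refine ⟨θ, e, fun j => ?_, hg⟩
  obtain ⟨m, hm, h⟩ := hrad j
  exact ⟨m, hm, hle h⟩

/-- **uniform version, all fields which contain the roots of unity** -/
theorem uniform_div (k N q M : ℕ) (hadm : Adm N q) (hk : had k < N) :
    ∃ c : ℝ, 0 < c ∧ ∃ B : ℕ, ∀ L : GF, (∀ x : Qb, Tor x → x ∈ L) → ∀ F : GF, L ≤ F →
      BdExt L F M → ∀ g : Qb[X], RadSum F k g → ∀ α : Qb, α ≠ 0 →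
      ModRoot N q g.natDegree g α →
        c ≤ (g.natDegree : ℝ) * ht α ∨
          ∃ n : ℕ, 0 < n ∧ minpoly L α = expand L n (minpoly L (α ^ n)) ∧
            (minpoly L (α ^ n)).natDegree ≤ B := by
  obtain ⟨c, hc, B, h⟩ := main_alt N q hadm k hk M
  refine ⟨c, hc, B, ?_⟩
  intro L hμ F hLF hM g hg α hα hmod
  obtain ⟨θ, e, hrad, he, hgr⟩ := hg.bdd
  rw [hgr] at hmod he ⊢
  rcases h L F hLF hM θ e hrad α _ hα he hmod with h1 | ⟨m, hm, h1⟩
  · exact Or.inl h1
  · right
    obtain ⟨n, hn, hexp, hmin⟩ := exists_expand L hμ α hα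
    exact ⟨n, hn, hexp, (hmin m hm).trans h1⟩

/-- **unconditional version** -/
theorem uncond_div (K : GF) (Γ : Subgroup Qbˣ) (hKfd : FiniteDimensional ℚ K) (hΓfg : Γ.FG)
    (hΓK : ∀ g ∈ Γ, (g : Qb) ∈ K) (P : Finset ℕ) (hP : ∀ p ∈ P, p.Prime)
    (k N q M : ℕ) (hadm : Adm N q) (hk : had k < N) :
    ∃ c : ℝ, 0 < c ∧ ∀ F : GF, fullField K Γ P ≤ F → BdExt (fullField K Γ P) F M →
      ∀ g : Qb[X], RadSum F k g → ∀ α : Qb, α ≠ 0 → ¬ DivG Γ α →
      ModRoot N q g.natDegree g α →
        c ≤ (g.natDegree : ℝ) * ht α ∨ c ≤ ((minpoly (divF Γ) α).natDegree : ℝ) * ht α := by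
  obtain ⟨c₁, hc₁, B, h₁⟩ := main_alt N q hadm k hk M
  obtain ⟨c₂, hc₂, h₂⟩ := radical_bound K Γ hKfd hΓfg hΓK P hP B
  refine ⟨min c₁ c₂, lt_min hc₁ hc₂, ?_⟩
  intro F hLF hM g hg α hα hnd hmod
  obtain ⟨θ, e, hrad, he, hgr⟩ := hg.bdd
  rw [hgr] at hmod he ⊢
  rcases h₁ _ F hLF hM θ e hrad α _ hα he hmod with h1 | ⟨m, hm, h1⟩
  · exact Or.inl ((min_le_left _ _).trans h1)
  · exact Or.inr ((min_le_right _ _).trans (h₂ α hα hnd m hm h1))

/-- **unconditional version with a constant which is independent of the group up to an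
exceptional case** -/
theorem uncond_unif (k N q M : ℕ) (hadm : Adm N q) (hk : had k < N) :
    ∃ c₀ : ℝ, 0 < c₀ ∧ ∃ B : ℕ, ∀ (K : GF) (Γ : Subgroup Qbˣ), FiniteDimensional ℚ K → Γ.FG →
      (∀ g ∈ Γ, (g : Qb) ∈ K) → ∀ P : Finset ℕ, (∀ p ∈ P, p.Prime) →
      fullField K Γ P ≤ divF Γ → ∃ c : ℝ, 0 < c ∧
        ∀ F : GF, fullField K Γ P ≤ F → BdExt (fullField K Γ P) F M →
        ∀ g : Qb[X], RadSum F k g → ∀ α : Qb, α ≠ 0 → ¬ DivG Γ α →
        ModRoot N q g.natDegree g α →
          c₀ ≤ (g.natDegree : ℝ) * ht α ∨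
            ((∃ n : ℕ, 0 < n ∧ minpoly (divF Γ) α = expand (divF Γ) n (minpoly (divF Γ) (α ^ n)) ∧
              (minpoly (divF Γ) (α ^ n)).natDegree ≤ B) ∧
              c ≤ ((minpoly (divF Γ) α).natDegree : ℝ) * ht α) := by
  obtain ⟨c₁, hc₁, B, h₁⟩ := main_alt N q hadm k hk M
  refine ⟨c₁, hc₁, B, ?_⟩
  intro K Γ hKfd hΓfg hΓK P hP hle
  obtain ⟨c₂, hc₂, h₂⟩ := radical_bound K Γ hKfd hΓfg hΓK P hP B
  refine ⟨c₂, hc₂, ?_⟩
  intro F hLF hM g hg α hα hnd hmod
  obtain ⟨θ, e, hrad, he, hgr⟩ := hg.bdd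
  rw [hgr] at hmod he ⊢
  rcases h₁ _ F hLF hM θ e hrad α _ hα he hmod with h1 | ⟨m, hm, h1⟩
  · exact Or.inl h1
  · refine Or.inr ⟨?_, h₂ α hα hnd m hm h1⟩
    have hμ : ∀ x : Qb, Tor x → x ∈ divF Γ := by
      rintro x ⟨n, hn, hx⟩
      apply IntermediateField.subset_adjoin
      exact ⟨n, hn, 1, one_mem Γ, by rw [hx, Units.val_one]⟩
    obtain ⟨n, hn, hexp, hmin⟩ := exists_expand (divF Γ) hμ α hα
    refine ⟨n, hn, hexp, (hmin m hm).trans (le_trans ?_ h1)⟩
    rw [← orb_ncard, ← orb_ncard]
    exact Set.ncard_le_ncard (orb_mono hle _) (orb_finite _ _)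

/-- extensions of bounded degree -/
lemma bdExt_of_finrank (L : GF) (E : IntermediateField L Qb) (hE : FiniteDimensional L E) (M : ℕ)
    (h : Module.finrank L E ≤ M) :
    L ≤ E.restrictScalars ℚ ∧ BdExt L (E.restrictScalars ℚ) M := by
  refine ⟨fun x hx => E.algebraMap_mem ⟨x, hx⟩, fun x => ?_⟩
  exact (deg_tower L E x).trans (Nat.mul_le_mul_right _ h)

/-- an exact root is a root modulo everything -/
lemma ModRoot.of_eq {N q E : ℕ} (hq : 0 < q) {g : Qb[X]} (hg : g ≠ 0) {α : Qb}
    (h : g.eval α = 0) : ModRoot N q E g α := by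
  intro V _
  refine ⟨g.natDegree, by rw [coeff_natDegree]; exact leadingCoeff_ne_zero.mpr hg, ?_⟩
  rw [h, map_zero, zero_pow hq.ne']
  exact zero_le

end Pool.Agent.W5h73.SP
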