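import Mathlib
import Pool.Agent.W5h73.SP.Main4

set_option autoImplicit false

/-!
# Every polynomial over the field of the division group is a sum of monomials with radical
coefficients
-/

namespace Pool.Agent.W5h73.SP

open Polynomial
open Pool.Agent.H58P (Qb ht qb_isIntegral)
open Pool.Agent.W237.RK
open Pool.Agent.TH53.RP
open Pool.Agent.TH53.BL

lemma RadSum.zero (F : GF) : RadSum F 0 0 :=
  ⟨fun i => i.elim0, fun i => i.elim0, fun i => i.elim0, by simp⟩

lemma RadSum.add {F : GF} {k k' : ℕ} {g g' : Qb[X]} (h : RadSum F k g) (h' : RadSum F k' g') :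
    RadSum F (k + k') (g + g') := by
  obtain ⟨θ, e, hθ, rfl⟩ := h
  obtain ⟨θ', e', hθ', rfl⟩ := h'
  refine ⟨Fin.append θ θ', Fin.append e e', ?_, ?_⟩
  · intro j
    refine Fin.addCases (fun i => ?_) (fun i => ?_) j
    · rw [Fin.append_left]
      exact hθ i
    · rw [Fin.append_right]
      exact hθ' i
  · rw [Fin.sum_univ_add]
    simp only [Fin.append_left, Fin.append_right]

lemma RadSum.sum {F : GF} {ι : Type*} (s : Finset ι) (g : ι → Qb[X])
    (h : ∀ i ∈ s, ∃ k, RadSum F k (g i)) : ∃ k, RadSum F k (∑ i ∈ s, g i) := by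
  classical
  induction s using Finset.induction with
  | empty => exact ⟨0, by rw [Finset.sum_empty]; exact RadSum.zero F⟩
  | insert a s ha ih =>
    obtain ⟨k, hk⟩ := h a (Finset.mem_insert_self _ _)
    obtain ⟨k', hk'⟩ := ih fun i hi => h i (Finset.mem_insert_of_mem hi)
    rw [Finset.sum_insert ha]
    exact ⟨k + k', hk.add hk'⟩

theorem cover (Γ : Subgroup Qbˣ) (F : GF) (hΓF : ∀ g ∈ Γ, (g : Qb) ∈ F) (f : (divF Γ)[X]) :
    ∃ k, RadSum F k (f.map (algebraMap (divF Γ) Qb)) := by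
  classical
  have h1 : f.map (algebraMap (divF Γ) Qb) =
      ∑ i ∈ Finset.range (f.natDegree + 1), C (f.coeff i : Qb) * X ^ i := by
    conv_lhs => rw [f.as_sum_range_C_mul_X_pow]
    rw [Polynomial.map_sum]
    refine Finset.sum_congr rfl fun i _ => ?_
    rw [Polynomial.map_mul, Polynomial.map_pow, map_C, map_X]
    rfl
  rw [h1]
  apply RadSum.sum
  intro i _
  obtain ⟨k, b, γ, hb, hγ, hsum⟩ := span_form F Γ (f.coeff i : Qb)
    ((le_sup_right : divF Γ ≤ F ⊔ divF Γ) (f.coeff i).2)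
  refine ⟨k, fun j => b j * γ j, fun _ => i, fun j => ?_, ?_⟩
  · obtain ⟨n, hn, g, hg, h⟩ := hγ j
    refine ⟨n, hn, ?_⟩
    rw [mul_pow, h]
    exact mul_mem (pow_mem (hb j) n) (hΓF g hg)
  · rw [hsum, map_sum, Finset.sum_mul]

/-- every algebraic number is a root of such a polynomial -/
theorem cover_root (Γ : Subgroup Qbˣ) (F : GF) (hΓF : ∀ g ∈ Γ, (g : Qb) ∈ F) (α : Qb) :
    ∃ (k : ℕ) (g : Qb[X]), RadSum F k g ∧ g ≠ 0 ∧
      g.natDegree = (minpoly (divF Γ) α).natDegree ∧ g.eval α = 0 := by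
  obtain ⟨k, hk⟩ := cover Γ F hΓF (minpoly (divF Γ) α)
  refine ⟨k, _, hk, ?_, natDegree_map _, ?_⟩
  · rw [Ne, Polynomial.map_eq_zero_iff (algebraMap (divF Γ) Qb).injective]
    exact minpoly.ne_zero (isInt _ α)
  · rw [eval_map_algebraMap]
    exact minpoly.aeval _ α

end Pool.Agent.W5h73.SP
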